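import Pool.Agent.Helper55.Kh.CertB2

/-!
# The second certificate: states with at least three `𝟏`-blocks and few merges
-/

namespace Pool.Agent.Helper55.Kh

/-- weight of a block -/
def wt (b : Blk) : ℝ := if b.1 then 1 else (b.2 : ℝ) + 1

/-- product of the sizes of the `𝟏`-blocks -/
def W : List Blk → ℝ
  | [] => 1
  | b :: t => wt b * W t

lemma wt_ge (b : Blk) : 1 ≤ wt b := by
  unfold wt
  split_ifs
  · exact le_refl _
  · have : (0 : ℝ) ≤ b.2 := Nat.cast_nonneg _
    linarith

lemma wt_pos (b : Blk) : 0 < wt b := lt_of_lt_of_le one_pos (wt_ge b)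

lemma W_pos (s : List Blk) : 0 < W s := by
  induction s with
  | nil => exact one_pos
  | cons b t ih => exact mul_pos (wt_pos b) ih

/-- `1` if both blocks are labelled `𝟏` -/
def nn (b b' : Blk) : ℝ := if b.1 || b'.1 then 0 else 1

/-- number of adjacent pairs of `𝟏`-blocks -/
def Ec : List Blk → ℝ
  | [] => 0
  | [_] => 0
  | b :: b' :: t => nn b b' + Ec (b' :: t)

lemma nn_nonneg (b b' : Blk) : 0 ≤ nn b b' := by unfold nn; split_ifs <;> norm_num

lemma Ec_nonneg (s : List Blk) : 0 ≤ Ec s := by
  induction s with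
  | nil => exact le_refl _
  | cons b t ih =>
    cases t with
    | nil => exact le_refl _
    | cons b' t => exact add_nonneg (nn_nonneg _ _) ih

/-- content on one side -/
noncomputable def eb (b : Blk) : ℝ := if b.1 then (b.2 : ℝ) else (b.2 : ℝ) / 2

lemma eb_nonneg (b : Blk) : 0 ≤ eb b := by
  unfold eb
  have : (0 : ℝ) ≤ b.2 := Nat.cast_nonneg _
  split_ifs <;> linarith

lemma sum_lin (a : ℝ) (c : ℕ) : ∑ i ∈ Finset.range (c + 1), (a + i) = (c + 1) * a + c * (c + 1) / 2 := by
  induction c with
  | zero => simp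
  | succ c ih =>
    rw [Finset.sum_range_succ, ih]
    push_cast
    ring

lemma pmv_W (b b' : Blk) (t : List Blk) :
    pmv b b' (fun x y => W (x :: y :: t)) ≤
      (dg b + op b b' - nn b b' - eb b + eb b') * (wt b * (wt b' * W t)) := by
  have hW := W_pos t
  obtain ⟨lb, a⟩ := b
  obtain ⟨lb', c⟩ := b'
  cases lb <;> cases lb' <;> simp only [pmv, dg, op, nn, eb, wt, W] <;> simp only [Bool.false_eq_true,
    Bool.and_false, Bool.and_true, Bool.or_false, Bool.or_true, Bool.and_self, Bool.or_self, if_true, if_false,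
    one_mul]
  · have : (0 : ℝ) ≤ a := Nat.cast_nonneg _
    have : (0 : ℝ) ≤ c := Nat.cast_nonneg _
    apply mul_nonneg
    · linarith
    · positivity
  · have h := sum_lin ((c : ℝ) + 1) a
    have e : ∑ x ∈ Finset.range (a + 1), (((c + x : ℕ) : ℝ) + 1) * W t =
        ((a + 1) * ((c : ℝ) + 1) + a * (a + 1) / 2) * W t := by
      rw [← h, Finset.sum_mul]
      apply Finset.sum_congr rfl
      intro x _
      push_cast; ring
    rw [e]
    apply le_of_eq
    ring
  · have h := sum_lin ((a : ℝ) + 1) c
    have e : ∑ x ∈ Finset.range (c + 1), (((a + x : ℕ) : ℝ) + 1) * W t =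
        ((c + 1) * ((a : ℝ) + 1) + c * (c + 1) / 2) * W t := by
      rw [← h, Finset.sum_mul]
      apply Finset.sum_congr rfl
      intro x _
      push_cast; ring
    rw [e]
    apply le_of_eq
    ring
  · simp only [Finset.sum_const, Finset.card_range, nsmul_eq_mul]
    apply le_of_eq
    ring

lemma Mv_W (b : Blk) (t : List Blk) :
    Mv (b :: t) W ≤ (Dg (b :: t) - Ec (b :: t) - eb b) * W (b :: t) := by
  induction t generalizing b with
  | nil =>
    simp only [Mv, Dg, Ec]
    apply mul_nonneg _ (W_pos _).le
    unfold dg eb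
    have : (0 : ℝ) ≤ b.2 := Nat.cast_nonneg _
    split_ifs <;> linarith
  | cons b' t ih =>
    have h := ih b'
    have h2 := pmv_W b b' t
    simp only [Mv, Dg, Ec]
    have e : Mv (b' :: t) (fun u => W (b :: u)) = wt b * Mv (b' :: t) W := by
      rw [← Mv_mul]; rfl
    rw [e]
    have h3 := mul_le_mul_of_nonneg_left h (wt_pos b).le
    simp only [W] at h3 h2 ⊢
    nlinarith

/-- number of `X`-blocks before the first `𝟏` -/
def nX : List Blk → ℕ
  | [] => 0
  | b :: t => if b.1 then 1 + nX t else 0

/-- content before the first `𝟏` -/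
def cA : List Blk → ℕ
  | [] => 0
  | b :: t => if b.1 then b.2 + cA t else 0

/-- content of the first `𝟏` -/
def cc : List Blk → ℕ
  | [] => 0
  | b :: t => if b.1 then cc t else b.2

/-- correction term for moves of the first `𝟏` of a tail -/
noncomputable def corr1 (S : ℕ → ℝ) (oj oA : ℕ) (s t : List Blk) : ℝ :=
  if nX t = nX s + 1 then
    (1 - S (nX s + oj + 1 + (cA s + oA) + (cA t + oA) + cc s + 1) /
      S (nX s + oj + 1 + (cA s + oA) + (cA t + oA) + cc s)) / ((cc s : ℝ) + 1) ^ 2
  else if nX s = nX t + 1 then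
    (1 - S (nX t + oj + 1 + (cA t + oA) + (cA s + oA) + cc t) /
      S (nX t + oj + 1 + (cA t + oA) + (cA s + oA) + cc t + 1)) / ((cc s : ℝ) + 1) ^ 2
  else 0

/-- correction term for moves of the second `𝟏` -/
noncomputable def corr (S : ℕ → ℝ) : List Blk → List Blk → ℝ
  | b :: s, b' :: t => if b.1 && b'.1 then corr S s t else if b.1 || b'.1 then 0 else corr1 S 0 0 s t
  | _, _ => 0

lemma corr1_eq_zero (S : ℕ → ℝ) (oj oA : ℕ) (s t : List Blk) (h : nX s = nX t) :
    corr1 S oj oA s t = 0 := by
  unfold corr1
  rw [if_neg (by omega), if_neg (by omega)]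

lemma corr_self (S : ℕ → ℝ) (s : List Blk) : corr S s s = 0 := by
  induction s with
  | nil => simp [corr]
  | cons b s ih =>
    simp only [corr]
    split_ifs
    · exact ih
    · rfl
    · exact corr1_eq_zero _ _ _ _ _ rfl

lemma corr1_cons (S : ℕ → ℝ) (oj oA a : ℕ) (s t : List Blk) :
    corr1 S oj oA ((true, a) :: s) ((true, a) :: t) = corr1 S (oj + 1) (oA + a) s t := by
  unfold corr1
  simp only [nX, cA, cc, if_true]
  have e1 : (1 + nX t = 1 + nX s + 1) ↔ (nX t = nX s + 1) := by omega
  have e2 : (1 + nX s = 1 + nX t + 1) ↔ (nX s = nX t + 1) := by omega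
  have e3 : 1 + nX s + oj + 1 + (a + cA s + oA) + (a + cA t + oA) + cc s =
      nX s + (oj + 1) + 1 + (cA s + (oA + a)) + (cA t + (oA + a)) + cc s := by ring
  have e4 : 1 + nX t + oj + 1 + (a + cA t + oA) + (a + cA s + oA) + cc t =
      nX t + (oj + 1) + 1 + (cA t + (oA + a)) + (cA s + (oA + a)) + cc t := by ring
  simp only [e1, e2, e3, e4]

/-- number of `𝟏`-blocks -/
def ones (s : List Blk) : ℕ := (s.map (fun b => if b.1 then 0 else 1)).sum
/-- number of `X`-blocks -/
def xs (s : List Blk) : ℕ := (s.map (fun b => if b.1 then 1 else 0)).sum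

lemma ones_cons (b : Blk) (s : List Blk) : ones (b :: s) = (if b.1 then 0 else 1) + ones s := by
  simp [ones]
lemma xs_cons (b : Blk) (s : List Blk) : xs (b :: s) = (if b.1 then 1 else 0) + xs s := by
  simp [xs]

/-- Hypotheses on the profile. -/
structure Good (S : ℕ → ℝ) (γ : ℝ) (M : ℕ) : Prop where
  nonneg : ∀ i, 0 ≤ S i
  pos : ∀ i, 1 ≤ i → i < M → 0 < S i
  recu : ∀ i, i + 2 ≤ M → 2 * S (i + 1) - S i - S (i + 2) = γ * S (i + 1)

/-- the telescoping inequality -/
lemma tele {S : ℕ → ℝ} {γ : ℝ} {M : ℕ} (hS : Good S γ M) (y w : ℕ) (h : y + (w + 1) + 1 ≤ M) :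
    γ * (w + 1) ≤ (1 - S (y + (w + 1) + 1) / S (y + (w + 1))) + (1 - S y / S (y + 1)) := by
  induction w with
  | zero =>
    have h1 := hS.pos (y + 1) (by omega) (by omega)
    have h2 := hS.recu y (by omega)
    simp only [zero_add, Nat.cast_zero]
    have e : y + 1 + 1 = y + 2 := rfl
    rw [e]
    apply le_of_eq
    field_simp
    linarith
  | succ w ih =>
    have ih' := ih (by omega)
    have h1 := hS.pos (y + (w + 1)) (by omega) (by omega)
    have h2 := hS.pos (y + (w + 1) + 1) (by omega) (by omega)
    have h3 := hS.recu (y + (w + 1)) (by omega)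
    have e : y + (w + 1 + 1) + 1 = y + (w + 1) + 2 := by ring
    have e' : y + (w + 1 + 1) = y + (w + 1) + 1 := by ring
    rw [e, e']
    set p := S (y + (w + 1)) with hp
    set q := S (y + (w + 1) + 1) with hq
    set r := S (y + (w + 1) + 2) with hr
    push_cast
    -- 1 - r / q ≥ γ + (1 - q / p)
    have key : γ + (1 - q / p) ≤ 1 - r / q := by
      have e1 : 1 - r / q = γ + (p / q - 1) := by
        field_simp
        linarith
      have e2 : 1 - q / p ≤ p / q - 1 := by
        have : 2 ≤ p / q + q / p := by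
          have h4 : p / q + q / p - 2 = (p - q) ^ 2 / (p * q) := by
            field_simp
            ring
          have h5 : 0 ≤ (p - q) ^ 2 / (p * q) := by positivity
          linarith
        linarith
      linarith
    nlinarith

lemma avg_le_one (S : ℕ → ℝ) (hS : ∀ i, 0 ≤ S i) (c : ℕ) (p q : ℕ → ℕ) :
    (∑ t ∈ Finset.range (c + 1), (1 - S (p t) / S (q t))) / ((c : ℝ) + 1) ^ 2 ≤ 1 := by
  have hc : (0 : ℝ) ≤ c := Nat.cast_nonneg _
  rw [div_le_one (by positivity)]
  calc ∑ t ∈ Finset.range (c + 1), (1 - S (p t) / S (q t)) ≤ ∑ t ∈ Finset.range (c + 1), (1 : ℝ) := by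
        apply Finset.sum_le_sum
        intro t _
        have := div_nonneg (hS (p t)) (hS (q t))
        linarith
    _ = (c : ℝ) + 1 := by simp
    _ ≤ ((c : ℝ) + 1) ^ 2 := by nlinarith

/-- the total of the corrections and collisions for a tail -/
noncomputable def Gt (S : ℕ → ℝ) (oj oA : ℕ) (s : List Blk) : ℝ := Ec s + Mv s (corr1 S oj oA s)

lemma Gt_start_one (S : ℕ → ℝ) (hS : ∀ i, 0 ≤ S i) (oj oA c : ℕ) (b' : Blk) (t : List Blk) :
    (∑ i ∈ Finset.range (c + 1), (1 - S (oj + 1 + 2 * oA + c + i + 1) / S (oj + 1 + 2 * oA + c + i)))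
      / ((c : ℝ) + 1) ^ 2 ≤ Gt S oj oA ((false, c) :: b' :: t) := by
  unfold Gt
  simp only [Ec, Mv]
  have h0 : Mv (b' :: t) (fun u => corr1 S oj oA ((false, c) :: b' :: t) ((false, c) :: u)) = 0 := by
    rw [← Mv_zero (b' :: t)]
    apply Mv_congr
    intro u _
    apply corr1_eq_zero
    simp [nX]
  rw [h0, add_zero]
  have hE := Ec_nonneg (b' :: t)
  obtain ⟨lb', d⟩ := b'
  cases lb'
  · have := avg_le_one S hS c (fun i => oj + 1 + 2 * oA + c + i + 1) (fun i => oj + 1 + 2 * oA + c + i)
    simp only [nn, pmv]
    simp only [Bool.or_self, Bool.false_eq_true, if_false, add_zero]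
    linarith
  · simp only [nn, pmv]
    simp only [Bool.or_true, if_true, zero_add]
    have e : ∑ i ∈ Finset.range (c + 1), corr1 S oj oA ((false, c) :: (true, d) :: t)
        ((true, c - i) :: (false, d + i) :: t) =
        (∑ i ∈ Finset.range (c + 1), (1 - S (oj + 1 + 2 * oA + c + i + 1) / S (oj + 1 + 2 * oA + c + i)))
      / ((c : ℝ) + 1) ^ 2 := by
      rw [Finset.sum_div, ← Finset.sum_range_reflect]
      apply Finset.sum_congr rfl
      intro i hi
      rw [Finset.mem_range] at hi
      unfold corr1
      simp only [nX, cA, cc, Bool.false_eq_true, if_false, if_true, add_zero, zero_add]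
      have e1 : c - (c + 1 - 1 - i) = i := by omega
      rw [e1]
      have e2 : oj + 1 + oA + (i + oA) + c = oj + 1 + 2 * oA + c + i := by ring
      rw [e2]
    rw [e]
    linarith

lemma Gt_start_X {S : ℕ → ℝ} {γ : ℝ} {M : ℕ} (hS : Good S γ M) (a : ℕ) (s : List Blk)
    (oj oA : ℕ) (h2 : 2 ≤ ones s)
    (hM : oj + xs ((true, a) :: s) + 2 * (oA + cont ((true, a) :: s)) + 2 ≤ M) :
    γ ≤ Gt S oj oA ((true, a) :: s) := by
  induction s generalizing a oj oA with
  | nil => simp [ones] at h2
  | cons b s ih =>
    obtain ⟨lb, c⟩ := b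
    have hMv : Mv ((true, a) :: (lb, c) :: s) (corr1 S oj oA ((true, a) :: (lb, c) :: s)) =
        pmv (true, a) (lb, c) (fun x y => corr1 S oj oA ((true, a) :: (lb, c) :: s) (x :: y :: s)) +
        Mv ((lb, c) :: s) (corr1 S (oj + 1) (oA + a) ((lb, c) :: s)) := by
      simp only [Mv]
      congr 1
      apply Mv_congr
      intro u _
      exact corr1_cons _ _ _ _ _ _
    cases lb
    · -- the next block is a `𝟏`
      cases s with
      | nil => simp [ones] at h2
      | cons b' t =>
        have hG := Gt_start_one S hS.nonneg (oj + 1) (oA + a) c b' t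
        unfold Gt at hG ⊢
        rw [hMv]
        have hE : Ec ((true, a) :: (false, c) :: b' :: t) = Ec ((false, c) :: b' :: t) := by
          simp [Ec, nn]
        rw [hE]
        have hP : pmv (true, a) (false, c) (fun x y => corr1 S oj oA ((true, a) :: (false, c) :: b' :: t)
            (x :: y :: b' :: t)) =
            (∑ i ∈ Finset.range (c + 1), (1 - S (oj + 1 + 2 * (oA + a) + i) / S (oj + 1 + 2 * (oA + a) + i + 1)))
              / ((c : ℝ) + 1) ^ 2 := by
          simp only [pmv]
          rw [Finset.sum_div]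
          apply Finset.sum_congr rfl
          intro i _
          unfold corr1
          simp only [nX, cA, cc, Bool.false_eq_true, if_false, if_true, add_zero, zero_add,
            Nat.reduceAdd, OfNat.zero_ne_ofNat]
          have e2 : oj + 1 + oA + (a + oA) + (a + i) = oj + 1 + 2 * (oA + a) + i := by ring
          rw [e2]
        rw [hP]
        have hsum : γ * (c + 1) * (c + 1) ≤
            ∑ i ∈ Finset.range (c + 1), (1 - S (oj + 1 + 2 * (oA + a) + i) / S (oj + 1 + 2 * (oA + a) + i + 1)) +
            ∑ i ∈ Finset.range (c + 1), (1 - S (oj + 1 + 1 + 2 * (oA + a) + c + i + 1) /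
              S (oj + 1 + 1 + 2 * (oA + a) + c + i)) := by
          rw [← Finset.sum_add_distrib]
          have : γ * (c + 1) * ((c : ℝ) + 1) = ∑ i ∈ Finset.range (c + 1), γ * ((c : ℝ) + 1) := by
            simp; ring
          rw [this]
          apply Finset.sum_le_sum
          intro i hi
          rw [Finset.mem_range] at hi
          have hb : oj + 1 + 2 * (oA + a) + i + (c + 1) + 1 ≤ M := by
            simp only [xs_cons, cont_cons, if_true, Bool.false_eq_true, if_false] at hM
            omega
          have ht := tele hS (oj + 1 + 2 * (oA + a) + i) c hb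
          have e3 : oj + 1 + 2 * (oA + a) + i + (c + 1) = oj + 1 + 1 + 2 * (oA + a) + c + i := by ring
          rw [e3] at ht
          linarith
        have hcp : (0 : ℝ) < ((c : ℝ) + 1) ^ 2 := by positivity
        have h5 : γ ≤ (∑ i ∈ Finset.range (c + 1), (1 - S (oj + 1 + 2 * (oA + a) + i) / S (oj + 1 + 2 * (oA + a) + i + 1)))
              / ((c : ℝ) + 1) ^ 2 +
            (∑ i ∈ Finset.range (c + 1), (1 - S (oj + 1 + 1 + 2 * (oA + a) + c + i + 1) /
              S (oj + 1 + 1 + 2 * (oA + a) + c + i))) / ((c : ℝ) + 1) ^ 2 := by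
          rw [← add_div, le_div_iff₀ hcp]
          nlinarith
        linarith
    · -- the next block is an `X`
      have hG := ih c (oj + 1) (oA + a) (by simpa [ones_cons] using h2) (by
        simp only [xs_cons, cont_cons, if_true] at hM ⊢
        omega)
      unfold Gt at hG ⊢
      rw [hMv]
      have hE : Ec ((true, a) :: (true, c) :: s) = Ec ((true, c) :: s) := by
        simp [Ec, nn]
      have hP : pmv (true, a) (true, c) (fun x y => corr1 S oj oA ((true, a) :: (true, c) :: s)
            (x :: y :: s)) = 0 := by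
        simp only [pmv]
        rw [Finset.sum_eq_zero, Finset.sum_eq_zero, add_zero]
        · intro i _
          apply corr1_eq_zero
          simp [nX]
        · intro i _
          apply corr1_eq_zero
          simp [nX]
      rw [hE, hP, zero_add]
      exact hG

/-- the total of the corrections and collisions for a state with three `𝟏`-blocks -/
theorem corr_total {S : ℕ → ℝ} {γ : ℝ} {M : ℕ} (hS : Good S γ M) (s : List Blk)
    (h3 : 3 ≤ ones s) (hM : xs s + 2 * cont s + 2 ≤ M) :
    γ ≤ Ec s + Mv s (corr S s) := by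
  induction s with
  | nil => simp [ones] at h3
  | cons b s ih =>
    cases s with
    | nil =>
      exfalso
      rw [ones_cons] at h3
      have : ones [] = 0 := rfl
      split_ifs at h3 <;> omega
    | cons b' t =>
      obtain ⟨lb, a⟩ := b
      cases lb
      · -- first block is a `𝟏`
        have hMv : Mv ((false, a) :: b' :: t) (corr S ((false, a) :: b' :: t)) =
            Mv (b' :: t) (corr1 S 0 0 (b' :: t)) := by
          simp only [Mv]
          have h1 : pmv (false, a) b' (fun x y => corr S ((false, a) :: b' :: t) (x :: y :: t)) = 0 := by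
            obtain ⟨lb', c⟩ := b'
            cases lb'
            · simp [pmv]
            · simp only [pmv, corr]
              simp
          rw [h1, zero_add]
          apply Mv_congr
          intro u _
          simp [corr]
        rw [hMv]
        obtain ⟨lb', c⟩ := b'
        cases lb'
        · -- second block is a `𝟏`
          cases t with
          | nil =>
            exfalso
            rw [ones_cons, ones_cons] at h3
            have : ones [] = 0 := rfl
            simp only [Bool.false_eq_true, if_false] at h3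
            omega
          | cons b'' t =>
            have hG := Gt_start_one S hS.nonneg 0 0 c b'' t
            unfold Gt at hG
            have hE : Ec ((false, a) :: (false, c) :: b'' :: t) = 1 + Ec ((false, c) :: b'' :: t) := by
              simp [Ec, nn]
            rw [hE]
            have hav := avg_le_one S hS.nonneg c (fun i => i) (fun i => i + 1)
            have hsum : γ * (c + 1) * (c + 1) ≤
                ∑ i ∈ Finset.range (c + 1), (1 - S i / S (i + 1)) +
                ∑ i ∈ Finset.range (c + 1), (1 - S (0 + 1 + 2 * 0 + c + i + 1) / S (0 + 1 + 2 * 0 + c + i)) := by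
              rw [← Finset.sum_add_distrib]
              have : γ * (c + 1) * ((c : ℝ) + 1) = ∑ i ∈ Finset.range (c + 1), γ * ((c : ℝ) + 1) := by
                simp; ring
              rw [this]
              apply Finset.sum_le_sum
              intro i hi
              rw [Finset.mem_range] at hi
              have hb : i + (c + 1) + 1 ≤ M := by
                simp only [cont_cons] at hM
                omega
              have ht := tele hS i c hb
              have e3 : i + (c + 1) = 0 + 1 + 2 * 0 + c + i := by ring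
              rw [e3] at ht
              linarith
            have hcp : (0 : ℝ) < ((c : ℝ) + 1) ^ 2 := by positivity
            have h5 : γ ≤ (∑ i ∈ Finset.range (c + 1), (1 - S i / S (i + 1))) / ((c : ℝ) + 1) ^ 2 +
                (∑ i ∈ Finset.range (c + 1), (1 - S (0 + 1 + 2 * 0 + c + i + 1) / S (0 + 1 + 2 * 0 + c + i)))
                  / ((c : ℝ) + 1) ^ 2 := by
              rw [← add_div, le_div_iff₀ hcp]
              nlinarith
            linarith
        · -- second block is an `X`
          have hG := Gt_start_X hS c t 0 0 (by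
            simp only [ones_cons, Bool.false_eq_true, if_false, if_true] at h3
            omega) (by
            simp only [xs_cons, cont_cons, Bool.false_eq_true, if_false, if_true] at hM ⊢
            omega)
          unfold Gt at hG
          have hE : Ec ((false, a) :: (true, c) :: t) = Ec ((true, c) :: t) := by
            simp [Ec, nn]
          rw [hE]
          exact hG
      · -- first block is an `X`
        have hMv : Mv ((true, a) :: b' :: t) (corr S ((true, a) :: b' :: t)) =
            Mv (b' :: t) (corr S (b' :: t)) := by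
          simp only [Mv]
          have h1 : pmv (true, a) b' (fun x y => corr S ((true, a) :: b' :: t) (x :: y :: t)) = 0 := by
            obtain ⟨lb', c⟩ := b'
            cases lb'
            · simp only [pmv, corr]
              simp
            · simp only [pmv, corr]
              simp [corr_self]
          rw [h1, zero_add]
          apply Mv_congr
          intro u _
          simp [corr]
        rw [hMv]
        have hE : Ec ((true, a) :: b' :: t) = Ec (b' :: t) := by
          simp [Ec, nn]
        rw [hE]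
        apply ih
        · simpa [ones_cons (true, a)] using h3
        · rw [xs_cons, cont_cons] at hM
          simp only [if_true] at hM
          omega

/-- the weights of the second certificate -/
noncomputable def bf (S : ℕ → ℝ) (s t : List Blk) : ℝ := W t / W s - corr S s t

theorem certC_row {S : ℕ → ℝ} {γ : ℝ} {M : ℕ} (hS : Good S γ M) (s : List Blk)
    (h3 : 3 ≤ ones s) (hM : xs s + 2 * cont s + 2 ≤ M) :
    Mv s (bf S s) ≤ Dg s - γ := by
  have h1 : Mv s (bf S s) = (W s)⁻¹ * Mv s W - Mv s (corr S s) := by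
    rw [← Mv_mul]
    have : Mv s (bf S s) = Mv s (fun t => (W s)⁻¹ * W t + (-1) * corr S s t) := by
      apply Mv_congr
      intro t _
      unfold bf
      rw [div_eq_inv_mul]; ring
    rw [this, Mv_add, Mv_mul s (-1)]
    ring
  rw [h1]
  have h2 := corr_total hS s h3 hM
  cases s with
  | nil => simp [ones] at h3
  | cons b t =>
    have h4 := Mv_W b t
    have hW := W_pos (b :: t)
    have h5 : (W (b :: t))⁻¹ * Mv (b :: t) W ≤ Dg (b :: t) - Ec (b :: t) - eb b := by
      rw [inv_mul_le_iff₀ hW]
      linarith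
    have := eb_nonneg b
    linarith

/-- shape of the corrections on a move -/
def Pr (S : ℕ → ℝ) (cst cts : ℝ) (Ws Wt : ℝ) : Prop :=
  (cst = 0 ∧ cts = 0) ∨ ∃ ρ w w' : ℝ, 0 < ρ ∧ 1 ≤ w ∧ 1 ≤ w' ∧ Wt * w = Ws * w' ∧
    cst = (1 - ρ) / w ^ 2 ∧ cts = (1 - 1 / ρ) / w' ^ 2

lemma Pr_mul {S : ℕ → ℝ} {cst cts Ws Wt : ℝ} (k : ℝ) (h : Pr S cst cts Ws Wt) :
    Pr S cst cts (k * Ws) (k * Wt) := by
  rcases h with h | ⟨ρ, w, w', h1, h2, h3, h4, h5, h6⟩
  · exact Or.inl h
  · refine Or.inr ⟨ρ, w, w', h1, h2, h3, ?_, h5, h6⟩
    linear_combination k * h4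

lemma corr1_shape {S : ℕ → ℝ} {γ : ℝ} {M : ℕ} (hS : Good S γ M) (s t : List Blk) (oj oA : ℕ)
    (h : IsMv s t) (hM : oj + xs s + 2 * (oA + cont s) + 2 ≤ M) :
    Pr S (corr1 S oj oA s t) (corr1 S oj oA t s) (W s) (W t) := by
  induction h generalizing oj oA with
  | pair b b' x y t h =>
    cases h with
    | xx a c i j h =>
      left
      exact ⟨corr1_eq_zero _ _ _ _ _ (by simp [nX]), corr1_eq_zero _ _ _ _ _ (by simp [nX])⟩
    | xn a c i j h hi =>
      right
      have hb : oj + 1 + oA + (a + oA) + i + 1 < M := by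
        simp only [xs_cons, cont_cons, Bool.false_eq_true, if_false, if_true] at hM
        omega
      have hp1 := hS.pos (oj + 1 + oA + (a + oA) + i) (by omega) (by omega)
      have hp2 := hS.pos (oj + 1 + oA + (a + oA) + i + 1) (by omega) (by omega)
      refine ⟨S (oj + 1 + oA + (a + oA) + i) / S (oj + 1 + oA + (a + oA) + i + 1), (c : ℝ) + 1, (i : ℝ) + 1,
        by positivity, by have : (0 : ℝ) ≤ c := Nat.cast_nonneg _; linarith,
        by have : (0 : ℝ) ≤ i := Nat.cast_nonneg _; linarith, ?_, ?_, ?_⟩
      · simp [W, wt]; ring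
      · unfold corr1
        simp [nX, cA, cc]
      · unfold corr1
        simp [nX, cA, cc]
    | nx a c i j h hj =>
      right
      have hb : oj + 1 + oA + (i + oA) + a + 1 < M := by
        simp only [xs_cons, cont_cons, Bool.false_eq_true, if_false, if_true] at hM
        omega
      have hp1 := hS.pos (oj + 1 + oA + (i + oA) + a) (by omega) (by omega)
      have hp2 := hS.pos (oj + 1 + oA + (i + oA) + a + 1) (by omega) (by omega)
      refine ⟨S (oj + 1 + oA + (i + oA) + a + 1) / S (oj + 1 + oA + (i + oA) + a), (a : ℝ) + 1, (j : ℝ) + 1,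
        by positivity, by have : (0 : ℝ) ≤ a := Nat.cast_nonneg _; linarith,
        by have : (0 : ℝ) ≤ j := Nat.cast_nonneg _; linarith, ?_, ?_, ?_⟩
      · simp [W, wt]; ring
      · unfold corr1
        simp [nX, cA, cc]
      · unfold corr1
        simp [nX, cA, cc]
  | cons b s t h ih =>
    obtain ⟨lb, c⟩ := b
    cases lb
    · left
      exact ⟨corr1_eq_zero _ _ _ _ _ (by simp [nX]), corr1_eq_zero _ _ _ _ _ (by simp [nX])⟩
    · rw [corr1_cons, corr1_cons]
      simp only [W]
      apply Pr_mul
      apply ih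
      simp only [xs_cons, cont_cons, if_true] at hM
      omega

lemma corr_shape {S : ℕ → ℝ} {γ : ℝ} {M : ℕ} (hS : Good S γ M) (s t : List Blk)
    (h : IsMv s t) (hM : xs s + 2 * cont s + 2 ≤ M) :
    Pr S (corr S s t) (corr S t s) (W s) (W t) := by
  induction h with
  | pair b b' x y t h =>
    cases h with
    | xx a c i j h => left; simp [corr, corr_self]
    | xn a c i j h hi => left; simp [corr]
    | nx a c i j h hj => left; simp [corr]
  | cons b s t h ih =>
    obtain ⟨lb, c⟩ := b
    cases lb
    · simp only [corr, W]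
      simp only [Bool.false_and, Bool.false_eq_true, if_false, Bool.or_self]
      apply Pr_mul
      apply corr1_shape hS _ _ _ _ h
      simp only [xs_cons, cont_cons, Bool.false_eq_true, if_false] at hM
      omega
    · simp only [corr, W]
      simp only [Bool.and_self, if_true]
      apply Pr_mul
      apply ih
      simp only [xs_cons, cont_cons, if_true] at hM
      omega

lemma Pr_ineq {S : ℕ → ℝ} {cst cts Ws Wt : ℝ} (hs : 0 < Ws) (ht : 0 < Wt) (h : Pr S cst cts Ws Wt) :
    0 ≤ Wt / Ws - cst ∧ 0 ≤ Ws / Wt - cts ∧ 1 ≤ (Wt / Ws - cst) * (Ws / Wt - cts) := by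
  rcases h with ⟨h1, h2⟩ | ⟨ρ, w, w', h1, h2, h3, h4, h5, h6⟩
  · rw [h1, h2, sub_zero, sub_zero]
    refine ⟨by positivity, by positivity, ?_⟩
    apply le_of_eq
    field_simp
  · have hw : 0 < w := by linarith
    have hw' : 0 < w' := by linarith
    have e1 : Wt / Ws = w' / w := by
      rw [div_eq_div_iff hs.ne' hw.ne']; linarith
    have e2 : Ws / Wt = w / w' := by
      rw [div_eq_div_iff ht.ne' hw'.ne']; linarith
    rw [e1, e2, h5, h6]
    have hww : 1 ≤ w * w' := by nlinarith
    have hρ : 0 < 1 / ρ := by positivity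
    have f1 : w' / w - (1 - ρ) / w ^ 2 = (w * w' - (1 - ρ)) / w ^ 2 := by
      field_simp
    have f2 : w / w' - (1 - 1 / ρ) / w' ^ 2 = (w * w' - (1 - 1 / ρ)) / w' ^ 2 := by
      field_simp
    rw [f1, f2]
    refine ⟨?_, ?_, ?_⟩
    · apply div_nonneg _ (by positivity)
      linarith
    · apply div_nonneg _ (by positivity)
      linarith
    · rw [div_mul_div_comm, one_le_div (by positivity)]
      have hδ : ρ * (1 / ρ) = 1 := by field_simp
      have hδ2 : 2 ≤ ρ + 1 / ρ := by
        have : ρ + 1 / ρ - 2 = (ρ - 1) ^ 2 / ρ := by field_simp; ring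
        have h7 : 0 ≤ (ρ - 1) ^ 2 / ρ := by positivity
        linarith
      set r := 1 / ρ with hr
      have e3 : (w * w' - (1 - ρ)) * (w * w' - (1 - r)) =
          w ^ 2 * w' ^ 2 + (w * w' - 1) * (ρ + r - 2) := by
        linear_combination hδ
      rw [e3]
      nlinarith

theorem certC_move {S : ℕ → ℝ} {γ : ℝ} {M : ℕ} (hS : Good S γ M) (s t : List Blk)
    (h : IsMv s t) (hM : xs s + 2 * cont s + 2 ≤ M) :
    0 ≤ bf S s t ∧ 0 ≤ bf S t s ∧ 1 ≤ bf S s t * bf S t s :=
  Pr_ineq (W_pos s) (W_pos t) (corr_shape hS s t h hM)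

end Pool.Agent.Helper55.Kh
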