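import Pool.Agent.Helper55.Kh.Defs
import Pool.Agent.Helper55.Kh.CertC

/-!
# From the cube of resolutions to lists of blocks
-/

namespace Pool.Agent.Helper55.Kh

open Classical in
/-- add a closed crossing in front -/
def consT {n : ℕ} (s : Gen n) : Gen (n + 1) :=
  ⟨(Fin.cons true s.res, Fin.cons (s.lab 0) s.lab), by
    intro i
    refine Fin.cases ?_ (fun j => ?_) i
    · intro _; simp
    · intro h
      have h' : s.res j = true := by simpa using h
      have := s.2 j h'
      simpa using this⟩

/-- add an open crossing in front -/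
def consF {n : ℕ} (x : Bool) (s : Gen n) : Gen (n + 1) :=
  ⟨(Fin.cons false s.res, Fin.cons x s.lab), by
    intro i
    refine Fin.cases ?_ (fun j => ?_) i
    · intro h; simp at h
    · intro h
      have h' : s.res j = true := by simpa using h
      have := s.2 j h'
      simpa using this⟩

/-- remove the first crossing -/
def tl {n : ℕ} (s : Gen (n + 1)) : Gen n :=
  ⟨(Fin.tail s.res, Fin.tail s.lab), by
    intro i h
    have := s.2 i.succ h
    simpa [Fin.tail] using this⟩

lemma consT_tl {n : ℕ} (s : Gen (n + 1)) (h : s.res 0 = true) : consT (tl s) = s := by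
  apply Subtype.ext
  apply Prod.ext
  · change Fin.cons true (Fin.tail s.res) = s.res
    rw [← h, Fin.cons_self_tail]
  · change Fin.cons (Fin.tail s.lab 0) (Fin.tail s.lab) = s.lab
    have h1 : Fin.tail s.lab 0 = s.lab 0 := by
      have := s.2 0 h
      simp only [Fin.tail]
      simpa using this.symm
    rw [h1, Fin.cons_self_tail]

lemma consF_tl {n : ℕ} (s : Gen (n + 1)) (h : s.res 0 = false) : consF (s.lab 0) (tl s) = s := by
  apply Subtype.ext
  apply Prod.ext
  · change Fin.cons false (Fin.tail s.res) = s.res
    rw [← h, Fin.cons_self_tail]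
  · change Fin.cons (s.lab 0) (Fin.tail s.lab) = s.lab
    rw [Fin.cons_self_tail]

lemma tl_consT {n : ℕ} (s : Gen n) : tl (consT s) = s := by
  apply Subtype.ext
  apply Prod.ext
  · funext i; rfl
  · funext i; rfl

lemma tl_consF {n : ℕ} (x : Bool) (s : Gen n) : tl (consF x s) = s := by
  apply Subtype.ext
  apply Prod.ext
  · funext i; rfl
  · funext i; rfl

lemma gen_cases {n : ℕ} {p : Gen (n + 1) → Prop} (hT : ∀ s, p (consT s)) (hF : ∀ x s, p (consF x s))
    (s : Gen (n + 1)) : p s := by
  cases h : s.res 0
  · rw [← consF_tl s h]; exact hF _ _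
  · rw [← consT_tl s h]; exact hT _

@[simp] lemma res_consT_zero {n : ℕ} (s : Gen n) : (consT s).res 0 = true := rfl
@[simp] lemma res_consF_zero {n : ℕ} (x : Bool) (s : Gen n) : (consF x s).res 0 = false := rfl
@[simp] lemma res_consT_succ {n : ℕ} (s : Gen n) (i : Fin n) : (consT s).res i.succ = s.res i := rfl
@[simp] lemma res_consF_succ {n : ℕ} (x : Bool) (s : Gen n) (i : Fin n) :
    (consF x s).res i.succ = s.res i := rfl
@[simp] lemma lab_consT_zero {n : ℕ} (s : Gen n) : (consT s).lab 0 = s.lab 0 := rfl
@[simp] lemma lab_consF_zero {n : ℕ} (x : Bool) (s : Gen n) : (consF x s).lab 0 = x := rfl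
@[simp] lemma lab_consT_succ {n : ℕ} (s : Gen n) (i : Fin (n + 1)) :
    (consT s).lab i.succ = s.lab i := rfl
@[simp] lemma lab_consF_succ {n : ℕ} (x : Bool) (s : Gen n) (i : Fin (n + 1)) :
    (consF x s).lab i.succ = s.lab i := rfl

/-- splitting off the first crossing -/
def genEquiv (n : ℕ) : Gen (n + 1) ≃ Gen n ⊕ (Bool × Gen n) where
  toFun s := if s.res 0 then Sum.inl (tl s) else Sum.inr (s.lab 0, tl s)
  invFun := Sum.elim consT (fun p => consF p.1 p.2)
  left_inv := by
    intro s
    change Sum.elim consT (fun p => consF p.1 p.2)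
      (if s.res 0 = true then Sum.inl (tl s) else Sum.inr (s.lab 0, tl s)) = s
    by_cases h : s.res 0 = true
    · rw [if_pos h]
      exact consT_tl s h
    · rw [if_neg h]
      exact consF_tl s (by simpa using h)
  right_inv := by
    intro x
    rcases x with s | ⟨x, s⟩
    · simp [tl_consT]
    · simp [tl_consF]

lemma sum_gen_succ {n : ℕ} (g : Gen (n + 1) → ℝ) :
    ∑ s, g s = ∑ s, g (consT s) + ∑ x, ∑ s, g (consF x s) := by
  rw [← (genEquiv n).symm.sum_comp g, Fintype.sum_sum_type, Fintype.sum_prod_type]
  rfl

lemma consT_injective {n : ℕ} : Function.Injective (consT (n := n)) := by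
  intro s t h
  rw [← tl_consT s, h, tl_consT]

/-- increase the content of the first block -/
def bump : List Blk → List Blk
  | [] => []
  | b :: t => (b.1, b.2 + 1) :: t

/-- the list of blocks of a basis vector -/
def blk : {n : ℕ} → Gen n → List Blk
  | 0, s => [(s.lab 0, 0)]
  | _ + 1, s => if s.res 0 then bump (blk (tl s)) else (s.lab 0, 0) :: blk (tl s)

@[simp] lemma blk_consT {n : ℕ} (s : Gen n) : blk (consT s) = bump (blk s) := by
  rw [blk, tl_consT]
  simp

@[simp] lemma blk_consF {n : ℕ} (x : Bool) (s : Gen n) : blk (consF x s) = (x, 0) :: blk s := by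
  rw [blk, tl_consF]
  simp

lemma blk_ne_nil {n : ℕ} (s : Gen n) : blk s ≠ [] := by
  induction n with
  | zero => simp [blk]
  | succ n ih =>
    refine gen_cases (p := fun s => blk s ≠ []) ?_ ?_ s
    · intro s
      rw [blk_consT]
      cases h : blk s with
      | nil => exact absurd h (ih s)
      | cons b t => simp [bump]
    · intro x s
      simp

lemma blk_head {n : ℕ} (s : Gen n) : ∃ c t, blk s = (s.lab 0, c) :: t := by
  induction n with
  | zero => exact ⟨0, [], rfl⟩
  | succ n ih =>
    refine gen_cases (p := fun s => ∃ c t, blk s = (s.lab 0, c) :: t) ?_ ?_ s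
    · intro s
      obtain ⟨c, t, h⟩ := ih s
      exact ⟨c + 1, t, by rw [blk_consT, h]; rfl⟩
    · intro x s
      exact ⟨0, blk s, by rw [blk_consF]; rfl⟩

lemma size_blk {n : ℕ} (s : Gen n) : size (blk s) = n + 1 := by
  induction n with
  | zero => simp [blk, size]
  | succ n ih =>
    refine gen_cases (p := fun s => size (blk s) = n + 1 + 1) ?_ ?_ s
    · intro s
      have := ih s
      obtain ⟨c, t, h⟩ := blk_head s
      rw [blk_consT]
      rw [h] at this ⊢
      simp only [bump, size_cons] at this ⊢
      omega
    · intro x s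
      rw [blk_consF, size_cons, ih]
      simp only
      omega

lemma blk_injective (n : ℕ) : Function.Injective (blk (n := n)) := by
  induction n with
  | zero =>
    intro s t h
    simp only [blk, List.cons.injEq, Prod.mk.injEq, and_true] at h
    apply Subtype.ext
    apply Prod.ext
    · funext i; exact i.elim0
    · funext i
      have hi : i = 0 := Fin.ext (by have := i.2; simp)
      rw [hi]; exact h
  | succ n ih =>
    intro s
    refine gen_cases (p := fun s => ∀ t, blk s = blk t → s = t) ?_ ?_ s
    · intro s t
      refine gen_cases (p := fun t => blk (consT s) = blk t → consT s = t) ?_ ?_ t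
      · intro t h
        rw [blk_consT, blk_consT] at h
        congr 1
        apply ih
        obtain ⟨c, u, hs⟩ := blk_head s
        obtain ⟨c', u', ht⟩ := blk_head t
        rw [hs, ht] at h ⊢
        simpa [bump] using h
      · intro x t h
        exfalso
        rw [blk_consT, blk_consF] at h
        obtain ⟨c, u, hs⟩ := blk_head s
        rw [hs] at h
        simp [bump] at h
    · intro x s t
      refine gen_cases (p := fun t => blk (consF x s) = blk t → consF x s = t) ?_ ?_ t
      · intro t h
        exfalso
        rw [blk_consT, blk_consF] at h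
        obtain ⟨c, u, hs⟩ := blk_head t
        rw [hs] at h
        simp [bump] at h
      · intro y t h
        rw [blk_consF, blk_consF] at h
        simp only [List.cons.injEq, Prod.mk.injEq, and_true] at h
        rw [h.1, ih h.2]

lemma blk_surj (n : ℕ) (l : List Blk) (h : size l = n + 1) : ∃ s : Gen n, blk s = l := by
  induction n generalizing l with
  | zero =>
    cases l with
    | nil => simp [size] at h
    | cons b t =>
      rw [size_cons] at h
      obtain ⟨x, c⟩ := b
      have hc : c = 0 := by simp only at h; omega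
      have ht : t = [] := by
        cases t with
        | nil => rfl
        | cons b' t => rw [size_cons] at h; simp only at h; omega
      subst hc; subst ht
      exact ⟨⟨(fun _ => false, fun _ => x), fun i => i.elim0⟩, rfl⟩
  | succ n ih =>
    cases l with
    | nil => simp [size] at h
    | cons b t =>
      rw [size_cons] at h
      obtain ⟨x, c⟩ := b
      simp only at h
      cases c with
      | zero =>
        obtain ⟨s, hs⟩ := ih t (by omega)
        exact ⟨consF x s, by rw [blk_consF, hs]⟩
      | succ c =>
        obtain ⟨s, hs⟩ := ih ((x, c) :: t) (by rw [size_cons]; simp only; omega)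
        exact ⟨consT s, by rw [blk_consT, hs]; rfl⟩

/-! ### The relation `SameCircle` -/

lemma sameCircle_succ {n : ℕ} (b : Bool) (r : Fin n → Bool) (x y : Fin (n + 1)) :
    SameCircle (Fin.cons b r : Fin (n + 1) → Bool) x.succ y.succ ↔ SameCircle r x y := by
  unfold SameCircle
  constructor
  · intro h i hi
    have := h i.succ (by
      simp only [← Fin.succ_castSucc, Fin.succ_le_succ_iff, Fin.succ_lt_succ_iff]
      exact hi)
    simpa using this
  · intro h i
    refine Fin.cases ?_ (fun j => ?_) i
    · intro hi
      exfalso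
      rcases hi with ⟨h1, -⟩ | ⟨h1, -⟩
      · simp only [Fin.castSucc_zero, Fin.le_zero_iff] at h1
        exact Fin.succ_ne_zero _ h1
      · simp only [Fin.castSucc_zero, Fin.le_zero_iff] at h1
        exact Fin.succ_ne_zero _ h1
    · intro hi
      simp only [← Fin.succ_castSucc, Fin.succ_le_succ_iff, Fin.succ_lt_succ_iff] at hi
      have := h j hi
      simpa using this

lemma sameCircle_zero_true {n : ℕ} (r : Fin n → Bool) (y : Fin (n + 1)) :
    SameCircle (Fin.cons true r : Fin (n + 1) → Bool) 0 y.succ ↔ SameCircle r 0 y := by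
  unfold SameCircle
  constructor
  · intro h i hi
    have := h i.succ (by
      simp only [← Fin.succ_castSucc, Fin.succ_le_succ_iff, Fin.succ_lt_succ_iff]
      rcases hi with ⟨h1, h2⟩ | ⟨h1, h2⟩
      · left; exact ⟨Fin.zero_le _, h2⟩
      · exfalso; exact absurd h2 (Fin.not_lt_zero _))
    simpa using this
  · intro h i
    refine Fin.cases ?_ (fun j => ?_) i
    · intro _; simp
    · intro hi
      simp only [← Fin.succ_castSucc, Fin.succ_le_succ_iff, Fin.succ_lt_succ_iff] at hi
      have := h j (by
        rcases hi with ⟨h1, h2⟩ | ⟨h1, h2⟩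
        · left; exact ⟨Fin.zero_le _, h2⟩
        · exfalso; exact absurd h2 (Fin.not_lt_zero _))
      simpa using this

lemma sameCircle_zero_false {n : ℕ} (r : Fin n → Bool) (y : Fin (n + 1)) :
    ¬ SameCircle (Fin.cons false r : Fin (n + 1) → Bool) 0 y.succ := by
  unfold SameCircle
  intro h
  have := h 0 (Or.inl ⟨by simp, by simp⟩)
  simp at this

lemma sameCircle_comm {n : ℕ} (r : Fin n → Bool) (x y : Fin (n + 1)) :
    SameCircle r x y ↔ SameCircle r y x := by
  unfold SameCircle
  constructor
  · intro h i hi; exact h i hi.symm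
  · intro h i hi; exact h i hi.symm

lemma sameCircle_refl {n : ℕ} (r : Fin n → Bool) (x : Fin (n + 1)) : SameCircle r x x := by
  intro i hi
  exfalso
  rcases hi with ⟨h1, h2⟩ | ⟨h1, h2⟩
  · exact absurd h2 (not_lt.mpr h1)
  · exact absurd h2 (not_lt.mpr h1)

end Pool.Agent.Helper55.Kh
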