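import Pool.Agent.Helper55.Kh.Bridge

/-!
# The differential on lists of blocks
-/

namespace Pool.Agent.Helper55.Kh

/-- the condition for an edge -/
def EdgeCond {n : ℕ} (s t : Gen n) (i : Fin n) : Prop :=
  s.res i = false ∧ t.res = Function.update s.res i true ∧
    ∀ x : Fin (n + 1), ¬ SameCircle t.res x i.castSucc → t.lab x = s.lab x

open Classical in
/-- a term of the differential -/
noncomputable def dterm {n : ℕ} (s t : Gen n) (i : Fin n) : ℝ :=
  if EdgeCond s t i
    then (-1) ^ (Finset.univ.filter (fun j : Fin n => j < i ∧ s.res j = true)).card *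
      mulCoeff (s.lab i.castSucc) (s.lab i.succ) (t.lab i.castSucc)
    else 0

lemma diff_eq {n : ℕ} (s t : Gen n) : diff n t s = ∑ i, dterm s t i := by
  unfold diff dterm EdgeCond
  apply Finset.sum_congr rfl
  intro i _
  congr

lemma lab_sameCircle {n : ℕ} (s : Gen n) (x y : Fin (n + 1)) (h : SameCircle s.res x y) :
    s.lab x = s.lab y := by
  induction n with
  | zero =>
    have : x = y := Fin.ext (by have := x.2; have := y.2; omega)
    rw [this]
  | succ n ih =>
    have key : ∀ (s : Gen (n + 1)) (z : Fin (n + 1)), SameCircle s.res 0 z.succ → s.lab 0 = s.lab z.succ := by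
      intro s
      refine gen_cases (p := fun s => ∀ z : Fin (n + 1), SameCircle s.res 0 z.succ → s.lab 0 = s.lab z.succ)
        ?_ ?_ s
      · intro s z h
        have := (sameCircle_zero_true s.res z).mp h
        simpa using ih s _ _ this
      · intro x s z h
        exact absurd h (sameCircle_zero_false s.res z)
    have key2 : ∀ (s : Gen (n + 1)) (z w : Fin (n + 1)), SameCircle s.res z.succ w.succ →
        s.lab z.succ = s.lab w.succ := by
      intro s
      refine gen_cases (p := fun s => ∀ z w : Fin (n + 1), SameCircle s.res z.succ w.succ →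
        s.lab z.succ = s.lab w.succ) ?_ ?_ s
      · intro s z w h
        have := (sameCircle_succ true s.res z w).mp h
        simpa using ih s _ _ this
      · intro x s z w h
        have := (sameCircle_succ false s.res z w).mp h
        simpa using ih s _ _ this
    revert h
    refine Fin.cases ?_ (fun x => ?_) x
    · refine Fin.cases ?_ (fun y => ?_) y
      · intro _; rfl
      · exact key s y
    · refine Fin.cases ?_ (fun y => ?_) y
      · intro h
        exact (key s x ((sameCircle_comm _ _ _).mp h)).symm
      · exact key2 s x y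

/-- change the label of the first circle -/
def relab (y : Bool) : {n : ℕ} → Gen n → Gen n
  | 0, s => ⟨(s.res, fun _ => y), fun i => i.elim0⟩
  | _ + 1, s => if s.res 0 then consT (relab y (tl s)) else consF y (tl s)

lemma relab_consT {n : ℕ} (y : Bool) (s : Gen n) : relab y (consT s) = consT (relab y s) := by
  rw [relab, tl_consT]; simp

lemma relab_consF {n : ℕ} (y x : Bool) (s : Gen n) : relab y (consF x s) = consF y s := by
  rw [relab, tl_consF]; simp

lemma relab_res {n : ℕ} (y : Bool) (s : Gen n) : (relab y s).res = s.res := by
  induction n with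
  | zero => rfl
  | succ n ih =>
    refine gen_cases (p := fun s => (relab y s).res = s.res) ?_ ?_ s
    · intro s
      rw [relab_consT]
      have := ih s
      funext j
      refine Fin.cases ?_ (fun j => ?_) j
      · rfl
      · exact congrFun this j
    · intro x s
      rw [relab_consF]
      rfl

lemma relab_lab_zero {n : ℕ} (y : Bool) (s : Gen n) : (relab y s).lab 0 = y := by
  induction n with
  | zero => rfl
  | succ n ih =>
    refine gen_cases (p := fun s => (relab y s).lab 0 = y) ?_ ?_ s
    · intro s
      rw [relab_consT, lab_consT_zero, ih]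
    · intro x s
      rw [relab_consF, lab_consF_zero]

lemma relab_lab {n : ℕ} (y : Bool) (s : Gen n) (z : Fin (n + 1)) (h : ¬ SameCircle s.res z 0) :
    (relab y s).lab z = s.lab z := by
  induction n with
  | zero =>
    exfalso
    apply h
    have : z = 0 := Fin.ext (by have := z.2; simp)
    rw [this]
    exact sameCircle_refl _ _
  | succ n ih =>
    revert h
    refine gen_cases (p := fun s => ¬ SameCircle s.res z 0 → (relab y s).lab z = s.lab z) ?_ ?_ s
    · intro s
      refine Fin.cases ?_ (fun z => ?_) z
      · intro h; exact absurd (sameCircle_refl _ _) h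
      · intro h
        rw [relab_consT, lab_consT_succ, lab_consT_succ]
        apply ih
        rw [sameCircle_comm]
        rw [sameCircle_comm] at h
        intro h'
        exact h ((sameCircle_zero_true s.res z).mpr h')
    · intro x s
      refine Fin.cases ?_ (fun z => ?_) z
      · intro h; exact absurd (sameCircle_refl _ _) h
      · intro _
        rw [relab_consF, lab_consF_succ, lab_consF_succ]

lemma relab_unique {n : ℕ} (s t : Gen n) (y : Bool) (h1 : t.res = s.res)
    (h2 : ∀ z, ¬ SameCircle t.res z 0 → t.lab z = s.lab z) (h3 : t.lab 0 = y) : t = relab y s := by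
  apply Subtype.ext
  apply Prod.ext
  · change t.res = (relab y s).res
    rw [h1, relab_res]
  · change t.lab = (relab y s).lab
    funext z
    by_cases h : SameCircle t.res z 0
    · rw [lab_sameCircle t z 0 h, h3]
      have h' : SameCircle (relab y s).res z 0 := by rw [relab_res, ← h1]; exact h
      rw [lab_sameCircle (relab y s) z 0 h', relab_lab_zero]
    · rw [h2 z h, relab_lab]
      rw [← h1]; exact h

lemma blk_relab {n : ℕ} (y : Bool) (s : Gen n) (c : ℕ) (t : List Blk) (h : blk s = (s.lab 0, c) :: t) :
    blk (relab y s) = (y, c) :: t := by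
  induction n generalizing c t with
  | zero =>
    simp only [blk, List.cons.injEq, Prod.mk.injEq, true_and] at h ⊢
    exact ⟨⟨rfl, h.1⟩, h.2⟩
  | succ n ih =>
    revert h
    refine gen_cases (p := fun s => blk s = (s.lab 0, c) :: t → blk (relab y s) = (y, c) :: t) ?_ ?_ s
    · intro s h
      obtain ⟨c', t', h'⟩ := blk_head s
      rw [blk_consT, h', lab_consT_zero] at h
      simp only [bump, List.cons.injEq, Prod.mk.injEq, true_and] at h
      rw [relab_consT, blk_consT, ih s c' t' h']
      simp [bump, h.1, h.2]
    · intro x s h
      rw [blk_consF, lab_consF_zero] at h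
      simp only [List.cons.injEq, Prod.mk.injEq, true_and] at h
      rw [relab_consF, blk_consF]
      simp [h.1, h.2]

lemma edge_succ_res {n : ℕ} (b b' : Bool) (r r' : Fin n → Bool) (i : Fin n) :
    (Fin.cons b' r' : Fin (n + 1) → Bool) = Function.update (Fin.cons b r : Fin (n + 1) → Bool) i.succ true ↔
      b' = b ∧ r' = Function.update r i true := by
  constructor
  · intro h
    refine ⟨?_, ?_⟩
    · have := congrFun h 0
      rw [Function.update_of_ne (Fin.succ_ne_zero i).symm] at this
      simpa using this
    · funext j
      have := congrFun h j.succ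
      simpa [Function.update_apply] using this
  · rintro ⟨rfl, rfl⟩
    funext j
    refine Fin.cases ?_ (fun j => ?_) j
    · rw [Function.update_of_ne (Fin.succ_ne_zero i).symm]; simp
    · simp [Function.update_apply]

lemma edge_TT {n : ℕ} (s t : Gen n) (i : Fin n) : EdgeCond (consT s) (consT t) i.succ ↔ EdgeCond s t i := by
  unfold EdgeCond
  have h1 : (consT t).res = Function.update (consT s).res i.succ true ↔
      t.res = Function.update s.res i true :=
    (edge_succ_res true true s.res t.res i).trans (by simp)
  rw [h1]
  simp only [res_consT_succ]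
  apply and_congr_right
  intro h2
  apply and_congr_right
  intro h3
  constructor
  · intro h z hz
    have := h z.succ (by
      intro h'
      exact hz ((sameCircle_succ true t.res z i.castSucc).mp h'))
    simpa using this
  · intro h z
    refine Fin.cases ?_ (fun z => ?_) z
    · intro hz
      simp only [lab_consT_zero]
      apply h
      intro h'
      exact hz ((sameCircle_zero_true t.res i.castSucc).mpr h')
    · intro hz
      simp only [lab_consT_succ]
      apply h
      intro h'
      exact hz ((sameCircle_succ true t.res z i.castSucc).mpr h')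

lemma edge_FF {n : ℕ} (x y : Bool) (s t : Gen n) (i : Fin n) :
    EdgeCond (consF x s) (consF y t) i.succ ↔ (y = x ∧ EdgeCond s t i) := by
  unfold EdgeCond
  have h1 : (consF y t).res = Function.update (consF x s).res i.succ true ↔
      t.res = Function.update s.res i true :=
    (edge_succ_res false false s.res t.res i).trans (by simp)
  rw [h1]
  simp only [res_consF_succ]
  constructor
  · rintro ⟨h2, h3, h⟩
    refine ⟨?_, h2, h3, ?_⟩
    · have := h 0 (sameCircle_zero_false t.res i.castSucc)
      simpa using this
    · intro z hz
      have := h z.succ (by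
        intro h'
        exact hz ((sameCircle_succ false t.res z i.castSucc).mp h'))
      simpa using this
  · rintro ⟨rfl, h2, h3, h⟩
    refine ⟨h2, h3, ?_⟩
    intro z
    refine Fin.cases ?_ (fun z => ?_) z
    · intro _; rfl
    · intro hz
      simp only [lab_consF_succ]
      apply h
      intro h'
      exact hz ((sameCircle_succ false t.res z i.castSucc).mpr h')

lemma edge_FT {n : ℕ} (y : Bool) (s t : Gen n) (i : Fin n) :
    ¬ EdgeCond (consT s) (consF y t) i.succ := by
  rintro ⟨-, h, -⟩
  have := (edge_succ_res true false s.res t.res i).mp h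
  simp at this

lemma edge_TF {n : ℕ} (x : Bool) (s t : Gen n) (i : Fin n) :
    ¬ EdgeCond (consF x s) (consT t) i.succ := by
  rintro ⟨-, h, -⟩
  have := (edge_succ_res false true s.res t.res i).mp h
  simp at this

lemma edge_T_zero {n : ℕ} (s : Gen n) (t : Gen (n + 1)) : ¬ EdgeCond (consT s) t 0 := by
  rintro ⟨h, -, -⟩
  simp at h

lemma edge_FF_zero {n : ℕ} (x y : Bool) (s t : Gen n) : ¬ EdgeCond (consF x s) (consF y t) 0 := by
  rintro ⟨-, h, -⟩
  have := congrFun h 0
  simp at this

lemma edge_TF_zero {n : ℕ} (x : Bool) (s t : Gen n) :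
    EdgeCond (consF x s) (consT t) 0 ↔ (t.res = s.res ∧ ∀ z, ¬ SameCircle t.res z 0 → t.lab z = s.lab z) := by
  unfold EdgeCond
  constructor
  · rintro ⟨-, h1, h2⟩
    refine ⟨?_, ?_⟩
    · funext j
      have := congrFun h1 j.succ
      rw [Function.update_of_ne (Fin.succ_ne_zero j)] at this
      simpa using this
    · intro z hz
      have := h2 z.succ (by
        intro h'
        apply hz
        rw [sameCircle_comm] at h' ⊢
        exact (sameCircle_zero_true t.res z).mp h')
      simpa using this
  · rintro ⟨h1, h2⟩
    refine ⟨rfl, ?_, ?_⟩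
    · funext j
      refine Fin.cases ?_ (fun j => ?_) j
      · simp
      · rw [Function.update_of_ne (Fin.succ_ne_zero j)]
        simp only [res_consT_succ, res_consF_succ]
        rw [h1]
    · intro z
      refine Fin.cases ?_ (fun z => ?_) z
      · intro h'
        exact absurd (sameCircle_refl _ _) h'
      · intro h'
        simp only [lab_consT_succ, lab_consF_succ]
        apply h2
        intro h3
        apply h'
        rw [sameCircle_comm] at h3
        change SameCircle _ _ 0
        rw [sameCircle_comm]
        exact (sameCircle_zero_true t.res z).mpr h3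

lemma sign_T {n : ℕ} (s : Gen n) (i : Fin n) :
    (Finset.univ.filter (fun j : Fin (n + 1) => j < i.succ ∧ (consT s).res j = true)).card =
      (Finset.univ.filter (fun j : Fin n => j < i ∧ s.res j = true)).card + 1 := by
  rw [Fin.card_filter_univ_succ, if_pos ⟨Fin.succ_pos i, rfl⟩]
  congr 2
  ext j
  simp

lemma sign_F {n : ℕ} (x : Bool) (s : Gen n) (i : Fin n) :
    (Finset.univ.filter (fun j : Fin (n + 1) => j < i.succ ∧ (consF x s).res j = true)).card =
      (Finset.univ.filter (fun j : Fin n => j < i ∧ s.res j = true)).card := by
  rw [Fin.card_filter_univ_succ, if_neg (by simp)]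
  congr 1
  ext j
  simp

lemma diff_TT {n : ℕ} (s t : Gen n) : diff (n + 1) (consT t) (consT s) = - diff n t s := by
  rw [diff_eq, diff_eq, Fin.sum_univ_succ]
  have h0 : dterm (consT s) (consT t) 0 = 0 := by
    unfold dterm
    rw [if_neg (edge_T_zero s _)]
  rw [h0, zero_add, ← Finset.sum_neg_distrib]
  apply Finset.sum_congr rfl
  intro i _
  unfold dterm
  by_cases h : EdgeCond s t i
  · rw [if_pos h, if_pos ((edge_TT s t i).mpr h), sign_T]
    have e1 : (consT s).lab i.succ.castSucc = s.lab i.castSucc := by
      rw [← Fin.succ_castSucc, lab_consT_succ]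
    have e2 : (consT t).lab i.succ.castSucc = t.lab i.castSucc := by
      rw [← Fin.succ_castSucc, lab_consT_succ]
    rw [e1, e2, lab_consT_succ, pow_succ]
    ring
  · rw [if_neg h, if_neg (fun h' => h ((edge_TT s t i).mp h'))]
    simp

lemma diff_FT {n : ℕ} (y : Bool) (s t : Gen n) : diff (n + 1) (consF y t) (consT s) = 0 := by
  rw [diff_eq]
  apply Finset.sum_eq_zero
  intro i _
  unfold dterm
  rw [if_neg]
  refine Fin.cases ?_ (fun j => ?_) i
  · exact edge_T_zero s _
  · exact edge_FT y s t j

lemma diff_FF {n : ℕ} (x y : Bool) (s t : Gen n) :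
    diff (n + 1) (consF y t) (consF x s) = if y = x then diff n t s else 0 := by
  rw [diff_eq, diff_eq, Fin.sum_univ_succ]
  have h0 : dterm (consF x s) (consF y t) 0 = 0 := by
    unfold dterm
    rw [if_neg (edge_FF_zero x y s t)]
  rw [h0, zero_add]
  by_cases hxy : y = x
  · rw [if_pos hxy]
    apply Finset.sum_congr rfl
    intro i _
    unfold dterm
    by_cases h : EdgeCond s t i
    · rw [if_pos h, if_pos ((edge_FF x y s t i).mpr ⟨hxy, h⟩), sign_F]
      have e1 : (consF x s).lab i.succ.castSucc = s.lab i.castSucc := by
        rw [← Fin.succ_castSucc, lab_consF_succ]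
      have e2 : (consF y t).lab i.succ.castSucc = t.lab i.castSucc := by
        rw [← Fin.succ_castSucc, lab_consF_succ]
      rw [e1, e2, lab_consF_succ]
    · rw [if_neg h, if_neg (fun h' => h ((edge_FF x y s t i).mp h').2)]
  · rw [if_neg hxy]
    apply Finset.sum_eq_zero
    intro i _
    unfold dterm
    rw [if_neg (fun h' => hxy ((edge_FF x y s t i).mp h').1)]

open Classical in
lemma diff_TF {n : ℕ} (x : Bool) (s t : Gen n) :
    diff (n + 1) (consT t) (consF x s) =
      if (t.res = s.res ∧ ∀ z, ¬ SameCircle t.res z 0 → t.lab z = s.lab z)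
      then mulCoeff x (s.lab 0) (t.lab 0) else 0 := by
  rw [diff_eq, Fin.sum_univ_succ]
  have h0 : ∑ i : Fin n, dterm (consF x s) (consT t) i.succ = 0 := by
    apply Finset.sum_eq_zero
    intro i _
    unfold dterm
    rw [if_neg (edge_TF x s t i)]
  rw [h0, add_zero]
  unfold dterm
  by_cases h : (t.res = s.res ∧ ∀ z, ¬ SameCircle t.res z 0 → t.lab z = s.lab z)
  · rw [if_pos h, if_pos ((edge_TF_zero x s t).mpr h)]
    have h1 : (Finset.univ.filter (fun j : Fin (n + 1) => j < 0 ∧ (consF x s).res j = true)).card = 0 := by
      rw [Finset.card_eq_zero]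
      apply Finset.filter_eq_empty_iff.mpr
      intro j _ hj
      exact absurd hj.1 (Fin.not_lt_zero _)
    rw [h1, pow_zero, one_mul]
    have e1 : (consF x s).lab (Fin.castSucc 0) = x := rfl
    have e2 : (consF x s).lab (Fin.succ 0) = s.lab 0 := rfl
    have e3 : (consT t).lab (Fin.castSucc 0) = t.lab 0 := rfl
    rw [e1, e2, e3]
  · rw [if_neg h, if_neg (fun h' => h ((edge_TF_zero x s t).mp h'))]

lemma V_bump (l : List Blk) (F : List Blk → ℝ) : V (bump l) F = - V l (fun u => F (bump u)) := by
  cases l with
  | nil => simp [bump, V]
  | cons b t =>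
    cases t with
    | nil => simp [bump, V]
    | cons b' t =>
      simp only [bump, V]
      rw [sg_add, sg_one]
      have h1 : mrg (b.1, b.2 + 1) F (b' :: t) = mrg b (fun u => F (bump u)) (b' :: t) := by
        simp only [mrg, bump]
        have e : b.2 + 1 + b'.2 + 1 = b.2 + b'.2 + 1 + 1 := by ring
        rw [e]
      rw [h1]
      simp only [bump]
      ring

lemma sum_TF {n : ℕ} (x : Bool) (s : Gen n) (F : List Blk → ℝ) :
    ∑ t, diff (n + 1) (consT t) (consF x s) * F (blk (consT t)) = mrg (x, 0) F (blk s) := by
  classical
  obtain ⟨c, u, hs⟩ := blk_head s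
  rw [hs]
  simp only [mrg]
  by_cases hx : (x && s.lab 0) = true
  · rw [if_pos hx]
    apply Finset.sum_eq_zero
    intro t _
    rw [diff_TF]
    simp only [Bool.and_eq_true] at hx
    rw [hx.1, hx.2]
    split_ifs <;> simp [mulCoeff]
  · rw [if_neg hx, Finset.sum_eq_single (relab (x || s.lab 0) s)]
    · rw [diff_TF, if_pos, relab_lab_zero, blk_consT, blk_relab _ s c u hs]
      · have : mulCoeff x (s.lab 0) (x || s.lab 0) = 1 := by
          revert hx
          cases x <;> cases s.lab 0 <;> simp [mulCoeff]
        rw [this, one_mul]
        simp [bump]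
      · refine ⟨relab_res _ _, ?_⟩
        intro z hz
        apply relab_lab
        rw [relab_res] at hz
        exact hz
    · intro t _ ht
      rw [diff_TF]
      by_cases h : (t.res = s.res ∧ ∀ z, ¬ SameCircle t.res z 0 → t.lab z = s.lab z)
      · rw [if_pos h]
        have h3 : t.lab 0 ≠ (x || s.lab 0) := by
          intro h4
          exact ht (relab_unique s t _ h.1 h.2 h4)
        have : mulCoeff x (s.lab 0) (t.lab 0) = 0 := by
          revert hx h3
          cases x <;> cases s.lab 0 <;> cases t.lab 0 <;> simp [mulCoeff]
        rw [this, zero_mul]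
      · rw [if_neg h, zero_mul]
    · intro h; exact absurd (Finset.mem_univ _) h

/-- The transpose of the differential is the operator `V`. -/
theorem diff_V {n : ℕ} (s : Gen n) (F : List Blk → ℝ) :
    ∑ t, diff n t s * F (blk t) = V (blk s) F := by
  induction n generalizing F with
  | zero =>
    have : ∀ t : Gen 0, diff 0 t s = 0 := by intro t; rw [diff_eq]; simp
    simp only [this, zero_mul, Finset.sum_const_zero]
    simp [blk, V]
  | succ n ih =>
    refine gen_cases (p := fun s => ∑ t, diff (n + 1) t s * F (blk t) = V (blk s) F) ?_ ?_ s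
    · intro s
      rw [sum_gen_succ]
      have h1 : ∑ x, ∑ t : Gen n, diff (n + 1) (consF x t) (consT s) * F (blk (consF x t)) = 0 := by
        apply Finset.sum_eq_zero
        intro x _
        apply Finset.sum_eq_zero
        intro t _
        rw [diff_FT, zero_mul]
      rw [h1, add_zero, blk_consT, V_bump, ← ih s (fun u => F (bump u)), ← Finset.sum_neg_distrib]
      apply Finset.sum_congr rfl
      intro t _
      rw [diff_TT, blk_consT]
      ring
    · intro x s
      rw [sum_gen_succ, sum_TF]
      have h1 : ∑ y, ∑ t : Gen n, diff (n + 1) (consF y t) (consF x s) * F (blk (consF y t)) =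
          ∑ t : Gen n, diff n t s * F ((x, 0) :: blk t) := by
        rw [Finset.sum_eq_single x]
        · apply Finset.sum_congr rfl
          intro t _
          rw [diff_FF, if_pos rfl, blk_consF]
        · intro y _ hy
          apply Finset.sum_eq_zero
          intro t _
          rw [diff_FF, if_neg hy, zero_mul]
        · intro h; exact absurd (Finset.mem_univ _) h
      rw [h1, ih s (fun u => F ((x, 0) :: u)), blk_consF]
      obtain ⟨c, u, hs⟩ := blk_head s
      rw [hs]
      simp only [V, sg_zero, one_mul]

end Pool.Agent.Helper55.Kh
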