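import Pool.Agent.Helper55.Kh.Bridge2

/-!
# The Laplacian on lists of blocks
-/

namespace Pool.Agent.Helper55.Kh

/-- delta function -/
def dl (l : List Blk) : List Blk → ℝ := fun u => if u = l then 1 else 0

lemma dl_cons (b x : Blk) (l : List Blk) :
    (fun u => dl (x :: l) (b :: u)) = fun u => (if b = x then 1 else 0) * dl l u := by
  funext u
  unfold dl
  by_cases h1 : b = x <;> by_cases h2 : u = l <;> simp [h1, h2]

lemma dl_cons_nil (b : Blk) : (fun u => dl [] (b :: u)) = fun _ => (0 : ℝ) := by
  funext u; simp [dl]

/-- The two operators are adjoint to each other. -/
theorem kernel (s t : List Blk) : V t (dl s) = U s (dl t) := by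
  induction t generalizing s with
  | nil =>
    simp only [V]
    cases s with
    | nil => simp [U]
    | cons x s =>
      simp only [U, dl_cons_nil, U_zero, mul_zero, add_zero]
      symm
      rw [show (fun x y : Blk => sg x.2 * dl [] (x :: y :: s)) = fun x y => 0 * 0 by
        funext x y; simp [dl]]
      rw [spl_mul]; simp
  | cons b t ih =>
    cases t with
    | nil =>
      simp only [V]
      cases s with
      | nil => simp [U]
      | cons x s =>
        simp only [U]
        have h1 : (fun y z : Blk => sg y.2 * dl [b] (y :: z :: s)) = fun x y => 0 * 0 := by
          funext y z; simp [dl]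
        rw [h1, spl_mul, dl_cons, U_mul, ← ih s]
        simp [V]
    | cons b' t =>
      cases s with
      | nil =>
        simp only [V, U]
        rw [dl_cons_nil, V_zero]
        have : mrg b (dl []) (b' :: t) = 0 := by
          simp [mrg, dl]
        rw [this]; ring
      | cons x s =>
        rw [V, U, dl_cons, dl_cons, V_mul, U_mul, ih s, mul_add]
        congr 1
        · -- the local part
          obtain ⟨lb, a⟩ := b
          obtain ⟨lb', c⟩ := b'
          obtain ⟨lx, e⟩ := x
          simp only [mrg, spl, dl]
          by_cases hts : t = s
          · subst hts
            by_cases he : a + c + 1 = e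
            · subst he
              have hs1 : ∀ (la lc : Bool), ∑ i ∈ Finset.range (a + c + 1),
                  sg i * (if (la, i) :: (lc, a + c + 1 - 1 - i) :: t = (lb, a) :: (lb', c) :: t then (1 : ℝ) else 0) =
                  if la = lb ∧ lc = lb' then sg a else 0 := by
                intro la lc
                rw [Finset.sum_eq_single a]
                · have e1 : a + c + 1 - 1 - a = c := by omega
                  rw [e1]
                  by_cases h1 : la = lb <;> by_cases h2 : lc = lb' <;> simp [h1, h2]
                · intro i _ hi
                  rw [if_neg]
                  · simp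
                  · intro h
                    simp only [List.cons.injEq, Prod.mk.injEq] at h
                    exact hi h.1.2
                · intro h
                  exfalso
                  apply h
                  rw [Finset.mem_range]
                  omega
              simp only [Finset.sum_add_distrib]
              rw [hs1, hs1, hs1]
              cases lb <;> cases lb' <;> cases lx <;> simp
            · have hs1 : ∀ (la lc : Bool), ∑ i ∈ Finset.range e,
                  sg i * (if (la, i) :: (lc, e - 1 - i) :: t = (lb, a) :: (lb', c) :: t then (1 : ℝ) else 0) = 0 := by
                intro la lc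
                apply Finset.sum_eq_zero
                intro i hi
                rw [Finset.mem_range] at hi
                rw [if_neg]
                · simp
                · intro h
                  simp only [List.cons.injEq, Prod.mk.injEq] at h
                  apply he
                  omega
              simp only [Finset.sum_add_distrib]
              rw [hs1, hs1, hs1]
              have : ∀ l l' : Bool, ¬ ((l, a + c + 1) :: t = (l', e) :: t) := by
                intro l l' h
                simp only [List.cons.injEq, Prod.mk.injEq] at h
                exact he h.1.2
              rw [if_neg (this _ _)]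
              simp
          · have hs1 : ∀ (la lc : Bool), ∑ i ∈ Finset.range e,
                  sg i * (if (la, i) :: (lc, e - 1 - i) :: s = (lb, a) :: (lb', c) :: t then (1 : ℝ) else 0) = 0 := by
                intro la lc
                apply Finset.sum_eq_zero
                intro i hi
                rw [if_neg]
                · simp
                · intro h
                  simp only [List.cons.injEq, Prod.mk.injEq] at h
                  exact hts h.2.2.symm
            simp only [Finset.sum_add_distrib]
            rw [hs1, hs1, hs1]
            rw [if_neg (fun h => hts (List.cons.inj h).2)]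
            simp
        · by_cases h : b = x
          · subst h
            simp
          · rw [if_neg h, if_neg (fun h' => h h'.symm)]
            simp

lemma diff_entry {n : ℕ} (s t : Gen n) : diff n s t = V (blk t) (dl (blk s)) := by
  rw [← diff_V]
  rw [Finset.sum_eq_single s]
  · simp [dl]
  · intro u _ hu
    have : blk u ≠ blk s := fun h => hu (blk_injective n h)
    simp [dl, this]
  · intro h; exact absurd (Finset.mem_univ _) h

/-- The differential is the operator `U`. -/
theorem diff_U {n : ℕ} (s : Gen n) (F : List Blk → ℝ) :
    ∑ t, diff n s t * F (blk t) = U (blk s) F := by
  have h1 : ∀ t : Gen n, diff n s t * F (blk t) = U (blk s) (fun u => F (blk t) * dl (blk t) u) := by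
    intro t
    rw [diff_entry, kernel, U_mul]
    ring
  rw [Finset.sum_congr rfl (fun t _ => h1 t), ← U_sum]
  apply U_congr
  intro u hu
  rw [size_blk] at hu
  obtain ⟨v, hv⟩ := blk_surj n u hu
  rw [Finset.sum_eq_single v]
  · rw [hv]; simp [dl]
  · intro w _ hw
    have : u ≠ blk w := fun h => hw (blk_injective n (by rw [← h, hv]))
    simp [dl, this]
  · intro h; exact absurd (Finset.mem_univ _) h

/-- The Laplacian is the operator `LL`. -/
theorem lap_LL {n : ℕ} (s : Gen n) (F : List Blk → ℝ) :
    ∑ t, lap n s t * F (blk t) = LL (blk s) F := by
  unfold lap LL
  simp only [Matrix.add_apply, add_mul, Finset.sum_add_distrib]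
  congr 1
  · have : ∀ t, (diff n * (diff n).transpose) s t * F (blk t) =
        ∑ u, diff n s u * (diff n t u * F (blk t)) := by
      intro t
      rw [Matrix.mul_apply, Finset.sum_mul]
      apply Finset.sum_congr rfl
      intro u _
      rw [Matrix.transpose_apply]
      ring
    rw [Finset.sum_congr rfl (fun t _ => this t), Finset.sum_comm, ← diff_U]
    apply Finset.sum_congr rfl
    intro u _
    rw [← Finset.mul_sum, diff_V]
  · have : ∀ t, ((diff n).transpose * diff n) s t * F (blk t) =
        ∑ u, diff n u s * (diff n u t * F (blk t)) := by
      intro t
      rw [Matrix.mul_apply, Finset.sum_mul]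
      apply Finset.sum_congr rfl
      intro u _
      rw [Matrix.transpose_apply]
      ring
    rw [Finset.sum_congr rfl (fun t _ => this t), Finset.sum_comm, ← diff_V]
    apply Finset.sum_congr rfl
    intro u _
    rw [← Finset.mul_sum, diff_U]

/-! ### `d ∘ d = 0` -/

lemma V_mrg (b b' : Blk) (t : List Blk) (f : List Blk → ℝ) (b'' : Blk) :
    V (b' :: b'' :: t) (fun u => mrg b f u) =
      sg b'.2 * (mrg b' (fun u => mrg b f u) (b'' :: t)
        + (if b.1 && b'.1 then 0 else V (b'' :: t) (fun u => f ((b.1 || b'.1, b.2 + b'.2 + 1) :: u)))) := by
  rw [V]
  congr 2
  simp only [mrg]
  by_cases h : (b.1 && b'.1) = true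
  · simp only [h, if_true]
    exact V_zero _
  · simp only [h]
    simp

lemma VV (s : List Blk) (f : List Blk → ℝ) : V s (fun u => V u f) = 0 := by
  induction s generalizing f with
  | nil => simp [V]
  | cons b t ih =>
    cases t with
    | nil => simp [V]
    | cons b' t =>
      cases t with
      | nil =>
        simp only [V, mrg]
        split_ifs <;> simp
      | cons b'' t =>
        rw [V]
        have h1 : V (b' :: b'' :: t) (fun u => V (b :: u) f) =
            V (b' :: b'' :: t) (fun u => sg b.2 * (mrg b f u + V u (fun v => f (b :: v)))) := by
          have key : ∀ (l : List Blk) (F G : List Blk → ℝ), (∀ b t, F (b :: t) = G (b :: t)) →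
              V l F = V l G := by
            intro l
            induction l with
            | nil => intro F G _; simp [V]
            | cons b t ih2 =>
              intro F G H
              cases t with
              | nil => simp [V]
              | cons b' t =>
                simp only [V, mrg]
                rw [ih2 (fun u => F (b :: u)) (fun u => G (b :: u)) (fun _ _ => H _ _), H]
          apply key
          intro c u
          rw [V]
        rw [h1, V_mul, V_add, ih (fun v => f (b :: v)), V_mrg]
        simp only [mrg]
        obtain ⟨l0, a⟩ := b
        obtain ⟨l1, c⟩ := b'
        obtain ⟨l2, e⟩ := b''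
        have hsg : sg (a + c + 1) = - (sg a * sg c) := by rw [sg_add, sg_add, sg_one]; ring
        have hsq := sg_mul_self a
        have e1 : a + c + 1 + e + 1 = a + (c + e + 1) + 1 := by ring
        cases l0 <;> cases l1 <;> cases l2 <;> simp [V, mrg] <;> (try rw [hsg]) <;> (try rw [e1]) <;>
          first
          | ring1
          | (right; ring1)

end Pool.Agent.Helper55.Kh
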