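import Pool.Agent.Helper55.Kh.Rows

/-!
# The first certificate: states with at least as many merges as blocks labelled `𝟏`
-/

namespace Pool.Agent.Helper55.Kh

/-! ### Monotonicity of the sum over moves -/

/-- moves at a pair of blocks -/
inductive PM : Blk → Blk → Blk → Blk → Prop
  | xx (a c i j : ℕ) (h : i + j = a + c) : PM (true, a) (true, c) (true, i) (true, j)
  | xn (a c i j : ℕ) (h : i + j = a + c) (hi : a ≤ i) : PM (true, a) (false, c) (false, i) (true, j)
  | nx (a c i j : ℕ) (h : i + j = a + c) (hj : c ≤ j) : PM (false, a) (true, c) (true, i) (false, j)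

/-- moves of a list -/
inductive IsMv : List Blk → List Blk → Prop
  | pair (b b' x y : Blk) (t : List Blk) (h : PM b b' x y) : IsMv (b :: b' :: t) (x :: y :: t)
  | cons (b : Blk) (s t : List Blk) (h : IsMv s t) : IsMv (b :: s) (b :: t)

lemma pmv_le (b b' : Blk) (g h : Blk → Blk → ℝ) (H : ∀ x y, PM b b' x y → g x y ≤ h x y) :
    pmv b b' g ≤ pmv b b' h := by
  obtain ⟨lb, a⟩ := b
  obtain ⟨lb', c⟩ := b'
  cases lb <;> cases lb' <;> simp only [pmv]
  · exact le_refl _
  · apply Finset.sum_le_sum
    intro i hi
    rw [Finset.mem_range] at hi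
    exact H _ _ (PM.nx _ _ _ _ (by omega) (by omega))
  · apply Finset.sum_le_sum
    intro i hi
    rw [Finset.mem_range] at hi
    exact H _ _ (PM.xn _ _ _ _ (by omega) (by omega))
  · apply add_le_add
    · apply Finset.sum_le_sum
      intro i hi
      rw [Finset.mem_range] at hi
      exact H _ _ (PM.xx _ _ _ _ (by omega))
    · apply Finset.sum_le_sum
      intro i hi
      rw [Finset.mem_range] at hi
      exact H _ _ (PM.xx _ _ _ _ (by omega))

lemma Mv_le (s : List Blk) (F G : List Blk → ℝ) (H : ∀ t, IsMv s t → F t ≤ G t) :
    Mv s F ≤ Mv s G := by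
  induction s generalizing F G with
  | nil => simp [Mv]
  | cons b t ih =>
    cases t with
    | nil => simp [Mv]
    | cons b' t =>
      simp only [Mv]
      apply add_le_add
      · apply pmv_le
        intro x y hxy
        exact H _ (IsMv.pair _ _ _ _ _ hxy)
      · apply ih
        intro t' ht'
        exact H _ (IsMv.cons _ _ _ ht')

lemma Mv_congr (s : List Blk) (F G : List Blk → ℝ) (H : ∀ t, IsMv s t → F t = G t) :
    Mv s F = Mv s G :=
  le_antisymm (Mv_le s F G (fun t ht => (H t ht).le)) (Mv_le s G F (fun t ht => (H t ht).ge))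

lemma pmv_add (b b' : Blk) (g h : Blk → Blk → ℝ) :
    pmv b b' (fun x y => g x y + h x y) = pmv b b' g + pmv b b' h := by
  obtain ⟨lb, a⟩ := b
  obtain ⟨lb', c⟩ := b'
  cases lb <;> cases lb' <;> simp only [pmv]
  · simp
  · rw [Finset.sum_add_distrib]
  · rw [Finset.sum_add_distrib]
  · rw [Finset.sum_add_distrib, Finset.sum_add_distrib]; ring

lemma pmv_mul (b b' : Blk) (c : ℝ) (g : Blk → Blk → ℝ) :
    pmv b b' (fun x y => c * g x y) = c * pmv b b' g := by
  obtain ⟨lb, a⟩ := b
  obtain ⟨lb', c⟩ := b'
  cases lb <;> cases lb' <;> simp only [pmv]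
  · simp
  · rw [Finset.mul_sum]
  · rw [Finset.mul_sum]
  · rw [mul_add, Finset.mul_sum, Finset.mul_sum]

lemma Mv_add (s : List Blk) (F G : List Blk → ℝ) :
    Mv s (fun u => F u + G u) = Mv s F + Mv s G := by
  induction s generalizing F G with
  | nil => simp [Mv]
  | cons b t ih =>
    cases t with
    | nil => simp [Mv]
    | cons b' t =>
      simp only [Mv]
      rw [pmv_add, ih]; ring

lemma Mv_mul (s : List Blk) (c : ℝ) (F : List Blk → ℝ) :
    Mv s (fun u => c * F u) = c * Mv s F := by
  induction s generalizing F with
  | nil => simp [Mv]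
  | cons b t ih =>
    cases t with
    | nil => simp [Mv]
    | cons b' t =>
      simp only [Mv]
      rw [pmv_mul, ih]; ring

lemma Mv_zero (s : List Blk) : Mv s (fun _ => 0) = 0 := by
  have := Mv_mul s 0 (fun _ => 0)
  simpa using this

lemma Mv_sum {ι : Type*} (I : Finset ι) (s : List Blk) (F : ι → List Blk → ℝ) :
    Mv s (fun u => ∑ i ∈ I, F i u) = ∑ i ∈ I, Mv s (F i) := by
  classical
  induction I using Finset.induction_on with
  | empty => simp [Mv_zero]
  | insert a I ha ih =>
    simp only [Finset.sum_insert ha]
    rw [Mv_add, ih]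

lemma Mv_nonneg (s : List Blk) (F : List Blk → ℝ) (H : ∀ t, 0 ≤ F t) : 0 ≤ Mv s F := by
  rw [← Mv_zero s]
  exact Mv_le s _ _ (fun t _ => H t)

/-! ### Resolved sums -/

/-- sum of `f` over all the ways to write the content of each `𝟏`-block as a sum of two -/
def R : List Blk → (List ℕ → ℝ) → ℝ
  | [], f => f []
  | b :: t, f => if b.1 then R t (fun η => f (b.2 :: η))
      else ∑ i ∈ Finset.range (b.2 + 1), R t (fun η => f (i :: (b.2 - i) :: η))

lemma R_add (s : List Blk) (f g : List ℕ → ℝ) : R s (fun η => f η + g η) = R s f + R s g := by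
  induction s generalizing f g with
  | nil => simp [R]
  | cons b t ih =>
    simp only [R]
    split_ifs
    · rw [ih]
    · rw [← Finset.sum_add_distrib]
      apply Finset.sum_congr rfl
      intro i _
      rw [ih]

lemma R_mul (s : List Blk) (c : ℝ) (f : List ℕ → ℝ) : R s (fun η => c * f η) = c * R s f := by
  induction s generalizing f with
  | nil => simp [R]
  | cons b t ih =>
    simp only [R]
    split_ifs
    · rw [ih]
    · rw [Finset.mul_sum]
      apply Finset.sum_congr rfl
      intro i _
      rw [ih]

lemma R_zero (s : List Blk) : R s (fun _ => 0) = 0 := by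
  have := R_mul s 0 (fun _ => 0)
  simpa using this

lemma R_sum {ι : Type*} (I : Finset ι) (s : List Blk) (f : ι → List ℕ → ℝ) :
    R s (fun u => ∑ i ∈ I, f i u) = ∑ i ∈ I, R s (f i) := by
  classical
  induction I using Finset.induction_on with
  | empty => simp [R_zero]
  | insert a I ha ih =>
    simp only [Finset.sum_insert ha]
    rw [R_add, ih]

/-- number of slots -/
def slots (s : List Blk) : ℕ := (s.map (fun b => if b.1 then 1 else 2)).sum

/-- total content -/
def cont (s : List Blk) : ℕ := (s.map (fun b => b.2)).sum

lemma slots_cons (b : Blk) (s : List Blk) : slots (b :: s) = (if b.1 then 1 else 2) + slots s := by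
  simp [slots]
lemma cont_cons (b : Blk) (s : List Blk) : cont (b :: s) = b.2 + cont s := by
  simp [cont]

lemma R_le (s : List Blk) (f g : List ℕ → ℝ)
    (H : ∀ η, η.length = slots s → η.sum = cont s → f η ≤ g η) : R s f ≤ R s g := by
  induction s generalizing f g with
  | nil => simp only [R]; exact H [] (by simp [slots]) (by simp [cont])
  | cons b t ih =>
    simp only [R]
    split_ifs with hb
    · apply ih
      intro η h1 h2
      apply H
      · rw [slots_cons, if_pos hb, List.length_cons, h1]; ring
      · rw [cont_cons, List.sum_cons, h2]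
    · apply Finset.sum_le_sum
      intro i hi
      rw [Finset.mem_range] at hi
      apply ih
      intro η h1 h2
      apply H
      · rw [slots_cons, if_neg hb, List.length_cons, List.length_cons, h1]; ring
      · rw [cont_cons, List.sum_cons, List.sum_cons, h2]; omega

lemma R_nonneg (s : List Blk) (f : List ℕ → ℝ) (H : ∀ η, 0 ≤ f η) : 0 ≤ R s f := by
  rw [← R_zero s]
  exact R_le s _ _ (fun η _ _ => H η)

lemma R_pos (s : List Blk) (f : List ℕ → ℝ)
    (H : ∀ η, η.length = slots s → η.sum = cont s → 0 < f η) : 0 < R s f := by
  induction s generalizing f with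
  | nil => simp only [R]; exact H [] (by simp [slots]) (by simp [cont])
  | cons b t ih =>
    simp only [R]
    split_ifs with hb
    · apply ih
      intro η h1 h2
      apply H
      · rw [slots_cons, if_pos hb, List.length_cons, h1]; ring
      · rw [cont_cons, List.sum_cons, h2]
    · apply Finset.sum_pos
      · intro i hi
        rw [Finset.mem_range] at hi
        apply ih
        intro η h1 h2
        apply H
        · rw [slots_cons, if_neg hb, List.length_cons, List.length_cons, h1]; ring
        · rw [cont_cons, List.sum_cons, List.sum_cons, h2]; omega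
      · exact ⟨0, by simp⟩

/-- resampling operator on slot configurations -/
def Bo : List ℕ → (List ℕ → ℝ) → ℝ
  | [], _ => 0
  | [_], _ => 0
  | c :: c' :: η, f => ∑ i ∈ Finset.range (c + c' + 1), f (i :: (c + c' - i) :: η) +
      Bo (c' :: η) (fun u => f (c :: u))

/-- contribution of the junction -/
def Jn (b' : Blk) (t : List Blk) (a : ℕ) (g : List ℕ → ℝ) : ℝ :=
  if b'.1 then ∑ i ∈ Finset.range (a + b'.2 + 1), R t (fun η => g (i :: (a + b'.2 - i) :: η))
  else ∑ j ∈ Finset.range (b'.2 + 1), ∑ i ∈ Finset.range (a + j + 1),
    R t (fun η => g (i :: (a + j - i) :: (b'.2 - j) :: η))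

lemma Jn_nonneg (b' : Blk) (t : List Blk) (a : ℕ) (g : List ℕ → ℝ) (hg : ∀ η, 0 ≤ g η) :
    0 ≤ Jn b' t a g := by
  unfold Jn
  split_ifs
  · exact Finset.sum_nonneg (fun i _ => R_nonneg _ _ (fun η => hg _))
  · exact Finset.sum_nonneg (fun j _ => Finset.sum_nonneg (fun i _ => R_nonneg _ _ (fun η => hg _)))

lemma R_head (b' : Blk) (t : List Blk) (a : ℕ) (g : List ℕ → ℝ) :
    R (b' :: t) (fun η => Bo (a :: η) g) =
      Jn b' t a g + R (b' :: t) (fun η => Bo η (fun u => g (a :: u))) := by
  unfold Jn
  simp only [R]
  split_ifs with hb
  · simp only [Bo]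
    rw [R_add, R_sum]
  · rw [← Finset.sum_add_distrib]
    apply Finset.sum_congr rfl
    intro j _
    simp only [Bo]
    rw [R_add, R_sum, R_add]

/-- diagonal part of the complementary operator -/
def dA (b : Blk) : ℝ := if b.1 then 0 else (b.2 : ℝ) + 1

/-- diagonal part of the complementary operator -/
def Aq : List Blk → ℝ
  | [] => 0
  | [b] => dA b
  | b :: b' :: t => dA b + (1 - op b b') + Aq (b' :: t)

lemma sum_split (a c : ℕ) (g : ℕ → ℕ → ℝ) :
    ∑ i ∈ Finset.range (a + c + 1), g i (a + c - i) =
      ∑ i ∈ Finset.range a, g i (a - 1 - i + c + 1) + g a c +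
      ∑ i ∈ Finset.range c, g (a + i + 1) (c - 1 - i) := by
  have e : a + c + 1 = a + (c + 1) := by ring
  rw [e, Finset.sum_range_add, Finset.sum_range_succ' _ c]
  have h1 : ∑ x ∈ Finset.range a, g x (a + c - x) = ∑ i ∈ Finset.range a, g i (a - 1 - i + c + 1) := by
    apply Finset.sum_congr rfl
    intro x hx
    rw [Finset.mem_range] at hx
    have e1 : a + c - x = a - 1 - x + c + 1 := by omega
    rw [e1]
  have h2 : ∑ k ∈ Finset.range c, g (a + (k + 1)) (a + c - (a + (k + 1))) =
      ∑ i ∈ Finset.range c, g (a + i + 1) (c - 1 - i) := by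
    apply Finset.sum_congr rfl
    intro x hx
    rw [Finset.mem_range] at hx
    have e1 : a + c - (a + (x + 1)) = c - 1 - x := by omega
    rw [e1, ← add_assoc]
  rw [h1, h2]
  have e3 : a + c - (a + 0) = c := by omega
  rw [e3, add_zero]
  ring

theorem A_le (s : List Blk) (f : List ℕ → ℝ) (hf : ∀ η, 0 ≤ f η) :
    Aq s * R s f + Mv s (fun u => R u f) ≤ R s (fun η => Bo η f) := by
  induction s generalizing f with
  | nil => simp [Aq, Mv, R, Bo]
  | cons b t ih =>
    cases t with
    | nil =>
      simp only [Aq, Mv, R, dA]
      split_ifs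
      · simp [Bo]
      · simp only [Bo, add_zero]
        have : ∀ x ∈ Finset.range (b.2 + 1), ∑ i ∈ Finset.range (x + (b.2 - x) + 1),
            f [i, x + (b.2 - x) - i] = ∑ i ∈ Finset.range (b.2 + 1), f [i, b.2 - i] := by
          intro x hx
          rw [Finset.mem_range] at hx
          have e : x + (b.2 - x) = b.2 := by omega
          rw [e]
        rw [Finset.sum_congr rfl this]
        simp
    | cons b' t =>
      obtain ⟨lb, a⟩ := b
      cases lb
      · -- b is a `𝟏` block
        have hL : R ((false, a) :: b' :: t) (fun η => Bo η f) =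
            ((a : ℝ) + 1) * R ((false, a) :: b' :: t) f +
            ∑ i ∈ Finset.range (a + 1), (Jn b' t (a - i) (fun u => f (i :: u)) +
              R (b' :: t) (fun η => Bo η (fun u => f (i :: (a - i) :: u)))) := by
          conv_lhs => rw [R]
          simp only [Bool.false_eq_true, if_false, Bo]
          have h1 : ∀ i ∈ Finset.range (a + 1),
              R (b' :: t) (fun η => ∑ l ∈ Finset.range (i + (a - i) + 1), f (l :: (i + (a - i) - l) :: η) +
                Bo ((a - i) :: η) (fun u => f (i :: u))) =
              R ((false, a) :: b' :: t) f + (Jn b' t (a - i) (fun u => f (i :: u)) +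
              R (b' :: t) (fun η => Bo η (fun u => f (i :: (a - i) :: u)))) := by
            intro i hi
            rw [Finset.mem_range] at hi
            have e : i + (a - i) = a := by omega
            rw [e, R_add, R_sum, R_head]
            conv_rhs => rw [R]
            simp
          rw [Finset.sum_congr rfl h1, Finset.sum_add_distrib]
          simp
        rw [hL]
        have hM : Mv (b' :: t) (fun u => R ((false, a) :: u) f) =
            ∑ i ∈ Finset.range (a + 1), Mv (b' :: t) (fun u => R u (fun η => f (i :: (a - i) :: η))) := by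
          rw [← Mv_sum]
          rfl
        have hR : R ((false, a) :: b' :: t) f =
            ∑ i ∈ Finset.range (a + 1), R (b' :: t) (fun η => f (i :: (a - i) :: η)) := by
          conv_lhs => rw [R]
          simp
        have hI : ∀ i ∈ Finset.range (a + 1), Aq (b' :: t) * R (b' :: t) (fun η => f (i :: (a - i) :: η)) +
            Mv (b' :: t) (fun u => R u (fun η => f (i :: (a - i) :: η))) ≤
            R (b' :: t) (fun η => Bo η (fun u => f (i :: (a - i) :: u))) :=
          fun i _ => ih _ (fun η => hf _)
        have hI' := Finset.sum_le_sum hI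
        rw [Finset.sum_add_distrib, ← Finset.mul_sum, ← hR, ← hM] at hI'
        rw [Finset.sum_add_distrib]
        simp only [Aq, Mv, dA, op]
        simp only [Bool.false_and, Bool.false_eq_true, if_false, sub_self, add_zero]
        have hP : pmv (false, a) b' (fun x y => R (x :: y :: t) f) ≤
            ∑ i ∈ Finset.range (a + 1), Jn b' t (a - i) (fun u => f (i :: u)) := by
          obtain ⟨lb', c⟩ := b'
          cases lb'
          · simp only [pmv]
            exact Finset.sum_nonneg (fun i _ => Jn_nonneg _ _ _ _ (fun η => hf _))
          · simp only [pmv, Jn, if_true]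
            rw [← Finset.sum_range_reflect]
            apply le_of_eq
            apply Finset.sum_congr rfl
            intro i hi
            rw [Finset.mem_range] at hi
            have e1 : a - (a + 1 - 1 - i) = i := by omega
            have e2 : c + (a + 1 - 1 - i) = a - i + c := by omega
            rw [e1, e2]
            simp [R]
        linarith
      · -- b is an `X` block
        have hL : R ((true, a) :: b' :: t) (fun η => Bo η f) =
            Jn b' t a f + R (b' :: t) (fun η => Bo η (fun u => f (a :: u))) := by
          rw [← R_head]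
          conv_lhs => rw [R]
          simp
        rw [hL]
        have hI := ih (fun u => f (a :: u)) (fun η => hf _)
        have hM : Mv (b' :: t) (fun u => R ((true, a) :: u) f) =
            Mv (b' :: t) (fun u => R u (fun η => f (a :: η))) := by
          congr 1
        have hR : R ((true, a) :: b' :: t) f = R (b' :: t) (fun η => f (a :: η)) := by
          conv_lhs => rw [R]
          simp
        simp only [Aq, Mv, dA]
        rw [hM, hR]
        have hP : (1 - op (true, a) b') * R (b' :: t) (fun η => f (a :: η)) +
            pmv (true, a) b' (fun x y => R (x :: y :: t) f) ≤ Jn b' t a f := by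
          obtain ⟨lb', c⟩ := b'
          cases lb'
          · simp only [pmv, Jn, op]
            simp only [Bool.and_false, Bool.false_eq_true, if_false, sub_self, zero_mul, zero_add]
            apply le_of_eq
            apply Finset.sum_congr rfl
            intro i hi
            rw [R]
            simp only [Bool.false_eq_true, if_false]
            apply Finset.sum_congr rfl
            intro j _
            simp [R]
          · simp only [pmv, Jn, op]
            simp only [Bool.and_true, if_true, sub_zero, one_mul]
            rw [sum_split a c (fun i j => R t (fun η => f (i :: j :: η)))]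
            apply le_of_eq
            simp only [R, if_true]
            ring
        simp only [if_true, zero_add]
        linarith

end Pool.Agent.Helper55.Kh
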