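import Pool.Agent.Helper55.Kh.CertB

/-!
# The first certificate, slot configurations
-/

namespace Pool.Agent.Helper55.Kh

/-- minimum of `S` over the occupied positions (capped by `1`) -/
noncomputable def mo (S : ℕ → ℝ) : ℕ → List ℕ → ℝ
  | _, [] => 1
  | off, c :: η => if c = 0 then mo S (off + 1) η else min (S off) (mo S (off + 1) η)

lemma mo_le (S : ℕ → ℝ) (off : ℕ) (u : List ℕ) (c : ℕ) (v : List ℕ) (hc : 0 < c) :
    mo S off (u ++ c :: v) ≤ S (off + u.length) := by
  induction u generalizing off with
  | nil =>
    simp only [List.nil_append, mo, List.length_nil, add_zero]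
    rw [if_neg (by omega)]
    exact min_le_left _ _
  | cons d u ih =>
    simp only [List.cons_append, mo, List.length_cons]
    have := ih (off + 1)
    have e : off + (u.length + 1) = off + 1 + u.length := by ring
    rw [e]
    split_ifs
    · exact this
    · exact (min_le_right _ _).trans this

lemma mo_attain (S : ℕ → ℝ) (hS : ∀ i, S i ≤ 1) (off : ℕ) (η : List ℕ) (h : 0 < η.sum) :
    ∃ u c v, η = u ++ c :: v ∧ 0 < c ∧ mo S off η = S (off + u.length) := by
  induction η generalizing off with
  | nil => simp at h
  | cons d η ih =>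
    by_cases hd : d = 0
    · subst hd
      simp only [List.sum_cons, zero_add] at h
      obtain ⟨u, c, v, h1, h2, h3⟩ := ih (off + 1) h
      refine ⟨0 :: u, c, v, by rw [h1]; rfl, h2, ?_⟩
      simp only [mo, if_true, List.length_cons]
      rw [h3]
      congr 1
      ring
    · by_cases hη : 0 < η.sum
      · obtain ⟨u, c, v, h1, h2, h3⟩ := ih (off + 1) hη
        simp only [mo, if_neg hd]
        rcases le_total (S off) (mo S (off + 1) η) with hle | hle
        · exact ⟨[], d, η, rfl, by omega, by rw [min_eq_left hle]; simp⟩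
        · refine ⟨d :: u, c, v, by rw [h1]; rfl, h2, ?_⟩
          rw [min_eq_right hle, h3, List.length_cons]
          congr 1
          ring
      · refine ⟨[], d, η, rfl, by omega, ?_⟩
        simp only [mo, if_neg hd, List.length_nil, add_zero]
        apply min_eq_left
        have h0 : η.sum = 0 := by omega
        have : mo S (off + 1) η = 1 := by
          clear ih hη h
          have : ∀ (o : ℕ), mo S o η = 1 := by
            intro o
            induction η generalizing o with
            | nil => rfl
            | cons e η ih =>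
              simp only [List.sum_cons] at h0
              have he : e = 0 := by omega
              simp only [mo, he, if_true]
              exact ih (by omega) _
          exact this _
        rw [this]
        exact hS off

lemma mo_pos (S : ℕ → ℝ) (off : ℕ) (η : List ℕ) (h : ∀ i < η.length, 0 < S (off + i)) :
    0 < mo S off η := by
  induction η generalizing off with
  | nil => simp [mo]
  | cons d η ih =>
    have h1 : 0 < mo S (off + 1) η := by
      apply ih
      intro i hi
      have := h (i + 1) (by simp; omega)
      have e : off + 1 + i = off + (i + 1) := by ring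
      rw [e]; exact this
    have h2 : 0 < S off := by
      have := h 0 (by simp)
      simpa using this
    simp only [mo]
    split_ifs
    · exact h1
    · exact lt_min h2 h1

lemma mo_nonneg (S : ℕ → ℝ) (hS : ∀ i, 0 ≤ S i) (off : ℕ) (η : List ℕ) : 0 ≤ mo S off η := by
  induction η generalizing off with
  | nil => simp [mo]
  | cons d η ih =>
    simp only [mo]
    split_ifs
    · exact ih _
    · exact le_min (hS _) (ih _)

/-- number of outcomes of the resampling operator -/
def Bc : List ℕ → ℝ
  | [] => 0
  | [_] => 0
  | c :: c' :: η => ((c : ℝ) + c' + 1) + Bc (c' :: η)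

lemma Bo_le1 (η : List ℕ) (F : List ℕ → ℝ) (x : ℝ) (H : ∀ η', η'.length = η.length → F η' ≤ x) :
    Bo η F ≤ Bc η * x := by
  induction η generalizing F with
  | nil => simp [Bo, Bc]
  | cons c η ih =>
    cases η with
    | nil => simp [Bo, Bc]
    | cons c' η =>
      simp only [Bo, Bc]
      rw [add_mul]
      apply add_le_add
      · calc ∑ i ∈ Finset.range (c + c' + 1), F (i :: (c + c' - i) :: η)
            ≤ ∑ i ∈ Finset.range (c + c' + 1), x :=
              Finset.sum_le_sum (fun i _ => H _ (by simp))
          _ = ((c : ℝ) + c' + 1) * x := by simp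
      · apply ih
        intro η' h'
        exact H _ (by simp [h'])

lemma Bo_le2 (c : ℕ) (v : List ℕ) (F : List ℕ → ℝ) (x y : ℝ) (hc : 0 < c)
    (H1 : ∀ c' v', 0 < c' → F (c' :: v') ≤ x)
    (H2 : ∀ d c' v', 0 < c' → F (d :: c' :: v') ≤ y) :
    Bo (c :: v) F ≤ Bc (c :: v) * x + (if v = [] then 0 else y - x) := by
  cases v with
  | nil => simp [Bo, Bc]
  | cons c' v =>
    simp only [Bo, Bc]
    have h1 : ∑ i ∈ Finset.range (c + c' + 1), F (i :: (c + c' - i) :: v) ≤ ((c : ℝ) + c') * x + y := by
      rw [Finset.sum_range_succ']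
      apply add_le_add
      · calc ∑ k ∈ Finset.range (c + c'), F ((k + 1) :: (c + c' - (k + 1)) :: v)
            ≤ ∑ k ∈ Finset.range (c + c'), x := Finset.sum_le_sum (fun i _ => H1 _ _ (by omega))
          _ = ((c : ℝ) + c') * x := by simp
      · exact H2 _ _ _ (by omega)
    have h2 : Bo (c' :: v) (fun u => F (c :: u)) ≤ Bc (c' :: v) * x :=
      Bo_le1 _ _ _ (fun η' _ => H1 _ _ hc)
    simp only [reduceCtorEq, if_false]
    nlinarith

lemma Bo_le3 (u : List ℕ) (c : ℕ) (v : List ℕ) (F : List ℕ → ℝ) (x y z : ℝ) (hc : 0 < c)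
    (H1 : ∀ w c' v', w.length = u.length → 0 < c' → F (w ++ c' :: v') ≤ x)
    (H2 : ∀ w c' v', w.length = u.length + 1 → 0 < c' → F (w ++ c' :: v') ≤ y)
    (H3 : ∀ w c' v', w.length + 1 = u.length → 0 < c' → F (w ++ c' :: v') ≤ z) :
    Bo (u ++ c :: v) F ≤ Bc (u ++ c :: v) * x + (if v = [] then 0 else y - x)
      + (if u = [] then 0 else z - x) := by
  induction u generalizing F with
  | nil =>
    simp only [List.nil_append, if_true, add_zero]
    apply Bo_le2 c v F x y hc
    · intro c' v' hc'
      exact H1 [] c' v' rfl hc'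
    · intro d c' v' hc'
      exact H2 [d] c' v' rfl hc'
  | cons d u ih =>
    cases u with
    | nil =>
      simp only [List.cons_append, List.nil_append, Bo, Bc]
      have h1 : ∑ i ∈ Finset.range (d + c + 1), F (i :: (d + c - i) :: v) ≤ ((d : ℝ) + c) * x + z := by
        rw [Finset.sum_range_succ]
        apply add_le_add
        · calc ∑ k ∈ Finset.range (d + c), F (k :: (d + c - k) :: v)
              ≤ ∑ k ∈ Finset.range (d + c), x := by
                apply Finset.sum_le_sum
                intro i hi
                rw [Finset.mem_range] at hi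
                exact H1 [i] _ _ rfl (by omega)
            _ = ((d : ℝ) + c) * x := by simp
        · exact H3 [] _ _ rfl (by omega)
      have h2 : Bo (c :: v) (fun w => F (d :: w)) ≤ Bc (c :: v) * x + (if v = [] then 0 else y - x) := by
        apply Bo_le2 c v _ x y hc
        · intro c' v' hc'
          exact H1 [d] c' v' rfl hc'
        · intro e c' v' hc'
          exact H2 [d, e] c' v' rfl hc'
      simp only [reduceCtorEq, if_false]
      nlinarith
    | cons e u =>
      simp only [List.cons_append, Bo, Bc]
      have h1 : ∑ i ∈ Finset.range (d + e + 1), F (i :: (d + e - i) :: (u ++ c :: v)) ≤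
          ((d : ℝ) + e + 1) * x := by
        calc ∑ i ∈ Finset.range (d + e + 1), F (i :: (d + e - i) :: (u ++ c :: v))
            ≤ ∑ i ∈ Finset.range (d + e + 1), x := by
              apply Finset.sum_le_sum
              intro i _
              exact H1 (i :: (d + e - i) :: u) _ _ (by simp) hc
          _ = ((d : ℝ) + e + 1) * x := by simp
      have h2 := ih (fun w => F (d :: w))
        (fun w c' v' hw hc' => H1 (d :: w) c' v' (by simp at hw ⊢; omega) hc')
        (fun w c' v' hw hc' => H2 (d :: w) c' v' (by simp at hw ⊢; omega) hc')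
        (fun w c' v' hw hc' => H3 (d :: w) c' v' (by simp at hw ⊢; omega) hc')
      simp only [reduceCtorEq, if_false, List.cons_append] at h2 ⊢
      linarith

/-- first entry -/
def hd (η : List ℕ) : ℕ := η.headD 0
/-- last entry -/
def la (η : List ℕ) : ℕ := η.getLastD 0

lemma Bc_eq (c : ℕ) (η : List ℕ) :
    Bc (c :: η) + c + (la (c :: η) : ℕ) = 2 * ((c :: η).sum : ℕ) + ((c :: η).length : ℕ) - 1 := by
  induction η generalizing c with
  | nil => simp [Bc, la]; ring
  | cons d η ih =>
    have h := ih d
    have e : la (c :: d :: η) = la (d :: η) := by simp [la]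
    rw [e]
    simp only [Bc]
    simp only [List.sum_cons, List.length_cons] at h ⊢
    push_cast at h ⊢
    linarith

lemma la_append (u : List ℕ) (c : ℕ) : la (u ++ [c]) = c := by simp [la]

/-- The key inequality for slot configurations. -/
theorem Bo_mo (S : ℕ → ℝ) (γ : ℝ) (hS1 : ∀ i, S i ≤ 1) (hS0 : S 0 = 0) (η : List ℕ)
    (hpos : ∀ i, 0 ≤ S i)
    (hrec : ∀ i < η.length, 2 * S (i + 1) - S i - S (i + 2) = γ * S (i + 1))
    (hη : 0 < η.sum) :
    Bo η (mo S 1) ≤ (2 * (η.sum : ℝ) + η.length - 1 - γ) * mo S 1 η := by
  obtain ⟨u, c, v, h1, h2, h3⟩ := mo_attain S hS1 1 η hη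
  rw [h3]
  have hb := Bo_le3 u c v (mo S 1) (S (1 + u.length)) (S (u.length + 2)) (S u.length) h2
    (fun w c' v' hw hc' => by rw [← hw]; exact mo_le S 1 w c' v' hc')
    (fun w c' v' hw hc' => by
      have := mo_le S 1 w c' v' hc'
      rw [hw] at this
      have e : 1 + (u.length + 1) = u.length + 2 := by ring
      rwa [e] at this)
    (fun w c' v' hw hc' => by
      have := mo_le S 1 w c' v' hc'
      rw [← hw]
      rwa [add_comm] at this)
  rw [← h1] at hb
  have hlen : η.length = u.length + 1 + v.length := by rw [h1]; simp; ring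
  have hr := hrec u.length (by omega)
  rw [add_comm u.length 1] at hr
  have hx : 0 ≤ S (1 + u.length) := hpos _
  have hy : 0 ≤ S (u.length + 2) := hpos _
  have hz : 0 ≤ S u.length := hpos _
  -- count
  have hcount : Bc η + hd η + la η = 2 * (η.sum : ℝ) + η.length - 1 := by
    cases hη' : η with
    | nil => rw [hη'] at hη; simp at hη
    | cons d η' =>
      have := Bc_eq d η'
      simpa [hd] using this
  rw [← hcount]
  have hhd : (0 : ℝ) ≤ hd η := Nat.cast_nonneg _
  have hla : (0 : ℝ) ≤ la η := Nat.cast_nonneg _
  have hcc : (1 : ℝ) ≤ c := by exact_mod_cast h2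
  rcases List.eq_nil_or_concat v with hv | ⟨v', d, hv⟩
  · subst hv
    have hla1 : (1 : ℝ) ≤ la η := by
      have : la η = c := by rw [h1]; exact la_append u c
      rw [this]; exact hcc
    cases u with
    | nil =>
      have hhd1 : (1 : ℝ) ≤ hd η := by
        have : hd η = c := by rw [h1]; simp [hd]
        rw [this]; exact hcc
      simp only [if_true, List.length_nil, hS0] at hb hr hx hy ⊢
      nlinarith
    | cons d u =>
      simp only [if_true, reduceCtorEq, if_false] at hb
      nlinarith
  · have hvn : v ≠ [] := by rw [hv]; simp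
    rw [if_neg hvn] at hb
    cases u with
    | nil =>
      have hhd1 : (1 : ℝ) ≤ hd η := by
        have : hd η = c := by rw [h1]; simp [hd]
        rw [this]; exact hcc
      simp only [if_true, List.length_nil, hS0] at hb hr hx hy ⊢
      nlinarith
    | cons d u =>
      simp only [reduceCtorEq, if_false] at hb
      nlinarith

lemma Dg_Aq (b : Blk) (t : List Blk) :
    Dg (b :: t) + Aq (b :: t) = slots (b :: t) + 2 * (cont (b :: t) : ℝ) - 1 := by
  induction t generalizing b with
  | nil =>
    simp only [Dg, Aq, dg, dA, slots_cons, cont_cons]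
    split_ifs
    · simp [slots, cont]
    · simp [slots, cont]; ring
  | cons b' t ih =>
    have h := ih b'
    simp only [Dg, Aq]
    rw [slots_cons b, cont_cons b]
    push_cast
    have h2 : dg b + dA b = (if b.1 then 1 else 2) + 2 * (b.2 : ℝ) - 1 := by
      simp only [dg, dA]
      split_ifs <;> ring
    linarith

/-- The first certificate. -/
theorem certB (S : ℕ → ℝ) (γ : ℝ) (hS1 : ∀ i, S i ≤ 1) (hS0 : S 0 = 0) (s : List Blk)
    (hpos : ∀ i, 0 ≤ S i)
    (hrec : ∀ i < slots s, 2 * S (i + 1) - S i - S (i + 2) = γ * S (i + 1))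
    (hs : 0 < cont s) :
    Mv s (fun u => R u (mo S 1)) ≤ (Dg s - γ) * R s (mo S 1) := by
  cases s with
  | nil => simp [cont] at hs
  | cons b t =>
    have h1 := A_le (b :: t) (mo S 1) (mo_nonneg S hpos 1)
    have h2 : R (b :: t) (fun η => Bo η (mo S 1)) ≤
        R (b :: t) (fun η => (slots (b :: t) + 2 * (cont (b :: t) : ℝ) - 1 - γ) * mo S 1 η) := by
      apply R_le
      intro η h3 h4
      have h5 := Bo_mo S γ hS1 hS0 η hpos (by rw [h3]; exact hrec) (by rw [h4]; exact hs)
      rw [h3, h4] at h5
      linarith
    rw [R_mul, ← Dg_Aq] at h2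
    nlinarith

end Pool.Agent.Helper55.Kh
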