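import Mathlib

/-!
# The Khovanov complex of the diagram `TU_n`

`TU_n` is the `n`-crossing unknot diagram whose all-`0` resolution consists of the `n + 1` circles
`C_0, …, C_n`, the crossing `i` (`0 ≤ i < n`) joining `C_i` and `C_{i+1}`.
In the resolution `r ∈ {0,1}^n` the circles `C_i` and `C_{i+1}` are merged when `r_i = 1`.
-/

namespace Pool.Agent.Helper55.Kh

/-- `C_x` and `C_y` lie in the same circle of the resolution `r`: all the crossings between them
are `1`-resolved (`true` is the `1`-resolution). -/
def SameCircle {n : ℕ} (r : Fin n → Bool) (x y : Fin (n + 1)) : Prop :=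
  ∀ i : Fin n, (x ≤ i.castSucc ∧ i.castSucc < y) ∨ (y ≤ i.castSucc ∧ i.castSucc < x) → r i = true

/-- The standard basis of the Khovanov chain space of `TU_n`: a resolution `r ∈ {0,1}^n`
together with a label for each circle of that resolution. The label of a circle is recorded at each
of the `C_x` it contains (`false` is `𝟏`, `true` is `X`), so that two circles `C_i`, `C_{i+1}`
merged by a `1`-resolved crossing carry the same label. -/
abbrev Gen (n : ℕ) : Type :=
  {s : (Fin n → Bool) × (Fin (n + 1) → Bool) // ∀ i : Fin n, s.1 i = true → s.2 i.castSucc = s.2 i.succ}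

/-- The resolution of a basis vector. -/
abbrev Gen.res {n : ℕ} (s : Gen n) : Fin n → Bool := s.1.1

/-- The label (`false` is `𝟏`, `true` is `X`) of the circle containing `C_x`. -/
abbrev Gen.lab {n : ℕ} (s : Gen n) : Fin (n + 1) → Bool := s.1.2

/-- The coefficient of `c` in `m (a ⊗ b)`: `m(𝟏⊗𝟏) = 𝟏`, `m(𝟏⊗X) = m(X⊗𝟏) = X`,
`m(X⊗X) = 0`. -/
def mulCoeff : Bool → Bool → Bool → ℝ
  | false, false, false => 1
  | false, true, true => 1
  | true, false, true => 1
  | _, _, _ => 0

open Classical in
/-- The matrix of the Khovanov differential of `TU_n`: the entry `(t, s)` is the coefficient of `t`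
in `d s`. The edge map at the crossing `i` goes from a resolution with `r_i = 0` to the same
resolution with `r_i = 1`; it applies `m` to the labels of the two circles containing `C_i` and
`C_{i+1}`, leaves the labels of the other circles unchanged, and has the sign
`(-1)^(number of crossings j < i that are 1-resolved)`. -/
noncomputable def diff (n : ℕ) : Matrix (Gen n) (Gen n) ℝ := fun t s =>
  ∑ i : Fin n,
    if s.res i = false ∧ t.res = Function.update s.res i true ∧
        ∀ x : Fin (n + 1), ¬ SameCircle t.res x i.castSucc → t.lab x = s.lab x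
    then (-1) ^ (Finset.univ.filter (fun j : Fin n => j < i ∧ s.res j = true)).card *
      mulCoeff (s.lab i.castSucc) (s.lab i.succ) (t.lab i.castSucc)
    else 0

/-- The Khovanov Laplacian `L = d d† + d† d` of `TU_n` (the basis `Gen n` is orthonormal). -/
noncomputable def lap (n : ℕ) : Matrix (Gen n) (Gen n) ℝ :=
  diff n * (diff n).transpose + (diff n).transpose * diff n

/-- Homological degree: the number of `1`-resolved crossings. -/
def hdeg {n : ℕ} (s : Gen n) : ℕ := (Finset.univ.filter (fun i : Fin n => s.res i = true)).card

/-- `q`-degree: the sum over the circles of the degree of their label (`1` for `𝟏`, `-1` for `X`),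
plus the homological degree. Each circle is represented by the last of the `C_x` it contains,
that is by an `x` such that the crossing following `C_x`, if there is one, is `0`-resolved. -/
def qdeg {n : ℕ} (s : Gen n) : ℤ :=
  (∑ x ∈ Finset.univ.filter (fun x : Fin (n + 1) => ∀ i : Fin n, i.castSucc = x → s.res i = false),
    (if s.lab x then (-1 : ℤ) else 1)) + hdeg s

/-- The block `L_(k,j)` of the Laplacian in homological degree `k` and `q`-degree `j`. -/
noncomputable def block (n k : ℕ) (j : ℤ) :
    Matrix {s : Gen n // hdeg s = k ∧ qdeg s = j} {s : Gen n // hdeg s = k ∧ qdeg s = j} ℝ :=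
  (lap n).submatrix Subtype.val Subtype.val

/-- The set of the nonzero eigenvalues of `L_(k,j)(TU_n)`. -/
def nonzeroEigenvalues (n k : ℕ) (j : ℤ) : Set ℝ :=
  {μ | μ ≠ 0 ∧ ∃ v, v ≠ 0 ∧ (block n k j).mulVec v = μ • v}

end Pool.Agent.Helper55.Kh
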