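import Pool.Agent.Helper55.Kh.Lower2

/-!
# The eigenvector in bidegree `(0, 3 - n)`
-/

namespace Pool.Agent.Helper55.Kh

open Matrix Real

/-- `r` blocks `X` -/
def xr (r : ℕ) : List Blk := List.replicate r (true, 0)
/-- one `𝟏` -/
def w1 (q r : ℕ) : List Blk := xr q ++ (false, 0) :: xr r
/-- two `𝟏` -/
def w2 (p q r : ℕ) : List Blk := xr p ++ (false, 0) :: w1 q r

lemma xr_succ (r : ℕ) : xr (r + 1) = (true, 0) :: xr r := rfl
lemma w1_zero (r : ℕ) : w1 0 r = (false, 0) :: xr r := rfl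
lemma w1_succ (q r : ℕ) : w1 (q + 1) r = (true, 0) :: w1 q r := rfl
lemma w2_zero (q r : ℕ) : w2 0 q r = (false, 0) :: w1 q r := rfl
lemma w2_succ (p q r : ℕ) : w2 (p + 1) q r = (true, 0) :: w2 p q r := rfl

lemma LL_XX (t : List Blk) (f : List Blk → ℝ) :
    LL ((true, 0) :: (true, 0) :: t) f = LL ((true, 0) :: t) (fun u => f ((true, 0) :: u)) := by
  rw [LL_cons, P_XX]
  simp [dg]

lemma LL_XN (t : List Blk) (f : List Blk → ℝ) :
    LL ((true, 0) :: (false, 0) :: t) f = f ((true, 0) :: (false, 0) :: t) + f ((false, 0) :: (true, 0) :: t)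
      + LL ((false, 0) :: t) (fun u => f ((true, 0) :: u)) := by
  rw [LL_cons, P_XN]
  simp [dg, sg]

lemma LL_NX (t : List Blk) (f : List Blk → ℝ) :
    LL ((false, 0) :: (true, 0) :: t) f = f ((false, 0) :: (true, 0) :: t) + f ((true, 0) :: (false, 0) :: t)
      + LL ((true, 0) :: t) (fun u => f ((false, 0) :: u)) := by
  rw [LL_cons, P_NX]
  simp [dg, sg]

lemma LL_NN (t : List Blk) (f : List Blk → ℝ) :
    LL ((false, 0) :: (false, 0) :: t) f = f ((false, 0) :: (false, 0) :: t)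
      + LL ((false, 0) :: t) (fun u => f ((false, 0) :: u)) := by
  rw [LL_cons, P_NN]
  simp [dg]

lemma LL_xr (r : ℕ) (f : List Blk → ℝ) : LL (xr r) f = 0 := by
  induction r generalizing f with
  | zero => exact LL_nil f
  | succ r ih =>
    cases r with
    | zero =>
      rw [xr_succ]
      change LL [(true, 0)] f = 0
      rw [LL_single]
      simp [dg]
    | succ r =>
      rw [xr_succ, xr_succ, LL_XX, ← xr_succ]
      exact ih _

lemma LL_w10 (r : ℕ) (f : List Blk → ℝ) :
    LL (w1 0 r) f = if r = 0 then 0 else f (w1 0 r) + f (w1 1 (r - 1)) := by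
  cases r with
  | zero =>
    rw [w1_zero]
    change LL [(false, 0)] f = _
    rw [LL_single]
    simp [dg]
  | succ r =>
    rw [w1_zero, xr_succ, LL_NX, ← xr_succ, LL_xr]
    simp [w1_succ, w1_zero]

lemma LL_w1 (q r : ℕ) (f : List Blk → ℝ) :
    LL (w1 q r) f = (if q = 0 then 0 else f (w1 q r) + f (w1 (q - 1) (r + 1)))
      + (if r = 0 then 0 else f (w1 q r) + f (w1 (q + 1) (r - 1))) := by
  induction q generalizing f with
  | zero => rw [LL_w10]; simp
  | succ q ih =>
    cases q with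
    | zero =>
      rw [w1_succ, w1_zero, LL_XN, ← w1_zero, LL_w10]
      cases r with
      | zero => simp [w1_zero, xr_succ]
      | succ r => simp [w1_zero, w1_succ, xr_succ]
    | succ q =>
      rw [w1_succ, w1_succ, LL_XX, ← w1_succ, ih]
      cases r with
      | zero => simp [w1_succ]
      | succ r => simp [w1_succ]

lemma LL_w20 (q r : ℕ) (f : List Blk → ℝ) :
    LL (w2 0 q r) f = (if q = 0 then f (w2 0 q r)
        else f (w2 0 q r) + f (w2 1 (q - 1) r) + (f (w2 0 q r) + f (w2 0 (q - 1) (r + 1))))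
      + (if r = 0 then 0 else f (w2 0 q r) + f (w2 0 (q + 1) (r - 1))) := by
  cases q with
  | zero =>
    rw [w2_zero, w1_zero, LL_NN, ← w1_zero, LL_w10]
    cases r with
    | zero => simp
    | succ r => simp [w2_zero]
  | succ q =>
    rw [w2_zero, w1_succ, LL_NX, ← w1_succ, LL_w1]
    cases r with
    | zero => simp [w2_zero, w2_succ, w1_succ]
    | succ r => simp [w2_zero, w2_succ, w1_succ]; ring

lemma LL_w2 (p q r : ℕ) (f : List Blk → ℝ) :
    LL (w2 p q r) f = (if p = 0 then 0 else f (w2 p q r) + f (w2 (p - 1) (q + 1) r))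
      + (if q = 0 then f (w2 p q r)
        else f (w2 p q r) + f (w2 (p + 1) (q - 1) r) + (f (w2 p q r) + f (w2 p (q - 1) (r + 1))))
      + (if r = 0 then 0 else f (w2 p q r) + f (w2 p (q + 1) (r - 1))) := by
  induction p generalizing f with
  | zero => rw [LL_w20]; simp
  | succ p ih =>
    cases p with
    | zero =>
      rw [w2_succ, w2_zero, LL_XN, ← w2_zero, LL_w20]
      simp only [w2_succ, w2_zero, w1_succ, zero_add, one_ne_zero, if_false, Nat.sub_self]
      ring_nf
    | succ p =>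
      rw [w2_succ, w2_succ, LL_XX, ← w2_succ, ih]
      simp only [w2_succ, Nat.add_sub_cancel, Nat.add_eq_zero_iff, one_ne_zero, and_false, if_false]

/-- drop everything up to the first `𝟏` -/
def tl1 : List Blk → List Blk
  | [] => []
  | b :: t => if b.1 then tl1 t else t

lemma nX_xr (q : ℕ) (t : List Blk) : nX (xr q ++ (false, 0) :: t) = q := by
  induction q with
  | zero => simp [xr, nX]
  | succ q ih =>
    rw [xr_succ, List.cons_append, nX, if_pos rfl, ih]; ring

lemma tl1_xr (q : ℕ) (t : List Blk) : tl1 (xr q ++ (false, 0) :: t) = t := by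
  induction q with
  | zero => simp [xr, tl1]
  | succ q ih => rw [xr_succ, List.cons_append, tl1, if_pos rfl, ih]

lemma cont_xr (r : ℕ) : cont (xr r) = 0 := by
  induction r with
  | zero => rfl
  | succ r ih => rw [xr_succ, cont_cons, ih]

lemma ones_xr (r : ℕ) : ones (xr r) = 0 := by
  induction r with
  | zero => rfl
  | succ r ih => rw [xr_succ, ones_cons, ih]; simp

lemma xs_xr (r : ℕ) : xs (xr r) = r := by
  induction r with
  | zero => rfl
  | succ r ih => rw [xr_succ, xs_cons, ih]; simp; ring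

lemma cont_app (s t : List Blk) : cont (s ++ t) = cont s + cont t := by simp [cont]
lemma ones_app (s t : List Blk) : ones (s ++ t) = ones s + ones t := by simp [ones]
lemma xs_app (s t : List Blk) : xs (s ++ t) = xs s + xs t := by simp [xs]

lemma inv_w2 (p q r : ℕ) : cont (w2 p q r) = 0 ∧ ones (w2 p q r) = 2 ∧ xs (w2 p q r) = p + q + r := by
  unfold w2 w1
  simp only [cont_app, ones_app, xs_app, cont_cons, ones_cons, xs_cons, cont_xr, ones_xr, xs_xr]
  simp
  ring

lemma ones_zero (l : List Blk) (h1 : cont l = 0) (h2 : ones l = 0) : ∃ r, l = xr r := by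
  induction l with
  | nil => exact ⟨0, rfl⟩
  | cons b t ih =>
    obtain ⟨lb, c⟩ := b
    rw [cont_cons] at h1
    rw [ones_cons] at h2
    simp only at h1 h2
    cases lb
    · simp at h2
    · obtain ⟨r, hr⟩ := ih (by omega) (by simpa using h2)
      refine ⟨r + 1, ?_⟩
      rw [xr_succ, hr]
      have : c = 0 := by omega
      rw [this]

lemma ones_one (l : List Blk) (h1 : cont l = 0) (h2 : ones l = 1) : ∃ q r, l = w1 q r := by
  induction l with
  | nil => simp [ones] at h2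
  | cons b t ih =>
    obtain ⟨lb, c⟩ := b
    rw [cont_cons] at h1
    rw [ones_cons] at h2
    simp only at h1 h2
    have hc : c = 0 := by omega
    subst hc
    cases lb
    · obtain ⟨r, hr⟩ := ones_zero t (by omega) (by simpa using h2)
      exact ⟨0, r, by rw [w1_zero, hr]⟩
    · obtain ⟨q, r, hr⟩ := ih (by omega) (by simpa using h2)
      exact ⟨q + 1, r, by rw [w1_succ, hr]⟩

lemma ones_two (l : List Blk) (h1 : cont l = 0) (h2 : ones l = 2) : ∃ p q r, l = w2 p q r := by
  induction l with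
  | nil => simp [ones] at h2
  | cons b t ih =>
    obtain ⟨lb, c⟩ := b
    rw [cont_cons] at h1
    rw [ones_cons] at h2
    simp only at h1 h2
    have hc : c = 0 := by omega
    subst hc
    cases lb
    · obtain ⟨q, r, hr⟩ := ones_one t (by omega) (by simp at h2; omega)
      exact ⟨0, q, r, by rw [w2_zero, hr]⟩
    · obtain ⟨p, q, r, hr⟩ := ih (by omega) (by simpa using h2)
      exact ⟨p + 1, q, r, by rw [w2_succ, hr]⟩

/-- the entries of the eigenvector -/
noncomputable def Psi (n p q : ℕ) : ℝ :=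
  sg q * (Real.cos (((p : ℝ) + 1 / 2) * (π / (n + 2))) - Real.cos (((p : ℝ) + q + 5 / 2) * (π / (n + 2))))

/-- the eigenvector, as a function of lists -/
noncomputable def Fv (n : ℕ) (l : List Blk) : ℝ :=
  if cont l = 0 ∧ ones l = 2 then Psi n (nX l) (nX (tl1 l)) else 0

lemma Fv_w2 (n p q r : ℕ) : Fv n (w2 p q r) = Psi n p q := by
  unfold Fv
  rw [if_pos ⟨(inv_w2 p q r).1, (inv_w2 p q r).2.1⟩]
  have h1 : nX (w2 p q r) = p := nX_xr p _
  have h2 : tl1 (w2 p q r) = w1 q r := tl1_xr p _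
  have h3 : nX (w1 q r) = q := nX_xr q _
  rw [h1, h2, h3]

lemma Psi_eq (n p q r : ℕ) (h : p + q + r + 1 = n) :
    (if p = 0 then 0 else Psi n p q + Psi n (p - 1) (q + 1))
      + (if q = 0 then Psi n p q
        else Psi n p q + Psi n (p + 1) (q - 1) + (Psi n p q + Psi n p (q - 1)))
      + (if r = 0 then 0 else Psi n p q + Psi n p (q + 1)) = gam n * Psi n p q := by
  have hn : ((n : ℝ) + 2) ≠ 0 := by positivity
  set θ := π / ((n : ℝ) + 2) with hθ
  have hnθ : ((n : ℝ) + 2) * θ = π := by rw [hθ]; field_simp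
  -- three term relations
  have rel : ∀ x : ℝ, Real.cos (x * θ - θ) + Real.cos (x * θ + θ) = 2 * Real.cos θ * Real.cos (x * θ) := by
    intro x
    rw [Real.cos_sub, Real.cos_add]; ring
  have hA := rel ((p : ℝ) + 1 / 2)
  have hB := rel ((p : ℝ) + q + 5 / 2)
  unfold Psi gam
  rw [← hθ]
  have hsg : sg (q + 1) = - sg q := by rw [sg_add, sg_one]; ring
  -- the first group
  have g1 : (if p = 0 then 0 else
      sg q * (Real.cos (((p : ℝ) + 1 / 2) * θ) - Real.cos (((p : ℝ) + q + 5 / 2) * θ)) +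
      sg (q + 1) * (Real.cos ((((p - 1 : ℕ) : ℝ) + 1 / 2) * θ) -
        Real.cos ((((p - 1 : ℕ) : ℝ) + ((q + 1 : ℕ) : ℝ) + 5 / 2) * θ))) =
      sg q * (Real.cos (((p : ℝ) + 1 / 2) * θ) - Real.cos (((p : ℝ) + 1 / 2) * θ - θ)) := by
    cases p with
    | zero =>
      rw [if_pos rfl]
      have : Real.cos ((((0 : ℕ) : ℝ) + 1 / 2) * θ - θ) = Real.cos ((((0 : ℕ) : ℝ) + 1 / 2) * θ) := by
        rw [← Real.cos_neg]
        congr 1
        push_cast
        ring
      rw [this]; ring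
    | succ p =>
      rw [if_neg (by omega), hsg]
      have e1 : (((p + 1 - 1 : ℕ) : ℝ) + 1 / 2) * θ = (((p + 1 : ℕ) : ℝ) + 1 / 2) * θ - θ := by
        push_cast [Nat.add_sub_cancel]; ring
      have e2 : (((p + 1 - 1 : ℕ) : ℝ) + ((q + 1 : ℕ) : ℝ) + 5 / 2) * θ =
          (((p + 1 : ℕ) : ℝ) + q + 5 / 2) * θ := by
        push_cast [Nat.add_sub_cancel]; ring
      rw [e1, e2]; ring
  have g3 : (if r = 0 then 0 else
      sg q * (Real.cos (((p : ℝ) + 1 / 2) * θ) - Real.cos (((p : ℝ) + q + 5 / 2) * θ)) +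
      sg (q + 1) * (Real.cos (((p : ℝ) + 1 / 2) * θ) -
        Real.cos (((p : ℝ) + ((q + 1 : ℕ) : ℝ) + 5 / 2) * θ))) =
      sg q * (Real.cos (((p : ℝ) + q + 5 / 2) * θ + θ) - Real.cos (((p : ℝ) + q + 5 / 2) * θ)) := by
    cases r with
    | zero =>
      rw [if_pos rfl]
      have hpq : (p : ℝ) + q + 1 = n := by
        have : p + q + 1 = n := by omega
        exact_mod_cast this
      have : Real.cos (((p : ℝ) + q + 5 / 2) * θ + θ) = Real.cos (((p : ℝ) + q + 5 / 2) * θ) := by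
        have e1 : ((p : ℝ) + q + 5 / 2) * θ = π - θ / 2 := by
          have : (p : ℝ) + q + 5 / 2 = (n + 2) - 1 / 2 := by linarith
          rw [this, sub_mul, hnθ]; ring
        rw [e1]
        have e2 : π - θ / 2 + θ = π + θ / 2 := by ring
        rw [e2, Real.cos_pi_sub, Real.cos_add, Real.cos_pi, Real.sin_pi]
        ring
      rw [this]; ring
    | succ r =>
      rw [if_neg (by omega), hsg]
      have e2 : ((p : ℝ) + ((q + 1 : ℕ) : ℝ) + 5 / 2) * θ =
          ((p : ℝ) + q + 5 / 2) * θ + θ := by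
        push_cast; ring
      rw [e2]; ring
  have g2 : (if q = 0 then
      sg q * (Real.cos (((p : ℝ) + 1 / 2) * θ) - Real.cos (((p : ℝ) + q + 5 / 2) * θ))
      else
      sg q * (Real.cos (((p : ℝ) + 1 / 2) * θ) - Real.cos (((p : ℝ) + q + 5 / 2) * θ)) +
      sg (q - 1) * (Real.cos ((((p + 1 : ℕ) : ℝ) + 1 / 2) * θ) -
        Real.cos ((((p + 1 : ℕ) : ℝ) + ((q - 1 : ℕ) : ℝ) + 5 / 2) * θ)) +
      (sg q * (Real.cos (((p : ℝ) + 1 / 2) * θ) - Real.cos (((p : ℝ) + q + 5 / 2) * θ)) +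
      sg (q - 1) * (Real.cos (((p : ℝ) + 1 / 2) * θ) -
        Real.cos (((p : ℝ) + ((q - 1 : ℕ) : ℝ) + 5 / 2) * θ)))) =
      sg q * ((Real.cos (((p : ℝ) + 1 / 2) * θ) - Real.cos (((p : ℝ) + 1 / 2) * θ + θ)) +
        (Real.cos (((p : ℝ) + q + 5 / 2) * θ - θ) - Real.cos (((p : ℝ) + q + 5 / 2) * θ))) := by
    cases q with
    | zero =>
      rw [if_pos rfl]
      have e : ((p : ℝ) + 1 / 2) * θ + θ = ((p : ℝ) + ((0 : ℕ) : ℝ) + 5 / 2) * θ - θ := by
        push_cast; ring
      rw [e]; ring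
    | succ q =>
      rw [if_neg (by omega)]
      have hs2 : sg (q + 1 - 1) = - sg (q + 1) := by
        rw [Nat.add_sub_cancel, sg_add, sg_one]; ring
      rw [hs2]
      have e1 : (((p + 1 : ℕ) : ℝ) + 1 / 2) * θ = ((p : ℝ) + 1 / 2) * θ + θ := by push_cast; ring
      have e2 : (((p + 1 : ℕ) : ℝ) + ((q + 1 - 1 : ℕ) : ℝ) + 5 / 2) * θ =
          ((p : ℝ) + ((q + 1 : ℕ) : ℝ) + 5 / 2) * θ := by
        push_cast [Nat.add_sub_cancel]; ring
      have e3 : ((p : ℝ) + ((q + 1 - 1 : ℕ) : ℝ) + 5 / 2) * θ =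
          ((p : ℝ) + ((q + 1 : ℕ) : ℝ) + 5 / 2) * θ - θ := by
        push_cast [Nat.add_sub_cancel]; ring
      rw [e1, e2, e3]; ring
  rw [g1, g2, g3]
  linear_combination (-sg q) * hA + sg q * hB

/-- the eigenvalue equation -/
lemma LL_Fv (n : ℕ) (l : List Blk) (h1 : cont l = 0) (h2 : ones l = 2) (h3 : size l = n + 1) :
    LL l (Fv n) = gam n * Fv n l := by
  obtain ⟨p, q, r, rfl⟩ := ones_two l h1 h2
  have h4 : p + q + r + 1 = n := by
    rw [size_eq] at h3
    obtain ⟨h5, h6, h7⟩ := inv_w2 p q r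
    omega
  rw [LL_w2]
  simp only [Fv_w2]
  exact Psi_eq n p q r h4

end Pool.Agent.Helper55.Kh
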