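import Pool.Agent.Helper55.Kh.Exist

/-!
# The minimal gap of the Khovanov Laplacian of `TU_n`
-/

namespace Pool.Agent.Helper55.Kh

open Matrix Real

lemma supp_lap {n : ℕ} {k m p : ℕ} {ψ : Gen n → ℝ} (h : Supp k m p ψ) :
    Supp k m p ((lap n) *ᵥ ψ) := by
  have h1 : Supp k m p (diff n *ᵥ ((diff n)ᵀ *ᵥ ψ)) := by
    cases k with
    | zero =>
      rw [supp_V0 h, Matrix.mulVec_zero]
      intro s hs
      exact absurd rfl hs
    | succ k => exact supp_U' (supp_V' h)
  have h2 : Supp k m p ((diff n)ᵀ *ᵥ (diff n *ᵥ ψ)) := by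
    cases m with
    | zero =>
      rw [supp_U0 h, Matrix.mulVec_zero]
      intro s hs
      exact absurd rfl hs
    | succ m => exact supp_V' (supp_U' h)
  intro s hs
  rw [lap_apply] at hs
  by_cases h3 : (diff n *ᵥ ((diff n)ᵀ *ᵥ ψ)) s = 0
  · apply h2
    intro h4
    apply hs
    rw [Pi.add_apply, h3, h4, add_zero]
  · exact h1 s h3

/-- the block acts as the Laplacian on functions supported on the block -/
lemma block_mulVec {n k : ℕ} {j : ℤ} (f : Gen n → ℝ) (hf : ∀ t, ¬ (hdeg t = k ∧ qdeg t = j) → f t = 0)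
    (s : {s : Gen n // hdeg s = k ∧ qdeg s = j}) :
    (block n k j *ᵥ (fun t => f t.1)) s = ((lap n) *ᵥ f) s.1 := by
  simp only [Matrix.mulVec, dotProduct, block, Matrix.submatrix_apply]
  rw [← Fintype.sum_subtype_add_sum_subtype (fun t : Gen n => hdeg t = k ∧ qdeg t = j)
    (fun t => lap n s.1 t * f t)]
  have h0 : ∑ t : {t : Gen n // ¬ (hdeg t = k ∧ qdeg t = j)}, lap n s.1 t.1 * f t.1 = 0 := by
    apply Finset.sum_eq_zero
    intro t _
    rw [hf t.1 t.2, mul_zero]
  rw [h0, add_zero]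

theorem lower_block {n k : ℕ} {j : ℤ} {μ : ℝ} (hμ : μ ∈ nonzeroEigenvalues n k j) : gam n ≤ μ := by
  obtain ⟨hμ0, v, hv0, hv⟩ := hμ
  classical
  set ψ : Gen n → ℝ := fun s => if h : hdeg s = k ∧ qdeg s = j then v ⟨s, h⟩ else 0 with hψ
  have hoff : ∀ t, ¬ (hdeg t = k ∧ qdeg t = j) → ψ t = 0 := by
    intro t ht
    simp only [hψ]
    rw [dif_neg ht]
  have hon : (fun t : {s : Gen n // hdeg s = k ∧ qdeg s = j} => ψ t.1) = v := by
    funext t
    simp only [hψ]
    rw [dif_pos t.2]
  obtain ⟨s0, hs0⟩ := Function.ne_iff.mp hv0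
  have hψ0 : ψ ≠ 0 := by
    intro h
    apply hs0
    rw [← hon, h]
    rfl
  have hsupp : Supp k (ones (blk s0.1)) (xs (blk s0.1)) ψ := by
    intro s hs
    have hs' : hdeg s = k ∧ qdeg s = j := by
      by_contra hcon
      exact hs (hoff s hcon)
    have h1 := s0.2
    have e1 := hdeg_eq s
    have e2 := qdeg_eq s
    have e3 := hdeg_eq s0.1
    have e4 := qdeg_eq s0.1
    have e5 := size_blk s
    have e6 := size_blk s0.1
    rw [size_eq] at e5 e6
    omega
  have hev : (lap n) *ᵥ ψ = μ • ψ := by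
    funext s
    by_cases hs : hdeg s = k ∧ qdeg s = j
    · have h1 := block_mulVec ψ hoff ⟨s, hs⟩
      rw [hon, hv] at h1
      rw [← h1, Pi.smul_apply, Pi.smul_apply]
      congr 1
      simp only [hψ]
      rw [dif_pos hs]
    · rw [Pi.smul_apply, hoff s hs, smul_zero]
      by_contra hcon
      have h1 := supp_lap hsupp s hcon
      apply hs
      have e1 := hdeg_eq s
      have e2 := qdeg_eq s
      have e3 := hdeg_eq s0.1
      have e4 := qdeg_eq s0.1
      have h2 := s0.2
      constructor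
      · omega
      · omega
  exact lower k _ _ ψ hψ0 hsupp μ hμ0 hev

lemma gam_pos (n : ℕ) : 0 < gam n := by
  unfold gam
  have h1 : Real.cos (π / ((n : ℝ) + 2)) < Real.cos 0 := by
    apply Real.cos_lt_cos_of_nonneg_of_le_pi (le_refl _)
    · rw [div_le_iff₀ (by positivity)]
      have : (0 : ℝ) ≤ n := Nat.cast_nonneg _
      nlinarith [Real.pi_pos]
    · exact theta_pos n
  rw [Real.cos_zero] at h1
  linarith

theorem mem_block {n : ℕ} (hn : 1 ≤ n) : gam n ∈ nonzeroEigenvalues n 0 (3 - n) := by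
  refine ⟨(gam_pos n).ne', fun t => Fv n (blk t.1), ?_, ?_⟩
  · -- nonzero
    obtain ⟨s0, hs0⟩ := blk_surj n (w2 0 0 (n - 1)) (by
      rw [size_eq]
      obtain ⟨h1, h2, h3⟩ := inv_w2 0 0 (n - 1)
      omega)
    obtain ⟨h1, h2, h3⟩ := inv_w2 0 0 (n - 1)
    have hd : hdeg s0 = 0 ∧ qdeg s0 = 3 - n := by
      rw [hdeg_eq, qdeg_eq, hs0, h1, h2, h3]
      constructor
      · rfl
      · omega
    intro h
    have h4 := congrFun h ⟨s0, hd⟩
    simp only [hs0, Pi.zero_apply] at h4
    rw [Fv_w2] at h4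
    unfold Psi at h4
    rw [sg_zero, one_mul] at h4
    have hn' : (1 : ℝ) ≤ n := by exact_mod_cast hn
    have hθ := theta_pos n
    have h5 : Real.cos ((((0 : ℕ) : ℝ) + ((0 : ℕ) : ℝ) + 5 / 2) * (π / (n + 2))) <
        Real.cos ((((0 : ℕ) : ℝ) + 1 / 2) * (π / (n + 2))) := by
      apply Real.cos_lt_cos_of_nonneg_of_le_pi
      · positivity
      · have h6 : ((n : ℝ) + 2) * (π / (n + 2)) = π := by
          have : ((n : ℝ) + 2) ≠ 0 := by positivity
          field_simp
        push_cast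
        nlinarith
      · push_cast
        nlinarith
    linarith
  · funext s
    have h1 := block_mulVec (k := 0) (j := 3 - (n : ℤ)) (fun t => Fv n (blk t)) (by
      intro t ht
      unfold Fv
      rw [if_neg]
      rintro ⟨h1, h2⟩
      apply ht
      have e1 := hdeg_eq t
      have e2 := qdeg_eq t
      have e5 := size_blk t
      rw [size_eq] at e5
      constructor
      · omega
      · omega) s
    rw [h1]
    have h2 : ((lap n) *ᵥ (fun t => Fv n (blk t))) s.1 = LL (blk s.1) (Fv n) := by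
      rw [← lap_LL]
      rfl
    have e1 := hdeg_eq s.1
    have e2 := qdeg_eq s.1
    have e5 := size_blk s.1
    have e6 := s.2
    have e7 := size_blk s.1
    rw [size_eq] at e7
    rw [h2, LL_Fv n (blk s.1) (by omega) (by omega) e5]
    rfl

lemma finite_nonzeroEigenvalues (n k : ℕ) (j : ℤ) : (nonzeroEigenvalues n k j).Finite := by
  apply (Module.End.finite_hasEigenvalue (Matrix.toLin' (block n k j))).subset
  rintro μ ⟨-, v, hv0, hv⟩
  exact Module.End.hasEigenvalue_of_hasEigenvector (x := v)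
    ⟨Module.End.mem_eigenspace_iff.mpr (by rw [Matrix.toLin'_apply]; exact hv), hv0⟩

lemma block_symm (n k : ℕ) (j : ℤ) : (block n k j).IsHermitian := by
  unfold Matrix.IsHermitian
  rw [Matrix.conjTranspose_eq_transpose_of_trivial]
  unfold block
  rw [Matrix.transpose_submatrix, lap_symm]

lemma nonempty_nonzeroEigenvalues {n k : ℕ} {j : ℤ} (h : block n k j ≠ 0) :
    (nonzeroEigenvalues n k j).Nonempty := by
  classical
  have hH := block_symm n k j
  have h1 : hH.eigenvalues ≠ 0 := fun h' => h (hH.eigenvalues_eq_zero_iff.mp h')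
  obtain ⟨i, hi⟩ := Function.ne_iff.mp h1
  refine ⟨hH.eigenvalues i, hi, (hH.eigenvectorBasis i).ofLp, ?_, ?_⟩
  · intro h2
    have h3 := (hH.eigenvectorBasis).orthonormal.ne_zero i
    apply h3
    apply WithLp.ofLp_injective
    rw [h2]; rfl
  · have := hH.mulVec_eigenvectorBasis i
    simpa using this

end Pool.Agent.Helper55.Kh
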