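import Pool.Agent.Helper55.Kh.Bridge3

/-!
# The lower bound for the nonzero eigenvalues
-/

namespace Pool.Agent.Helper55.Kh

/-! ### Supports -/

lemma V_congr' (l : List Blk) (f g : List Blk → ℝ)
    (H : ∀ s, cont s = cont l + 1 → ones s + 1 = ones l → xs s = xs l → f s = g s) :
    V l f = V l g := by
  induction l generalizing f g with
  | nil => simp [V]
  | cons b t ih =>
    cases t with
    | nil => simp [V]
    | cons b' t =>
      simp only [V]
      rw [ih (fun u => f (b :: u)) (fun u => g (b :: u)) (fun s h1 h2 h3 => H _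
        (by rw [cont_cons b s, cont_cons b (b' :: t)]; omega)
        (by rw [ones_cons b s, ones_cons b (b' :: t)]; omega)
        (by rw [xs_cons b s, xs_cons b (b' :: t)]; omega))]
      congr 2
      simp only [mrg]
      by_cases h : (b.1 && b'.1) = true
      · simp [h]
      · rw [if_neg h, if_neg h]
        obtain ⟨l0, a⟩ := b
        obtain ⟨l1, c⟩ := b'
        apply H
        · simp only [cont_cons]; omega
        · simp only [ones_cons]
          cases l0 <;> cases l1 <;> simp at h ⊢ <;> omega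
        · simp only [xs_cons]
          cases l0 <;> cases l1 <;> simp at h ⊢

lemma U_congr' (l : List Blk) (f g : List Blk → ℝ)
    (H : ∀ s, cont s + 1 = cont l → ones s = ones l + 1 → xs s = xs l → f s = g s) :
    U l f = U l g := by
  induction l generalizing f g with
  | nil => simp [U]
  | cons b t ih =>
    simp only [U]
    rw [ih (fun u => f (b :: u)) (fun u => g (b :: u)) (fun s h1 h2 h3 => H _
        (by rw [cont_cons, cont_cons]; omega)
        (by rw [ones_cons, ones_cons]; omega)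
        (by rw [xs_cons, xs_cons]; omega))]
    congr 1
    apply spl_congr
    intro x y hxy h1 h2
    congr 1
    obtain ⟨l0, a⟩ := b
    obtain ⟨lx, i⟩ := x
    obtain ⟨ly, j⟩ := y
    simp only at hxy h1 h2
    apply H
    · simp only [cont_cons]; omega
    · simp only [ones_cons]
      subst h1
      cases lx <;> cases ly <;> simp at h2 ⊢ <;> omega
    · simp only [xs_cons]
      subst h1
      cases lx <;> cases ly <;> simp at h2 ⊢

/-- a function on `Gen n` is supported on the sector `(k, m, p)` -/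
def Supp {n : ℕ} (k m p : ℕ) (ψ : Gen n → ℝ) : Prop :=
  ∀ s, ψ s ≠ 0 → cont (blk s) = k ∧ ones (blk s) = m ∧ xs (blk s) = p

/-- right inverse to `blk` -/
noncomputable def gen (n : ℕ) : List Blk → Gen n :=
  haveI : Nonempty (Gen n) := ⟨⟨(fun _ => false, fun _ => false), by simp⟩⟩
  Function.invFun blk

lemma gen_blk {n : ℕ} (s : Gen n) : gen n (blk s) = s := by
  have : Nonempty (Gen n) := ⟨s⟩
  exact Function.leftInverse_invFun (blk_injective n) s

open Matrix

lemma mulVec_V {n : ℕ} (ψ : Gen n → ℝ) (s : Gen n) :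
    ((diff n)ᵀ *ᵥ ψ) s = V (blk s) (fun u => ψ (gen n u)) := by
  rw [← diff_V]
  simp only [Matrix.mulVec, dotProduct, Matrix.transpose_apply, gen_blk]

lemma mulVec_U {n : ℕ} (ψ : Gen n → ℝ) (s : Gen n) :
    ((diff n) *ᵥ ψ) s = U (blk s) (fun u => ψ (gen n u)) := by
  rw [← diff_U]
  simp only [Matrix.mulVec, dotProduct, gen_blk]

lemma mulVec_L {n : ℕ} (ψ : Gen n → ℝ) (s : Gen n) :
    ((lap n) *ᵥ ψ) s = LL (blk s) (fun u => ψ (gen n u)) := by
  rw [← lap_LL]
  simp only [Matrix.mulVec, dotProduct, gen_blk]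

lemma diffT_sq (n : ℕ) : (diff n)ᵀ * (diff n)ᵀ = 0 := by
  ext s t
  rw [Matrix.mul_apply]
  simp only [Matrix.transpose_apply, Matrix.zero_apply]
  have h := VV (blk s) (dl (blk t))
  rw [← diff_V] at h
  rw [← h]
  apply Finset.sum_congr rfl
  intro u _
  rw [diff_entry t u]

lemma diff_sq (n : ℕ) : diff n * diff n = 0 := by
  have := congrArg Matrix.transpose (diffT_sq n)
  simpa [Matrix.transpose_mul] using this

lemma lap_symm (n : ℕ) : (lap n)ᵀ = lap n := by
  unfold lap
  simp [Matrix.transpose_mul]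

lemma gen_size {n : ℕ} (u : List Blk) (h : size u = n + 1) : blk (gen n u) = u := by
  obtain ⟨s, hs⟩ := blk_surj n u h
  rw [← hs, gen_blk]

lemma size_eq (u : List Blk) : size u = cont u + ones u + xs u := by
  induction u with
  | nil => simp [size, cont, ones, xs]
  | cons b t ih =>
    rw [size_cons, cont_cons, ones_cons, xs_cons, ih]
    split_ifs <;> omega

lemma supp_V {n : ℕ} {k m p : ℕ} {ψ : Gen n → ℝ} (h : Supp k m p ψ) (s : Gen n)
    (hs : ((diff n)ᵀ *ᵥ ψ) s ≠ 0) :
    cont (blk s) + 1 = k ∧ ones (blk s) = m + 1 ∧ xs (blk s) = p := by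
  by_contra hcon
  apply hs
  rw [mulVec_V, ← V_zero (blk s)]
  apply V_congr'
  intro u h1 h2 h3
  by_contra h4
  have h5 := h _ h4
  have hu : size u = n + 1 := by
    rw [size_eq, h1, h3]
    have := size_blk s
    rw [size_eq] at this
    omega
  rw [gen_size u hu] at h5
  exact hcon ⟨by omega, by omega, by omega⟩

lemma supp_U {n : ℕ} {k m p : ℕ} {ψ : Gen n → ℝ} (h : Supp k m p ψ) (s : Gen n)
    (hs : ((diff n) *ᵥ ψ) s ≠ 0) :
    cont (blk s) = k + 1 ∧ ones (blk s) + 1 = m ∧ xs (blk s) = p := by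
  by_contra hcon
  apply hs
  rw [mulVec_U, ← U_zero (blk s)]
  apply U_congr'
  intro u h1 h2 h3
  by_contra h4
  have h5 := h _ h4
  have hu : size u = n + 1 := by
    rw [size_eq, h2, h3]
    have := size_blk s
    rw [size_eq] at this
    omega
  rw [gen_size u hu] at h5
  exact hcon ⟨by omega, by omega, by omega⟩

/-! ### The certificates -/

/-- the Laplacian minus its diagonal part -/
noncomputable def lapo (n : ℕ) (s t : Gen n) : ℝ := lap n s t - (if s = t then Dg (blk s) else 0)

lemma row_abs {n : ℕ} (s : Gen n) (F : List Blk → ℝ) (hF : ∀ u, 0 ≤ F u) :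
    ∑ t, |lapo n s t| * F (blk t) ≤ Mv (blk s) F := by
  set f : List Blk → ℝ := fun u => (if 0 ≤ lapo n s (gen n u) then 1 else -1) * F u with hf
  have h1 : ∀ t : Gen n, |lapo n s t| * F (blk t) = lapo n s t * f (blk t) := by
    intro t
    simp only [hf, gen_blk]
    split_ifs with h
    · rw [abs_of_nonneg h]; ring
    · rw [abs_of_neg (not_le.mp h)]; ring
  rw [Finset.sum_congr rfl (fun t _ => h1 t)]
  have h2 : ∑ t, lapo n s t * f (blk t) = LL (blk s) f - Dg (blk s) * f (blk s) := by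
    rw [← lap_LL]
    unfold lapo
    simp only [sub_mul, Finset.sum_sub_distrib]
    congr 1
    rw [Finset.sum_eq_single s]
    · simp
    · intro t _ ht
      rw [if_neg (fun h => ht h.symm), zero_mul]
    · intro h; exact absurd (Finset.mem_univ _) h
  rw [h2]
  refine (le_abs_self _).trans ((row_bound _ _).trans (le_of_eq ?_))
  apply Mv_congr
  intro u _
  simp only [hf]
  rw [abs_mul, abs_of_nonneg (hF u)]
  split_ifs <;> simp

lemma adj_of_ne {n : ℕ} (s t : Gen n) (h : lapo n s t ≠ 0) : IsMv (blk s) (blk t) := by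
  by_contra hcon
  have h1 := row_abs s (dl (blk t)) (fun u => by unfold dl; split_ifs <;> norm_num)
  have h2 : Mv (blk s) (dl (blk t)) = 0 := by
    rw [← Mv_zero (blk s)]
    apply Mv_congr
    intro u hu
    unfold dl
    rw [if_neg]
    intro hut
    rw [hut] at hu
    exact hcon hu
  rw [h2, Finset.sum_eq_single t] at h1
  · have : dl (blk t) (blk t) = 1 := by simp [dl]
    rw [this, mul_one] at h1
    exact h (abs_nonpos_iff.mp h1)
  · intro u _ hu
    have : blk u ≠ blk t := fun h => hu (blk_injective n h)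
    simp [dl, this]
  · intro h; exact absurd (Finset.mem_univ _) h

lemma lapo_symm {n : ℕ} (s t : Gen n) : lapo n s t = lapo n t s := by
  unfold lapo
  have h : lap n s t = lap n t s := by
    have := congrFun (congrFun (lap_symm n) s) t
    rw [Matrix.transpose_apply] at this
    exact this.symm
  rw [h]
  by_cases hst : s = t
  · subst hst; rfl
  · rw [if_neg hst, if_neg (fun h => hst h.symm)]

/-- The abstract certificate. -/
theorem cert {n : ℕ} (Pset : Gen n → Prop) (b : List Blk → List Blk → ℝ) (γ : ℝ)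
    (hrow : ∀ s, Pset s → Mv (blk s) (b (blk s)) ≤ Dg (blk s) - γ)
    (hmove : ∀ s t, Pset s → Pset t → IsMv (blk s) (blk t) →
      1 ≤ b (blk s) (blk t) * b (blk t) (blk s))
    (hb : ∀ s u, Pset s → IsMv (blk s) u → 0 ≤ b (blk s) u)
    (ψ : Gen n → ℝ) (hψ : ψ ≠ 0) (hsupp : ∀ s, ψ s ≠ 0 → Pset s) (μ : ℝ)
    (hev : (lap n) *ᵥ ψ = μ • ψ) : γ ≤ μ := by
  -- row sums
  have hrow' : ∀ s, Pset s → ∑ t, |lapo n s t| * max (b (blk s) (blk t)) 0 ≤ Dg (blk s) - γ := by
    intro s hs
    refine (row_abs s (fun u => max (b (blk s) u) 0) (fun u => le_max_right _ _)).trans ?_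
    refine le_trans (le_of_eq ?_) (hrow s hs)
    apply Mv_congr
    intro u hu
    exact max_eq_left (hb s u hs hu)
  -- pair inequality
  have hpair : ∀ s t, |lapo n s t| * (|ψ s| * |ψ t|) ≤
      (|lapo n s t| * max (b (blk s) (blk t)) 0 * ψ s ^ 2 +
        |lapo n s t| * max (b (blk t) (blk s)) 0 * ψ t ^ 2) / 2 := by
    intro s t
    have hr1 : 0 ≤ |lapo n s t| * max (b (blk s) (blk t)) 0 * ψ s ^ 2 :=
      mul_nonneg (mul_nonneg (abs_nonneg _) (le_max_right _ _)) (sq_nonneg _)
    have hr2 : 0 ≤ |lapo n s t| * max (b (blk t) (blk s)) 0 * ψ t ^ 2 :=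
      mul_nonneg (mul_nonneg (abs_nonneg _) (le_max_right _ _)) (sq_nonneg _)
    by_cases h0 : ψ s = 0
    · rw [h0, abs_zero, zero_mul, mul_zero]
      rw [h0] at hr1
      linarith
    by_cases h0' : ψ t = 0
    · rw [h0', abs_zero, mul_zero, mul_zero]
      rw [h0'] at hr2
      linarith
    by_cases hl : lapo n s t = 0
    · rw [hl]; simp
    have hs := hsupp s h0
    have ht := hsupp t h0'
    have hm := adj_of_ne s t hl
    have hm' := adj_of_ne t s (by rw [lapo_symm]; exact hl)
    have hb1 := hb s _ hs hm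
    have hb2 := hb t _ ht hm'
    have hb3 := hmove s t hs ht hm
    rw [max_eq_left hb1, max_eq_left hb2]
    set p := b (blk s) (blk t) with hp
    set q := b (blk t) (blk s) with hq
    have key : |ψ s| * |ψ t| ≤ (p * ψ s ^ 2 + q * ψ t ^ 2) / 2 := by
      have h1 : (2 * (|ψ s| * |ψ t|)) ^ 2 ≤ (p * ψ s ^ 2 + q * ψ t ^ 2) ^ 2 := by
        have e1 : (|ψ s| * |ψ t|) ^ 2 = ψ s ^ 2 * ψ t ^ 2 := by
          rw [mul_pow, sq_abs, sq_abs]
        have h2 : 0 ≤ ψ s ^ 2 * ψ t ^ 2 := by positivity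
        nlinarith [sq_nonneg (p * ψ s ^ 2 - q * ψ t ^ 2), mul_le_mul_of_nonneg_right hb3 h2]
      have h3 : 0 ≤ p * ψ s ^ 2 + q * ψ t ^ 2 := by positivity
      have h4 := abs_le_of_sq_le_sq' h1 h3
      linarith [h4.2]
    have := mul_le_mul_of_nonneg_left key (abs_nonneg (lapo n s t))
    linarith
  -- the quadratic form
  have hq : μ * ∑ s, ψ s ^ 2 = ∑ s, Dg (blk s) * ψ s ^ 2 + ∑ s, ∑ t, lapo n s t * (ψ s * ψ t) := by
    have h1 : ∀ s, ψ s * ((lap n) *ᵥ ψ) s = Dg (blk s) * ψ s ^ 2 + ∑ t, lapo n s t * (ψ s * ψ t) := by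
      intro s
      simp only [Matrix.mulVec, dotProduct]
      rw [Finset.mul_sum]
      have h2 : ∀ t, ψ s * (lap n s t * ψ t) =
          (if s = t then Dg (blk s) else 0) * (ψ s * ψ t) + lapo n s t * (ψ s * ψ t) := by
        intro t
        unfold lapo
        ring
      rw [Finset.sum_congr rfl (fun t _ => h2 t), Finset.sum_add_distrib]
      congr 1
      rw [Finset.sum_eq_single s]
      · rw [if_pos rfl]; ring
      · intro t _ ht
        rw [if_neg (fun h => ht h.symm), zero_mul]
      · intro h; exact absurd (Finset.mem_univ _) h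
    rw [← Finset.sum_add_distrib, ← Finset.sum_congr rfl (fun s _ => h1 s), hev, Finset.mul_sum]
    apply Finset.sum_congr rfl
    intro s _
    simp only [Pi.smul_apply, smul_eq_mul]
    ring
  have hlow : - ∑ s, ∑ t, |lapo n s t| * max (b (blk s) (blk t)) 0 * ψ s ^ 2 ≤
      ∑ s, ∑ t, lapo n s t * (ψ s * ψ t) := by
    have h1 : - ∑ s, ∑ t, lapo n s t * (ψ s * ψ t) ≤
        ∑ s, ∑ t, (|lapo n s t| * max (b (blk s) (blk t)) 0 * ψ s ^ 2 +
        |lapo n s t| * max (b (blk t) (blk s)) 0 * ψ t ^ 2) / 2 := by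
      rw [← Finset.sum_neg_distrib]
      apply Finset.sum_le_sum
      intro s _
      rw [← Finset.sum_neg_distrib]
      apply Finset.sum_le_sum
      intro t _
      refine le_trans ?_ (hpair s t)
      rw [← abs_mul, ← abs_mul]
      exact neg_le_abs _
    have h2 : ∑ s, ∑ t, (|lapo n s t| * max (b (blk s) (blk t)) 0 * ψ s ^ 2 +
        |lapo n s t| * max (b (blk t) (blk s)) 0 * ψ t ^ 2) / 2 =
        ∑ s, ∑ t, |lapo n s t| * max (b (blk s) (blk t)) 0 * ψ s ^ 2 := by
      have h3 : ∑ s, ∑ t, |lapo n s t| * max (b (blk t) (blk s)) 0 * ψ t ^ 2 =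
          ∑ s, ∑ t, |lapo n s t| * max (b (blk s) (blk t)) 0 * ψ s ^ 2 := by
        rw [Finset.sum_comm]
        apply Finset.sum_congr rfl
        intro s _
        apply Finset.sum_congr rfl
        intro t _
        rw [lapo_symm t s]
      simp only [← Finset.sum_div, Finset.sum_add_distrib]
      rw [h3]
      ring
    rw [h2] at h1
    linarith
  have hrows : ∑ s, ∑ t, |lapo n s t| * max (b (blk s) (blk t)) 0 * ψ s ^ 2 ≤
      ∑ s, (Dg (blk s) - γ) * ψ s ^ 2 := by
    apply Finset.sum_le_sum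
    intro s _
    rw [← Finset.sum_mul]
    by_cases h0 : ψ s = 0
    · rw [h0]; simp
    · exact mul_le_mul_of_nonneg_right (hrow' s (hsupp s h0)) (sq_nonneg _)
  have hfin : γ * ∑ s, ψ s ^ 2 ≤ μ * ∑ s, ψ s ^ 2 := by
    rw [hq]
    have h5 : ∑ s, (Dg (blk s) - γ) * ψ s ^ 2 = ∑ s, Dg (blk s) * ψ s ^ 2 - γ * ∑ s, ψ s ^ 2 := by
      rw [Finset.mul_sum, ← Finset.sum_sub_distrib]
      apply Finset.sum_congr rfl
      intro s _
      ring
    linarith
  have hpos : 0 < ∑ s, ψ s ^ 2 := by
    obtain ⟨s0, hs0⟩ := Function.ne_iff.mp hψ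
    apply Finset.sum_pos'
    · intro s _; exact sq_nonneg _
    · exact ⟨s0, Finset.mem_univ _, by
        have : ψ s0 ≠ 0 := hs0
        positivity⟩
  exact le_of_mul_le_mul_right hfin hpos

end Pool.Agent.Helper55.Kh
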