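import Pool.Agent.Helper55.Kh.Lower

/-!
# The lower bound for the nonzero eigenvalues, assembly
-/

namespace Pool.Agent.Helper55.Kh

open Matrix Real

/-- the profile -/
noncomputable def prof (n : ℕ) (i : ℕ) : ℝ := if i ≤ n + 2 then Real.sin (i * (π / (n + 2))) else 0

/-- the gap -/
noncomputable def gam (n : ℕ) : ℝ := 2 - 2 * Real.cos (π / (n + 2))

lemma theta_pos (n : ℕ) : 0 < π / ((n : ℝ) + 2) := by positivity

lemma prof_nonneg (n i : ℕ) : 0 ≤ prof n i := by
  unfold prof
  split_ifs with h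
  · apply Real.sin_nonneg_of_nonneg_of_le_pi
    · have := theta_pos n; positivity
    · have h1 : (i : ℝ) ≤ n + 2 := by exact_mod_cast h
      have h2 : (i : ℝ) * (π / (n + 2)) ≤ (n + 2) * (π / (n + 2)) :=
        mul_le_mul_of_nonneg_right h1 (theta_pos n).le
      have h3 : ((n : ℝ) + 2) * (π / (n + 2)) = π := by
        have : ((n : ℝ) + 2) ≠ 0 := by positivity
        field_simp
      linarith
  · exact le_refl _

lemma prof_pos (n i : ℕ) (h1 : 1 ≤ i) (h2 : i < n + 2) : 0 < prof n i := by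
  unfold prof
  rw [if_pos h2.le]
  apply Real.sin_pos_of_pos_of_lt_pi
  · have := theta_pos n
    have h3 : (1 : ℝ) ≤ i := by exact_mod_cast h1
    positivity
  · have h1 : (i : ℝ) < n + 2 := by exact_mod_cast h2
    have h2 : (i : ℝ) * (π / (n + 2)) < (n + 2) * (π / (n + 2)) :=
      mul_lt_mul_of_pos_right h1 (theta_pos n)
    have h3 : ((n : ℝ) + 2) * (π / (n + 2)) = π := by
      have : ((n : ℝ) + 2) ≠ 0 := by positivity
      field_simp
    linarith

lemma prof_le_one (n i : ℕ) : prof n i ≤ 1 := by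
  unfold prof
  split_ifs
  · exact Real.sin_le_one _
  · norm_num

lemma prof_zero (n : ℕ) : prof n 0 = 0 := by
  unfold prof; simp

lemma prof_rec (n i : ℕ) (h : i + 2 ≤ n + 2) :
    2 * prof n (i + 1) - prof n i - prof n (i + 2) = gam n * prof n (i + 1) := by
  unfold prof gam
  rw [if_pos (by omega), if_pos (by omega), if_pos h]
  set θ := π / ((n : ℝ) + 2) with hθ
  have e1 : ((i : ℕ) : ℝ) * θ = ((i + 1 : ℕ) : ℝ) * θ - θ := by push_cast; ring
  have e2 : ((i + 2 : ℕ) : ℝ) * θ = ((i + 1 : ℕ) : ℝ) * θ + θ := by push_cast; ring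
  rw [e1, e2, Real.sin_sub, Real.sin_add]
  ring

lemma good_prof (n : ℕ) : Good (prof n) (gam n) (n + 2) :=
  ⟨prof_nonneg n, fun i h1 h2 => prof_pos n i h1 h2, fun i h => prof_rec n i h⟩

lemma slots_eq (u : List Blk) : slots u = xs u + 2 * ones u := by
  induction u with
  | nil => simp [slots, ones, xs]
  | cons b t ih =>
    rw [slots_cons, ones_cons, xs_cons, ih]
    split_ifs <;> omega

lemma IsMv_inv (s t : List Blk) (h : IsMv s t) : cont t = cont s ∧ ones t = ones s ∧ xs t = xs s := by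
  induction h with
  | pair b b' x y t h =>
    cases h with
    | xx a c i j h => simp only [cont_cons, ones_cons, xs_cons]; simp; omega
    | xn a c i j h hi => simp only [cont_cons, ones_cons, xs_cons]; simp; omega
    | nx a c i j h hj => simp only [cont_cons, ones_cons, xs_cons]; simp; omega
  | cons b s t h ih =>
    simp only [cont_cons, ones_cons, xs_cons, ih]
    simp

/-- sectors with `1 ≤ k`, `m ≤ k` -/
theorem lowerB {n : ℕ} (k m p : ℕ) (hk : 1 ≤ k) (hm : m ≤ k) (ψ : Gen n → ℝ) (hψ : ψ ≠ 0)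
    (hs : Supp k m p ψ) (μ : ℝ) (hev : (lap n) *ᵥ ψ = μ • ψ) : gam n ≤ μ := by
  obtain ⟨s0, hs0⟩ := Function.ne_iff.mp hψ
  have hsec := hs s0 hs0
  have hsize : n + 1 = k + m + p := by
    have := size_blk s0
    rw [size_eq] at this
    omega
  have hΦpos : ∀ u : List Blk, cont u = k → ones u = m → xs u = p → 0 < R u (mo (prof n) 1) := by
    intro u h1 h2 h3
    apply R_pos
    intro η h4 h5
    apply mo_pos
    intro i hi
    rw [h4, slots_eq] at hi
    exact prof_pos n _ (by omega) (by omega)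
  apply cert (fun s => cont (blk s) = k ∧ ones (blk s) = m ∧ xs (blk s) = p)
    (fun s t => R t (mo (prof n) 1) / R s (mo (prof n) 1)) (gam n) _ _ _ ψ hψ hs μ hev
  · rintro s ⟨h1, h2, h3⟩
    have hp := hΦpos _ h1 h2 h3
    have h4 := certB (prof n) (gam n) (prof_le_one n) (prof_zero n) (blk s) (prof_nonneg n)
      (fun i hi => prof_rec n i (by rw [slots_eq] at hi; omega)) (by omega)
    have h5 : Mv (blk s) (fun t => R t (mo (prof n) 1) / R (blk s) (mo (prof n) 1)) =
        (R (blk s) (mo (prof n) 1))⁻¹ * Mv (blk s) (fun t => R t (mo (prof n) 1)) := by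
      rw [← Mv_mul]
      apply Mv_congr
      intro t _
      rw [div_eq_inv_mul]
    rw [h5, inv_mul_le_iff₀ hp]
    linarith
  · rintro s t ⟨h1, h2, h3⟩ ⟨h4, h5, h6⟩ _
    have hp := hΦpos _ h1 h2 h3
    have hp' := hΦpos _ h4 h5 h6
    apply le_of_eq
    field_simp
  · rintro s u ⟨h1, h2, h3⟩ hu
    obtain ⟨e1, e2, e3⟩ := IsMv_inv _ _ hu
    have hp := hΦpos _ h1 h2 h3
    have hp' := hΦpos u (by omega) (by omega) (by omega)
    positivity

/-- sectors with `3 ≤ m`, `k + 1 ≤ m` -/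
theorem lowerC {n : ℕ} (k m p : ℕ) (hm : 3 ≤ m) (hk : k + 1 ≤ m) (ψ : Gen n → ℝ) (hψ : ψ ≠ 0)
    (hs : Supp k m p ψ) (μ : ℝ) (hev : (lap n) *ᵥ ψ = μ • ψ) : gam n ≤ μ := by
  obtain ⟨s0, hs0⟩ := Function.ne_iff.mp hψ
  have hsec := hs s0 hs0
  have hsize : n + 1 = k + m + p := by
    have := size_blk s0
    rw [size_eq] at this
    omega
  apply cert (fun s => cont (blk s) = k ∧ ones (blk s) = m ∧ xs (blk s) = p)
    (fun s t => bf (prof n) s t) (gam n) _ _ _ ψ hψ hs μ hev
  · rintro s ⟨h1, h2, h3⟩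
    exact certC_row (good_prof n) (blk s) (by omega) (by omega)
  · rintro s t ⟨h1, h2, h3⟩ ⟨h4, h5, h6⟩ hm
    exact (certC_move (good_prof n) _ _ hm (by omega)).2.2
  · rintro s u ⟨h1, h2, h3⟩ hu
    exact (certC_move (good_prof n) _ _ hu (by omega)).1

lemma supp_V' {n : ℕ} {k m p : ℕ} {ψ : Gen n → ℝ} (h : Supp (k + 1) m p ψ) :
    Supp k (m + 1) p ((diff n)ᵀ *ᵥ ψ) := by
  intro s hs
  have := supp_V h s hs
  exact ⟨by omega, by omega, by omega⟩

lemma supp_V0 {n : ℕ} {m p : ℕ} {ψ : Gen n → ℝ} (h : Supp 0 m p ψ) : (diff n)ᵀ *ᵥ ψ = 0 := by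
  funext s
  by_contra hs
  have := supp_V h s hs
  omega

lemma supp_U' {n : ℕ} {k m p : ℕ} {ψ : Gen n → ℝ} (h : Supp k (m + 1) p ψ) :
    Supp (k + 1) m p ((diff n) *ᵥ ψ) := by
  intro s hs
  have := supp_U h s hs
  exact ⟨by omega, by omega, by omega⟩

lemma supp_U0 {n : ℕ} {k p : ℕ} {ψ : Gen n → ℝ} (h : Supp k 0 p ψ) : (diff n) *ᵥ ψ = 0 := by
  funext s
  by_contra hs
  have := supp_U h s hs
  omega

lemma lap_diff (n : ℕ) : lap n * diff n = diff n * lap n := by
  unfold lap
  have h := diff_sq n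
  rw [Matrix.add_mul, Matrix.mul_add]
  have h1 : (diff n)ᵀ * diff n * diff n = 0 := by rw [Matrix.mul_assoc, h, Matrix.mul_zero]
  have h2 : diff n * (diff n * (diff n)ᵀ) = 0 := by rw [← Matrix.mul_assoc, h, Matrix.zero_mul]
  rw [h1, h2, add_zero, zero_add, Matrix.mul_assoc]

lemma lap_diffT (n : ℕ) : lap n * (diff n)ᵀ = (diff n)ᵀ * lap n := by
  have h := congrArg Matrix.transpose (lap_diff n)
  rw [Matrix.transpose_mul, Matrix.transpose_mul, lap_symm] at h
  exact h.symm

lemma lap_apply {n : ℕ} (ψ : Gen n → ℝ) :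
    (lap n) *ᵥ ψ = diff n *ᵥ ((diff n)ᵀ *ᵥ ψ) + (diff n)ᵀ *ᵥ (diff n *ᵥ ψ) := by
  unfold lap
  rw [Matrix.add_mulVec, Matrix.mulVec_mulVec, Matrix.mulVec_mulVec]

/-- **Lower bound.** Every nonzero eigenvalue is at least `2 - 2 cos (π / (n + 2))`. -/
theorem lower {n : ℕ} (k m p : ℕ) (ψ : Gen n → ℝ) (hψ : ψ ≠ 0)
    (hs : Supp k m p ψ) (μ : ℝ) (hμ : μ ≠ 0) (hev : (lap n) *ᵥ ψ = μ • ψ) : gam n ≤ μ := by
  by_cases h1 : 1 ≤ k ∧ m ≤ k
  · exact lowerB k m p h1.1 h1.2 ψ hψ hs μ hev
  by_cases h2 : 3 ≤ m ∧ k + 1 ≤ m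
  · exact lowerC k m p h2.1 h2.2 ψ hψ hs μ hev
  -- the remaining sectors are (0,0), (0,1), (0,2), (1,2)
  have hU : (lap n) *ᵥ (diff n *ᵥ ψ) = μ • (diff n *ᵥ ψ) := by
    rw [Matrix.mulVec_mulVec, lap_diff, ← Matrix.mulVec_mulVec, hev, Matrix.mulVec_smul]
  have hV : (lap n) *ᵥ ((diff n)ᵀ *ᵥ ψ) = μ • ((diff n)ᵀ *ᵥ ψ) := by
    rw [Matrix.mulVec_mulVec, lap_diffT, ← Matrix.mulVec_mulVec, hev, Matrix.mulVec_smul]
  have hne : ¬ (diff n *ᵥ ψ = 0 ∧ (diff n)ᵀ *ᵥ ψ = 0) := by
    rintro ⟨h3, h4⟩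
    rw [lap_apply, h3, h4, Matrix.mulVec_zero, Matrix.mulVec_zero, add_zero] at hev
    rcases smul_eq_zero.mp hev.symm with h | h
    · exact hμ h
    · exact hψ h
  have hcases : (k = 0 ∧ m = 0) ∨ (k = 0 ∧ m = 1) ∨ (k = 0 ∧ m = 2) ∨ (k = 1 ∧ m = 2) := by omega
  rcases hcases with ⟨rfl, rfl⟩ | ⟨rfl, rfl⟩ | ⟨rfl, rfl⟩ | ⟨rfl, rfl⟩
  · exact absurd ⟨supp_U0 hs, supp_V0 hs⟩ hne
  · have h3 : diff n *ᵥ ψ ≠ 0 := fun h => hne ⟨h, supp_V0 hs⟩
    exact lowerB 1 0 p (by norm_num) (by norm_num) _ h3 (supp_U' hs) μ hU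
  · have h3 : diff n *ᵥ ψ ≠ 0 := fun h => hne ⟨h, supp_V0 hs⟩
    exact lowerB 1 1 p (by norm_num) (by norm_num) _ h3 (supp_U' hs) μ hU
  · by_cases h3 : diff n *ᵥ ψ = 0
    · have h4 : (diff n)ᵀ *ᵥ ψ ≠ 0 := fun h => hne ⟨h3, h⟩
      exact lowerC 0 3 p (by norm_num) (by norm_num) _ h4 (supp_V' hs) μ hV
    · exact lowerB 2 1 p (by norm_num) (by norm_num) _ h3 (supp_U' hs) μ hU

/-! ### Degrees -/

lemma cont_bump (l : List Blk) (h : l ≠ []) : cont (bump l) = cont l + 1 := by
  cases l with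
  | nil => exact absurd rfl h
  | cons b t => simp only [bump, cont_cons]; omega

lemma ones_bump (l : List Blk) : ones (bump l) = ones l := by
  cases l with
  | nil => rfl
  | cons b t => simp only [bump, ones_cons]

lemma xs_bump (l : List Blk) : xs (bump l) = xs l := by
  cases l with
  | nil => rfl
  | cons b t => simp only [bump, xs_cons]

lemma hdeg_eq {n : ℕ} (s : Gen n) : hdeg s = cont (blk s) := by
  induction n with
  | zero => simp [hdeg, blk, cont]
  | succ n ih =>
    refine gen_cases (p := fun s => hdeg s = cont (blk s)) ?_ ?_ s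
    · intro s
      rw [blk_consT, cont_bump _ (blk_ne_nil s), ← ih s]
      unfold hdeg
      rw [Fin.card_filter_univ_succ, if_pos (by rfl)]
      rfl
    · intro x s
      rw [blk_consF, cont_cons, ← ih s]
      unfold hdeg
      rw [Fin.card_filter_univ_succ, if_neg (by simp)]
      simp only [zero_add]
      rfl

lemma qsum_eq {n : ℕ} (s : Gen n) :
    (∑ x ∈ Finset.univ.filter (fun x : Fin (n + 1) => ∀ i : Fin n, i.castSucc = x → s.res i = false),
      (if s.lab x then (-1 : ℤ) else 1)) = (ones (blk s) : ℤ) - xs (blk s) := by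
  induction n with
  | zero =>
    have : (Finset.univ.filter (fun x : Fin (0 + 1) => ∀ i : Fin 0, i.castSucc = x → s.res i = false)) =
        {0} := by
      ext x
      simp only [Finset.mem_filter, Finset.mem_univ, true_and, Finset.mem_singleton]
      constructor
      · intro _; exact Fin.ext (by have := x.2; simp)
      · intro _ i; exact i.elim0
    rw [this, Finset.sum_singleton]
    simp only [blk, ones, xs]
    cases s.lab 0 <;> simp
  | succ n ih =>
    have hsucc : ∀ (s : Gen n) (s' : Gen (n + 1)) (hr : ∀ i : Fin n, s'.res i.succ = s.res i)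
        (hl : ∀ x : Fin (n + 1), s'.lab x.succ = s.lab x),
        (∑ x ∈ Finset.univ.filter (fun x : Fin (n + 1 + 1) => ∀ i : Fin (n + 1), i.castSucc = x → s'.res i = false),
      (if s'.lab x then (-1 : ℤ) else 1)) =
        (if s'.res 0 then 0 else (if s'.lab 0 then (-1 : ℤ) else 1)) +
        (∑ x ∈ Finset.univ.filter (fun x : Fin (n + 1) => ∀ i : Fin n, i.castSucc = x → s.res i = false),
      (if s.lab x then (-1 : ℤ) else 1)) := by
      intro s s' hr hl
      rw [Finset.sum_filter, Finset.sum_filter, Fin.sum_univ_succ]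
      congr 1
      · by_cases h : s'.res 0 = true
        · rw [if_pos h, if_neg]
          intro h'
          have := h' 0 rfl
          rw [this] at h
          exact absurd h (by simp)
        · rw [if_neg h, if_pos]
          intro i hi
          have : i = 0 := by
            apply Fin.castSucc_injective
            rw [hi]; rfl
          rw [this]
          simpa using h
      · apply Finset.sum_congr rfl
        intro x _
        rw [hl x]
        congr 1
        apply propext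
        constructor
        · intro h i hi
          rw [← hr i]
          apply h i.succ
          rw [← hi, Fin.succ_castSucc]
        · intro h i
          refine Fin.cases ?_ (fun j => ?_) i
          · intro hi
            exfalso
            rw [Fin.castSucc_zero] at hi
            exact Fin.succ_ne_zero _ hi.symm
          · intro hi
            rw [hr j]
            apply h j
            rw [← Fin.succ_castSucc] at hi
            exact Fin.succ_injective _ hi
    refine gen_cases (p := fun s => (∑ x ∈ Finset.univ.filter (fun x : Fin (n + 1 + 1) =>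
      ∀ i : Fin (n + 1), i.castSucc = x → s.res i = false),
      (if s.lab x then (-1 : ℤ) else 1)) = (ones (blk s) : ℤ) - xs (blk s)) ?_ ?_ s
    · intro s
      rw [hsucc s (consT s) (fun i => rfl) (fun x => rfl), ih s, blk_consT, ones_bump, xs_bump]
      simp
    · intro x s
      rw [hsucc s (consF x s) (fun i => rfl) (fun x => rfl), ih s, blk_consF, ones_cons, xs_cons]
      cases x <;> simp <;> ring

lemma qdeg_eq {n : ℕ} (s : Gen n) : qdeg s = (ones (blk s) : ℤ) - xs (blk s) + cont (blk s) := by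
  unfold qdeg
  rw [qsum_eq, hdeg_eq]

end Pool.Agent.Helper55.Kh
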