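import Mathlib

/-!
# Operators on functions of lists of blocks
-/

namespace Pool.Agent.Helper55.Kh

/-- A block: its label (`true` is `X`, `false` is `𝟏`) and its content (number of original circles
in it, minus one). -/
abbrev Blk := Bool × ℕ

/-- sign -/
def sg (c : ℕ) : ℝ := (-1) ^ c

lemma sg_add (a b : ℕ) : sg (a + b) = sg a * sg b := pow_add _ _ _

lemma sg_one : sg 1 = -1 := by simp [sg]

lemma sg_zero : sg 0 = 1 := by simp [sg]

lemma sg_mul_self (a : ℕ) : sg a * sg a = 1 := by
  unfold sg; rw [← pow_add, ← two_mul, pow_mul]; simp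

lemma sg_abs (a : ℕ) : |sg a| = 1 := by
  unfold sg; rw [abs_pow]; simp

/-- merge the block `b` with the first block of the list -/
def mrg (b : Blk) (f : List Blk → ℝ) : List Blk → ℝ
  | [] => 0
  | b' :: t => if b.1 && b'.1 then 0 else f ((b.1 || b'.1, b.2 + b'.2 + 1) :: t)

/-- all merges of adjacent blocks, with signs -/
def V : List Blk → (List Blk → ℝ) → ℝ
  | [], _ => 0
  | [_], _ => 0
  | b :: b' :: t, f => sg b.2 * (mrg b f (b' :: t) + V (b' :: t) (fun u => f (b :: u)))

/-- sum over the splittings of a block -/
def spl (b : Blk) (g : Blk → Blk → ℝ) : ℝ :=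
  if b.1 then ∑ i ∈ Finset.range b.2, (g (true, i) (false, b.2 - 1 - i) + g (false, i) (true, b.2 - 1 - i))
  else ∑ i ∈ Finset.range b.2, g (false, i) (false, b.2 - 1 - i)

/-- all splittings of blocks, with signs -/
def U : List Blk → (List Blk → ℝ) → ℝ
  | [], _ => 0
  | b :: t, f => spl b (fun x y => sg x.2 * f (x :: y :: t)) + sg b.2 * U t (fun u => f (b :: u))

lemma spl_add (b : Blk) (g h : Blk → Blk → ℝ) :
    spl b (fun x y => g x y + h x y) = spl b g + spl b h := by
  unfold spl
  split_ifs
  · rw [← Finset.sum_add_distrib]; apply Finset.sum_congr rfl; intros; ring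
  · rw [← Finset.sum_add_distrib]

lemma spl_mul (b : Blk) (c : ℝ) (g : Blk → Blk → ℝ) :
    spl b (fun x y => c * g x y) = c * spl b g := by
  unfold spl
  split_ifs
  · rw [Finset.mul_sum]; apply Finset.sum_congr rfl; intros; ring
  · rw [Finset.mul_sum]

lemma spl_congr (b : Blk) (g h : Blk → Blk → ℝ)
    (H : ∀ x y : Blk, x.2 + y.2 + 1 = b.2 → (x.1 || y.1) = b.1 → (x.1 && y.1) = false → g x y = h x y) :
    spl b g = spl b h := by
  unfold spl
  split_ifs with hb
  · apply Finset.sum_congr rfl
    intro i hi
    rw [Finset.mem_range] at hi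
    rw [H (true, i) (false, b.2 - 1 - i) (by simp; omega) (by simp [hb]) (by simp),
      H (false, i) (true, b.2 - 1 - i) (by simp; omega) (by simp [hb]) (by simp)]
  · apply Finset.sum_congr rfl
    intro i hi
    rw [Finset.mem_range] at hi
    rw [H (false, i) (false, b.2 - 1 - i) (by simp; omega) (by simp [hb]) (by simp)]

lemma mrg_add (b : Blk) (f g : List Blk → ℝ) (l : List Blk) :
    mrg b (fun s => f s + g s) l = mrg b f l + mrg b g l := by
  cases l with
  | nil => simp [mrg]
  | cons b' t => simp only [mrg]; split_ifs <;> simp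

lemma mrg_mul (b : Blk) (c : ℝ) (f : List Blk → ℝ) (l : List Blk) :
    mrg b (fun s => c * f s) l = c * mrg b f l := by
  cases l with
  | nil => simp [mrg]
  | cons b' t => simp only [mrg]; split_ifs <;> simp

lemma V_add (l : List Blk) (f g : List Blk → ℝ) :
    V l (fun s => f s + g s) = V l f + V l g := by
  induction l generalizing f g with
  | nil => simp [V]
  | cons b t ih =>
    cases t with
    | nil => simp [V]
    | cons b' t =>
      simp only [V]
      rw [mrg_add, ih]
      ring

lemma V_mul (l : List Blk) (c : ℝ) (f : List Blk → ℝ) :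
    V l (fun s => c * f s) = c * V l f := by
  induction l generalizing f with
  | nil => simp [V]
  | cons b t ih =>
    cases t with
    | nil => simp [V]
    | cons b' t =>
      simp only [V]
      rw [mrg_mul, ih]
      ring

lemma U_add (l : List Blk) (f g : List Blk → ℝ) :
    U l (fun s => f s + g s) = U l f + U l g := by
  induction l generalizing f g with
  | nil => simp [U]
  | cons b t ih =>
    simp only [U]
    rw [ih]
    have : (fun x y : Blk => sg x.2 * (f (x :: y :: t) + g (x :: y :: t))) =
        (fun x y : Blk => sg x.2 * f (x :: y :: t) + sg x.2 * g (x :: y :: t)) := by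
      funext x y; ring
    rw [this, spl_add]
    ring

lemma U_mul (l : List Blk) (c : ℝ) (f : List Blk → ℝ) :
    U l (fun s => c * f s) = c * U l f := by
  induction l generalizing f with
  | nil => simp [U]
  | cons b t ih =>
    simp only [U]
    rw [ih]
    have : (fun x y : Blk => sg x.2 * (c * f (x :: y :: t))) =
        (fun x y : Blk => c * (sg x.2 * f (x :: y :: t))) := by
      funext x y; ring
    rw [this, spl_mul]
    ring

lemma V_zero (l : List Blk) : V l (fun _ => 0) = 0 := by
  have := V_mul l 0 (fun _ => 0)
  simpa using this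

lemma U_zero (l : List Blk) : U l (fun _ => 0) = 0 := by
  have := U_mul l 0 (fun _ => 0)
  simpa using this

lemma V_sum {ι : Type*} (s : Finset ι) (l : List Blk) (f : ι → List Blk → ℝ) :
    V l (fun u => ∑ i ∈ s, f i u) = ∑ i ∈ s, V l (f i) := by
  classical
  induction s using Finset.induction_on with
  | empty => simp [V_zero]
  | insert a s ha ih =>
    simp only [Finset.sum_insert ha]
    rw [V_add, ih]

lemma U_sum {ι : Type*} (s : Finset ι) (l : List Blk) (f : ι → List Blk → ℝ) :
    U l (fun u => ∑ i ∈ s, f i u) = ∑ i ∈ s, U l (f i) := by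
  classical
  induction s using Finset.induction_on with
  | empty => simp [U_zero]
  | insert a s ha ih =>
    simp only [Finset.sum_insert ha]
    rw [U_add, ih]

lemma V_spl (l : List Blk) (b : Blk) (f : Blk → Blk → List Blk → ℝ) :
    V l (fun u => spl b (fun x y => f x y u)) = spl b (fun x y => V l (f x y)) := by
  unfold spl
  split_ifs
  · rw [V_sum]; apply Finset.sum_congr rfl; intro i _; rw [V_add]
  · rw [V_sum]

/-- The Laplacian on functions of lists. -/
def LL (l : List Blk) (f : List Blk → ℝ) : ℝ :=
  U l (fun s => V s f) + V l (fun s => U s f)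

/-- size of a list of blocks: the number of original circles -/
def size (l : List Blk) : ℕ := (l.map (fun b => b.2 + 1)).sum

lemma size_nil : size [] = 0 := rfl
lemma size_cons (b : Blk) (l : List Blk) : size (b :: l) = b.2 + 1 + size l := by
  simp [size]

lemma mrg_congr (b : Blk) (f g : List Blk → ℝ) (l : List Blk)
    (H : ∀ s, size s = b.2 + 1 + size l → f s = g s) : mrg b f l = mrg b g l := by
  cases l with
  | nil => rfl
  | cons b' t =>
    simp only [mrg]
    split_ifs
    · rfl
    · apply H
      rw [size_cons, size_cons]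
      simp only
      omega

lemma V_congr (l : List Blk) (f g : List Blk → ℝ) (H : ∀ s, size s = size l → f s = g s) :
    V l f = V l g := by
  induction l generalizing f g with
  | nil => simp [V]
  | cons b t ih =>
    cases t with
    | nil => simp [V]
    | cons b' t =>
      simp only [V]
      rw [mrg_congr b f g (b' :: t) (fun s hs => H s (by rw [hs, ← size_cons])),
        ih (fun u => f (b :: u)) (fun u => g (b :: u)) (fun s hs => H _ (by rw [size_cons, hs, size_cons b]))]

lemma U_congr (l : List Blk) (f g : List Blk → ℝ) (H : ∀ s, size s = size l → f s = g s) :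
    U l f = U l g := by
  induction l generalizing f g with
  | nil => simp [U]
  | cons b t ih =>
    simp only [U]
    rw [ih (fun u => f (b :: u)) (fun u => g (b :: u)) (fun s hs => H _ (by rw [size_cons, hs, size_cons b])),
      spl_congr b _ (fun x y => sg x.2 * g (x :: y :: t))]
    intro x y hxy _ _
    rw [H _ (by rw [size_cons, size_cons, size_cons]; omega)]

/-- the local part of the Laplacian at two adjacent blocks -/
def P (b b' : Blk) (t : List Blk) (f : List Blk → ℝ) : ℝ :=
  spl b (fun x y => sg y.2 * mrg y (fun u => f (x :: u)) (b' :: t)) +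
  spl b' (fun x y => sg x.2 * mrg b f (x :: y :: t)) +
  sg b.2 * mrg b (fun s => match s with
    | [] => 0
    | μ :: t => spl μ (fun x y => sg x.2 * f (x :: y :: t))) (b' :: t)

/-- diagonal of a block -/
def dg (b : Blk) : ℝ := if b.1 then 2 * (b.2 : ℝ) else (b.2 : ℝ)

lemma spl_diag (b : Blk) (t : List Blk) (f : List Blk → ℝ) :
    spl b (fun x y => mrg x f (y :: t)) = dg b * f (b :: t) := by
  obtain ⟨lb, c⟩ := b
  have h : spl (lb, c) (fun x y => mrg x f (y :: t)) = spl (lb, c) (fun _ _ => f ((lb, c) :: t)) := by
    apply spl_congr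
    intro x y hxy h1 h2
    simp only [mrg, h2]
    simp only [Bool.false_eq_true, if_false]
    rw [h1]
    simp only at hxy ⊢
    rw [hxy]
  rw [h]
  unfold spl dg
  cases lb
  · simp
  · simp; ring

lemma LL_cons (b b' : Blk) (t : List Blk) (f : List Blk → ℝ) :
    LL (b :: b' :: t) f = dg b * f (b :: b' :: t) + P b b' t f + LL (b' :: t) (fun u => f (b :: u)) := by
  have hsq := sg_mul_self b.2
  -- the first half
  have h1 : U (b :: b' :: t) (fun s => V s f) =
      dg b * f (b :: b' :: t)
      + spl b (fun x y => sg y.2 * mrg y (fun u => f (x :: u)) (b' :: t))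
      + spl b (fun x y => sg y.2 * V (b' :: t) (fun u => f (x :: y :: u)))
      + spl b' (fun x y => sg x.2 * mrg b f (x :: y :: t))
      + spl b' (fun x y => sg x.2 * V (x :: y :: t) (fun u => f (b :: u)))
      + sg b'.2 * U t (fun u => mrg b f (b' :: u))
      + sg b'.2 * U t (fun u => V (b' :: u) (fun v => f (b :: v))) := by
    rw [← spl_diag]
    rw [U, U]
    have e1 : spl b (fun x y => sg x.2 * V (x :: y :: b' :: t) f) =
        spl b (fun x y => mrg x f (y :: b' :: t) +
          (sg y.2 * mrg y (fun u => f (x :: u)) (b' :: t) + sg y.2 * V (b' :: t) (fun u => f (x :: y :: u)))) := by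
      apply spl_congr
      intro x y _ _ _
      rw [V, V]
      have := sg_mul_self x.2
      linear_combination (mrg x f (y :: b' :: t) +
          (sg y.2 * mrg y (fun u => f (x :: u)) (b' :: t) + sg y.2 * V (b' :: t) (fun u => f (x :: y :: u)))) * this
    have e2 : spl b' (fun x y => sg x.2 * V (b :: x :: y :: t) f) =
        sg b.2 * (spl b' (fun x y => sg x.2 * mrg b f (x :: y :: t)) +
          spl b' (fun x y => sg x.2 * V (x :: y :: t) (fun u => f (b :: u)))) := by
      rw [← spl_add, ← spl_mul]
      apply spl_congr
      intro x y _ _ _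
      rw [V]
      ring
    have e3 : U t (fun u => V (b :: b' :: u) f) =
        sg b.2 * (U t (fun u => mrg b f (b' :: u)) + U t (fun u => V (b' :: u) (fun v => f (b :: v)))) := by
      rw [← U_add, ← U_mul]
      rfl
    rw [e1, e2, e3, spl_add, spl_add]
    linear_combination (spl b' (fun x y => sg x.2 * mrg b f (x :: y :: t)) +
          spl b' (fun x y => sg x.2 * V (x :: y :: t) (fun u => f (b :: u))) +
          sg b'.2 * (U t (fun u => mrg b f (b' :: u)) + U t (fun u => V (b' :: u) (fun v => f (b :: v))))) * hsq
  -- the second half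
  have h2 : V (b :: b' :: t) (fun s => U s f) =
      sg b.2 * mrg b (fun s => match s with
        | [] => 0
        | μ :: t => spl μ (fun x y => sg x.2 * f (x :: y :: t))) (b' :: t)
      - sg b'.2 * U t (fun u => mrg b f (b' :: u))
      - spl b (fun x y => sg y.2 * V (b' :: t) (fun u => f (x :: y :: u)))
      + V (b' :: t) (fun u => U u (fun v => f (b :: v))) := by
    rw [V]
    have e1 : mrg b (fun s => U s f) (b' :: t) =
        mrg b (fun s => match s with
        | [] => 0
        | μ :: t => spl μ (fun x y => sg x.2 * f (x :: y :: t))) (b' :: t)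
        - sg b.2 * sg b'.2 * U t (fun u => mrg b f (b' :: u)) := by
      simp only [mrg]
      by_cases hb : (b.1 && b'.1) = true
      · simp only [hb, if_true, U_zero, mul_zero, sub_zero]
      · simp only [hb, U]
        rw [sg_add, sg_add, sg_one]
        simp only [Bool.false_eq_true, if_false]
        ring
    have e2 : V (b' :: t) (fun u => U (b :: u) f) =
        - (sg b.2 * spl b (fun x y => sg y.2 * V (b' :: t) (fun u => f (x :: y :: u))))
        + sg b.2 * V (b' :: t) (fun u => U u (fun v => f (b :: v))) := by
      have e3 : V (b' :: t) (fun u => U (b :: u) f) =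
          V (b' :: t) (fun u => spl b (fun x y => sg x.2 * f (x :: y :: u)) +
            sg b.2 * U u (fun v => f (b :: v))) := rfl
      rw [e3, V_add, V_mul, V_spl, ← spl_mul]
      have e4 : spl b (fun x y => V (b' :: t) (fun u => sg x.2 * f (x :: y :: u))) =
          -spl b (fun x y => sg b.2 * (sg y.2 * V (b' :: t) (fun u => f (x :: y :: u)))) := by
        rw [← neg_one_mul, ← spl_mul]
        apply spl_congr
        intro x y hxy _ _
        rw [V_mul, ← hxy, sg_add, sg_add, sg_one]
        have := sg_mul_self y.2
        linear_combination (-(sg x.2 * V (b' :: t) (fun u => f (x :: y :: u)))) * this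
      rw [e4]
    rw [e1, e2]
    linear_combination (- (spl b (fun x y => sg y.2 * V (b' :: t) (fun u => f (x :: y :: u))))
      + V (b' :: t) (fun u => U u (fun v => f (b :: v)))
      - sg b'.2 * U t (fun u => mrg b f (b' :: u))) * hsq
  unfold LL P
  rw [h1, h2, U]
  ring

end Pool.Agent.Helper55.Kh
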