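import Pool.Agent.Helper55.Kh.Ops

/-!
# Rows of the Laplacian
-/

namespace Pool.Agent.Helper55.Kh

lemma sumA (a c : ℕ) (g : ℕ → ℕ → ℝ) :
    ∑ i ∈ Finset.range (a + c + 1), sg i * g i (a + c + 1 - 1 - i) =
      ∑ i ∈ Finset.range a, sg i * g i (a - 1 - i + c + 1) +
      ∑ i ∈ Finset.range (c + 1), sg (a + i) * g (a + i) (c - i) := by
  have e : a + c + 1 = a + (c + 1) := by ring
  rw [e, Finset.sum_range_add]
  congr 1
  · apply Finset.sum_congr rfl
    intro x hx
    rw [Finset.mem_range] at hx
    have e1 : a + (c + 1) - 1 - x = a - 1 - x + c + 1 := by omega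
    rw [e1]
  · apply Finset.sum_congr rfl
    intro x hx
    rw [Finset.mem_range] at hx
    have e1 : a + (c + 1) - 1 - (a + x) = c - x := by omega
    rw [e1]

lemma sumB (a c : ℕ) (g : ℕ → ℕ → ℝ) :
    ∑ i ∈ Finset.range (c + 1), sg (a + i) * g (a + i) (c - i) =
      sg a * g a c - sg a * ∑ i ∈ Finset.range c, sg i * g (a + i + 1) (c - 1 - i) := by
  rw [Finset.sum_range_succ']
  have h2 : ∑ k ∈ Finset.range c, sg (a + (k + 1)) * g (a + (k + 1)) (c - (k + 1))
      = - (sg a * ∑ x ∈ Finset.range c, sg x * g (a + x + 1) (c - 1 - x)) := by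
    rw [Finset.mul_sum, ← Finset.sum_neg_distrib]
    apply Finset.sum_congr rfl
    intro x hx
    rw [Finset.mem_range] at hx
    have e1 : c - (x + 1) = c - 1 - x := by omega
    rw [e1, sg_add, sg_add, sg_one, ← add_assoc]
    ring
  rw [h2]
  simp only [add_zero, Nat.sub_zero]
  ring

lemma sumC (a c : ℕ) (g : ℕ → ℕ → ℝ) :
    ∑ i ∈ Finset.range a, sg i * g i (a - 1 - i + c + 1) =
      - (sg a * ∑ i ∈ Finset.range a, sg (a - 1 - i) * g i (a - 1 - i + c + 1)) := by
  rw [Finset.mul_sum, ← Finset.sum_neg_distrib]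
  apply Finset.sum_congr rfl
  intro x hx
  rw [Finset.mem_range] at hx
  have e2 : sg a = - (sg x * sg (a - 1 - x)) := by
    rw [← sg_add]
    have : a = (x + (a - 1 - x)) + 1 := by omega
    conv_lhs => rw [this]
    rw [sg_add, sg_one]; ring
  rw [e2]
  have := sg_mul_self (a - 1 - x)
  linear_combination (-(sg x * g x (a - 1 - x + c + 1))) * this

lemma sumD (a c : ℕ) (g : ℕ → ℕ → ℝ) :
    ∑ i ∈ Finset.range a, sg i * g i (a - 1 - i + c + 1) + sg a * g a c =
      sg a * ∑ i ∈ Finset.range (a + 1), sg i * g (a - i) (c + i) := by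
  rw [Finset.sum_range_succ', mul_add, Finset.mul_sum]
  simp only [add_zero, sg_zero, one_mul, Nat.sub_zero]
  congr 1
  rw [← Finset.sum_range_reflect]
  apply Finset.sum_congr rfl
  intro x hx
  rw [Finset.mem_range] at hx
  have e1 : a - 1 - (a - 1 - x) + c + 1 = c + (x + 1) := by omega
  have e2 : a - 1 - x = a - (x + 1) := by omega
  rw [e1, e2]
  have e3 : sg (a - (x + 1)) = sg a * sg (x + 1) := by
    have h4 : a = (a - (x + 1)) + (x + 1) := by omega
    conv_rhs => rw [h4]
    rw [sg_add (a - (x + 1)) (x + 1)]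
    have := sg_mul_self (x + 1)
    linear_combination (- sg (a - (x + 1))) * this
  rw [e3]
  ring

lemma sumE (a c : ℕ) (g : ℕ → ℕ → ℝ) :
    ∑ i ∈ Finset.range (c + 1), sg (a + i) * g (a + i) (c - i) =
      sg a * ∑ i ∈ Finset.range (c + 1), sg i * g (a + i) (c - i) := by
  rw [Finset.mul_sum]
  apply Finset.sum_congr rfl
  intro x _
  rw [sg_add]; ring

lemma P_XX (a c : ℕ) (t : List Blk) (f : List Blk → ℝ) :
    P (true, a) (true, c) t f =
      ∑ i ∈ Finset.range a, sg (a - 1 - i) * f ((true, i) :: (true, a - 1 - i + c + 1) :: t) +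
      ∑ i ∈ Finset.range c, sg i * f ((true, a + i + 1) :: (true, c - 1 - i) :: t) := by
  simp [P, spl, mrg]

lemma P_NN (a c : ℕ) (t : List Blk) (f : List Blk → ℝ) :
    P (false, a) (false, c) t f = f ((false, a) :: (false, c) :: t) := by
  simp only [P, spl, mrg]
  simp only [Bool.false_eq_true, Bool.and_self, if_false, Bool.or_self]
  rw [sumA a c (fun i j => f ((false, i) :: (false, j) :: t)),
    sumB a c (fun i j => f ((false, i) :: (false, j) :: t)),
    sumC a c (fun i j => f ((false, i) :: (false, j) :: t))]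
  have := sg_mul_self a
  linear_combination (f ((false, a) :: (false, c) :: t)
    - ∑ x ∈ Finset.range a, sg (a - 1 - x) * f ((false, x) :: (false, a - 1 - x + c + 1) :: t)
    - ∑ x ∈ Finset.range c, sg x * f ((false, a + x + 1) :: (false, c - 1 - x) :: t)) * this

lemma P_XN (a c : ℕ) (t : List Blk) (f : List Blk → ℝ) :
    P (true, a) (false, c) t f = f ((true, a) :: (false, c) :: t) +
      ∑ i ∈ Finset.range (c + 1), sg i * f ((false, a + i) :: (true, c - i) :: t) := by
  simp only [P, spl, mrg]
  simp only [Bool.false_eq_true, Bool.and_false, if_false, Bool.or_false, if_true, Bool.and_self,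
    Bool.or_self]
  rw [Finset.sum_add_distrib, Finset.sum_add_distrib,
    sumA a c (fun i j => f ((true, i) :: (false, j) :: t)),
    sumB a c (fun i j => f ((true, i) :: (false, j) :: t)),
    sumC a c (fun i j => f ((true, i) :: (false, j) :: t)),
    sumA a c (fun i j => f ((false, i) :: (true, j) :: t)),
    sumE a c (fun i j => f ((false, i) :: (true, j) :: t)),
    sumC a c (fun i j => f ((false, i) :: (true, j) :: t))]
  have := sg_mul_self a
  linear_combination (f ((true, a) :: (false, c) :: t)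
    - ∑ x ∈ Finset.range a, sg (a - 1 - x) * f ((true, x) :: (false, a - 1 - x + c + 1) :: t)
    - ∑ x ∈ Finset.range a, sg (a - 1 - x) * f ((false, x) :: (true, a - 1 - x + c + 1) :: t)
    - ∑ x ∈ Finset.range c, sg x * f ((true, a + x + 1) :: (false, c - 1 - x) :: t)
    + ∑ x ∈ Finset.range (c + 1), sg x * f ((false, a + x) :: (true, c - x) :: t)) * this

lemma P_NX (a c : ℕ) (t : List Blk) (f : List Blk → ℝ) :
    P (false, a) (true, c) t f = f ((false, a) :: (true, c) :: t) +
      ∑ i ∈ Finset.range (a + 1), sg i * f ((true, a - i) :: (false, c + i) :: t) := by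
  simp only [P, spl, mrg]
  simp only [Bool.false_eq_true, if_false, Bool.or_false, if_true, Bool.and_self,
    Bool.or_self, Bool.and_true, Bool.or_true, Bool.and_false]
  have hD := sumD a c (fun i j => f ((true, i) :: (false, j) :: t))
  rw [Finset.sum_add_distrib, Finset.sum_add_distrib,
    sumA a c (fun i j => f ((true, i) :: (false, j) :: t)),
    sumB a c (fun i j => f ((true, i) :: (false, j) :: t)),
    sumA a c (fun i j => f ((false, i) :: (true, j) :: t)),
    sumB a c (fun i j => f ((false, i) :: (true, j) :: t)),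
    sumC a c (fun i j => f ((false, i) :: (true, j) :: t))]
  have := sg_mul_self a
  linear_combination (f ((false, a) :: (true, c) :: t)
    - ∑ x ∈ Finset.range c, sg x * f ((true, a + x + 1) :: (false, c - 1 - x) :: t)
    - ∑ x ∈ Finset.range a, sg (a - 1 - x) * f ((false, x) :: (true, a - 1 - x + c + 1) :: t)
    - ∑ x ∈ Finset.range c, sg x * f ((false, a + x + 1) :: (true, c - 1 - x) :: t)
    + ∑ i ∈ Finset.range (a + 1), sg i * f ((true, a - i) :: (false, c + i) :: t)) * this
    + sg a * hD

/-- sum over the moves at a pair of adjacent blocks -/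
def pmv (b b' : Blk) (g : Blk → Blk → ℝ) : ℝ :=
  match b.1, b'.1 with
  | true, true => ∑ i ∈ Finset.range b.2, g (true, i) (true, b.2 - 1 - i + b'.2 + 1) +
      ∑ i ∈ Finset.range b'.2, g (true, b.2 + i + 1) (true, b'.2 - 1 - i)
  | true, false => ∑ i ∈ Finset.range (b'.2 + 1), g (false, b.2 + i) (true, b'.2 - i)
  | false, true => ∑ i ∈ Finset.range (b.2 + 1), g (true, b.2 - i) (false, b'.2 + i)
  | false, false => 0

/-- `1` unless both blocks are labelled `X` -/
def op (b b' : Blk) : ℝ := if b.1 && b'.1 then 0 else 1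

lemma abs_sum_le (s : Finset ℕ) (e : ℕ → ℕ) (g : ℕ → ℝ) :
    |∑ i ∈ s, sg (e i) * g i| ≤ ∑ i ∈ s, |g i| := by
  refine (Finset.abs_sum_le_sum_abs _ _).trans (le_of_eq ?_)
  apply Finset.sum_congr rfl
  intro i _
  rw [abs_mul, sg_abs, one_mul]

lemma P_bound (b b' : Blk) (t : List Blk) (f : List Blk → ℝ) :
    |P b b' t f - op b b' * f (b :: b' :: t)| ≤ pmv b b' (fun x y => |f (x :: y :: t)|) := by
  obtain ⟨lb, a⟩ := b
  obtain ⟨lb', c⟩ := b'
  cases lb <;> cases lb'
  · rw [P_NN]
    simp [op, pmv]
  · rw [P_NX]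
    simp only [op, pmv]
    simp only [Bool.and_true, Bool.false_eq_true, if_false, one_mul, add_sub_cancel_left]
    exact abs_sum_le _ (fun i => i) _
  · rw [P_XN]
    simp only [op, pmv]
    simp only [Bool.and_false, Bool.false_eq_true, if_false, one_mul, add_sub_cancel_left]
    exact abs_sum_le _ (fun i => i) _
  · rw [P_XX]
    simp only [op, pmv]
    simp only [Bool.and_true, if_true, zero_mul, sub_zero]
    refine (abs_add_le _ _).trans (add_le_add ?_ ?_)
    · exact abs_sum_le _ (fun i => a - 1 - i) _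
    · exact abs_sum_le _ (fun i => i) _

/-- sum over all the moves of a list -/
def Mv : List Blk → (List Blk → ℝ) → ℝ
  | [], _ => 0
  | [_], _ => 0
  | b :: b' :: t, F => pmv b b' (fun x y => F (x :: y :: t)) + Mv (b' :: t) (fun u => F (b :: u))

/-- diagonal entry of the Laplacian -/
def Dg : List Blk → ℝ
  | [] => 0
  | [b] => dg b
  | b :: b' :: t => dg b + op b b' + Dg (b' :: t)

lemma LL_nil (f : List Blk → ℝ) : LL [] f = 0 := by simp [LL, U, V]

lemma LL_single (b : Blk) (f : List Blk → ℝ) : LL [b] f = dg b * f [b] := by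
  unfold LL
  simp only [U, V]
  rw [← spl_diag]
  simp only [mul_zero, add_zero]
  apply spl_congr
  intro x y _ _ _
  have := sg_mul_self x.2
  linear_combination (mrg x f [y]) * this

theorem row_bound (s : List Blk) (f : List Blk → ℝ) :
    |LL s f - Dg s * f s| ≤ Mv s (fun u => |f u|) := by
  induction s generalizing f with
  | nil => simp [LL_nil, Dg, Mv]
  | cons b t ih =>
    cases t with
    | nil => simp [LL_single, Dg, Mv]
    | cons b' t =>
      rw [LL_cons, Dg, Mv]
      have e : dg b * f (b :: b' :: t) + P b b' t f + LL (b' :: t) (fun u => f (b :: u)) -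
          (dg b + op b b' + Dg (b' :: t)) * f (b :: b' :: t) =
          (P b b' t f - op b b' * f (b :: b' :: t)) +
          (LL (b' :: t) (fun u => f (b :: u)) - Dg (b' :: t) * f (b :: b' :: t)) := by ring
      rw [e]
      exact (abs_add_le _ _).trans (add_le_add (P_bound b b' t f) (ih _))

end Pool.Agent.Helper55.Kh
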